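import Mathlib

/-!
# DNF formulas whose incidence graph has bounded treewidth
-/

namespace Pool.Agent.Helper91K9.TW

/-- The incidence graph of the DNF formula `F` has treewidth at most `t`.  The vertices of this
graph are the variables and the (positions of the) terms of `F`, and a variable is joined to the
terms in which it occurs, negated or not.  The bag of the node `k < N` of a rooted tree (the parent
of the node `k > 0` is `p k < k`) consists of the variables in `V k` and the terms in `T k`; it has
at most `t + 1` elements, every edge of the graph lies in a bag, and a vertex which is in the bags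
of the nodes `j < k` is in the bag of the parent of `k`, that is, the bags containing a given vertex
form a subtree. -/
def TreeWidthLE (t : ℕ) (F : List (List (ℕ × Bool))) : Prop :=
  ∃ (N : ℕ) (p : ℕ → ℕ) (V T : ℕ → Finset ℕ),
    (∀ k < N, (V k).card + (T k).card ≤ t + 1) ∧
    (∀ k < N, 0 < k → p k < k ∧ ∀ j < k, V j ∩ V k ⊆ V (p k) ∧ T j ∩ T k ⊆ T (p k)) ∧
    ∀ (i : ℕ) (u : List (ℕ × Bool)), F[i]? = some u → ∀ l ∈ u, ∃ k < N, l.1 ∈ V k ∧ i ∈ T k

end Pool.Agent.Helper91K9.TW
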