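import Pool.Agent.Helper91K9.DL.Defs
import Pool.Agent.Helper91K9.TW.Width

/-!
# The learning algorithm for DNF formulas of bounded incidence treewidth
-/

namespace Pool.Agent.Helper91K9.TW

open Pool.Agent.NPC Pool.Agent.Helper91K9.DL

/-- The number of negative examples which satisfy the term `ρ`. -/
def ct (neg : List (List Bool)) (ρ : List (ℕ × Bool)) : ℕ :=
  (neg.filter fun x => termVal ρ x).length

/-- The distance of `a * b` and `c * d`. -/
def dif (a b c d : ℕ) : ℕ := (a * b - c * d) + (c * d - a * b)

/-- The two tests: the literal `l` is forced for the difference of the worlds. -/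
def forced (m K : ℕ) (neg : List (List Bool)) (r1 r2 r3 r4 : List (ℕ × Bool)) (l : ℕ × Bool) :
    Bool :=
  decide (K * dif (ct neg ((l.1, !l.2) :: r1)) (ct neg r4) (ct neg ((l.1, !l.2) :: r2))
    (ct neg r3) ≤ m * ct neg r3) &&
  decide (K * dif (ct neg ((l.1, !l.2) :: r3)) (ct neg r4) (ct neg ((l.1, !l.2) :: r4))
    (ct neg r3) ≤ m * ct neg r3)

/-- One step of the enumeration of the sublists. -/
def subStep (M Q : ℕ) (cur : List (List (ℕ × Bool))) (l : ℕ × Bool) : List (List (ℕ × Bool)) :=
  if M < 2 * cur.length ∨ Q < 2 * cur.length then cur else cur ++ cur.map (l :: ·)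

/-- The sublists of `C` (reversed), if there are few of them. -/
def subs (M Q : ℕ) (C : List (ℕ × Bool)) : List (List (ℕ × Bool)) :=
  C.foldl (subStep M Q) [[]]

/-- The pieces of the candidate terms. -/
def pieces (r n m K Q : ℕ) (neg : List (List Bool)) : List (List (ℕ × Bool)) :=
  [] :: (parts n r).flatMap fun r1 => (parts n r).flatMap fun r2 => (parts n r).flatMap fun r3 =>
    (parts n r).flatMap fun r4 => subs m Q ((lits n).filter (forced m K neg r1 r2 r3 r4))

/-- The unions of `c` members of `P`. -/
def comb (P : List (List (ℕ × Bool))) : ℕ → List (List (ℕ × Bool))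
  | 0 => [[]]
  | c + 1 => (comb P c).flatMap fun u => P.map (u ++ ·)

/-- The candidate terms. -/
def cands3 (r c n m K Q : ℕ) (neg : List (List Bool)) : List (List (ℕ × Bool)) :=
  (parts n r).flatMap fun β => (comb (pieces r n m K Q neg) c).map (β ++ ·)

/-- The candidates which are satisfied by few negative examples. -/
def level (r c n m K Q D : ℕ) (neg : List (List Bool)) : List (List (ℕ × Bool)) :=
  (cands3 r c n m K Q neg).filter fun t => decide (D * ct neg t ≤ m)

/-- The learning algorithm.  The exponents for the scales are in the constant list `es`. -/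
def learn3 (r c : ℕ) (es : List (ℕ × ℕ × ℕ)) (p : ℕ × List (List Bool × Bool)) :
    List (List (ℕ × Bool)) :=
  es.flatMap fun e => level r c (nvars p.2) p.2.length (thr e.1 (nvars p.2) p.1)
    (thr e.2.1 (nvars p.2) p.1) (thr e.2.2 (nvars p.2) p.1) (negs p.2)

end Pool.Agent.Helper91K9.TW
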