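import Pool.Agent.Helper91K9.TW.Stm2

/-!
# Leaves CLASS and SMALL
-/

namespace Pool.Agent.Helper91K9.TW

open Finset Pool.Agent.Helper91K9.DL

theorem cls : S_CLASS := by
  classical
  intro n S Ev η hη h
  let zz : Finset (Fin n) → Cube n := fun U v => decide (v ∈ U)
  have h1 : PP (fun x => Ev x x ∧ PP (Ev x) ≤ η) ≤
      PP (fun x => ∃ U ∈ S.powerset, Ev (zz U) x ∧ PP (Ev (zz U)) ≤ η) := by
    refine PP_mono ?_
    rintro x ⟨hx1, hx2⟩
    have hagr : agr S x (zz (S.filter fun v => x v = true)) := by
      intro v hv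
      simp only [zz, mem_filter]
      cases hxv : x v <;> simp [hv, hxv]
    refine ⟨S.filter fun v => x v = true, mem_powerset.2 (filter_subset _ _),
      (h _ _ hagr x).1 hx1, ?_⟩
    rw [← PP_congr fun y => h _ _ hagr y]
    exact hx2
  refine h1.trans ((PP_exists_le _ _).trans ?_)
  have h2 : ∀ U ∈ S.powerset, PP (fun x => Ev (zz U) x ∧ PP (Ev (zz U)) ≤ η) ≤ η := by
    intro U _
    by_cases hU : PP (Ev (zz U)) ≤ η
    · exact (PP_mono fun x hx => hx.1).trans hU
    · have : PP (fun x => Ev (zz U) x ∧ PP (Ev (zz U)) ≤ η) = 0 := by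
        rw [PP_eq]
        have h3 : (univ.filter fun x => Ev (zz U) x ∧ PP (Ev (zz U)) ≤ η) = ∅ := by
          rw [filter_eq_empty_iff]
          intro x _ hx
          exact hU hx.2
        rw [h3]
        simp
      rw [this]
      exact hη
  refine (sum_le_sum h2).trans (le_of_eq ?_)
  rw [sum_const, card_powerset, nsmul_eq_mul]
  push_cast
  ring

theorem small : S_SMALL := by
  classical
  intro n c
  induction c with
  | zero =>
    rw [pow_zero]
    refine (card_le_card (t := {∅}) ?_).trans (by simp)
    intro Q hQ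
    have := (mem_filter.1 hQ).2
    rw [Nat.le_zero, card_eq_zero] at this
    rw [this]
    exact mem_singleton_self _
  | succ c ih =>
    let F : Option (Fin n) × Finset (Fin n) → Finset (Fin n) := fun p =>
      match p.1 with
      | none => p.2
      | some a => insert a p.2
    have h1 : ((univ : Finset (Finset (Fin n))).filter fun Q => Q.card ≤ c + 1) ⊆
        ((univ : Finset (Option (Fin n))) ×ˢ
          ((univ : Finset (Finset (Fin n))).filter fun Q => Q.card ≤ c)).image F := by
      intro Q hQ
      have hc := (mem_filter.1 hQ).2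
      rw [mem_image]
      rcases Q.eq_empty_or_nonempty with h0 | ⟨a, ha⟩
      · refine ⟨(none, ∅), mem_product.2 ⟨mem_univ _, mem_filter.2 ⟨mem_univ _, by simp⟩⟩, ?_⟩
        rw [h0]
      · refine ⟨(some a, Q.erase a), mem_product.2 ⟨mem_univ _, mem_filter.2 ⟨mem_univ _, ?_⟩⟩,
          insert_erase ha⟩
        rw [card_erase_of_mem ha]
        omega
    refine (card_le_card h1).trans (card_image_le.trans ?_)
    rw [card_product, card_univ, Fintype.card_option, Fintype.card_fin, pow_succ, mul_comm]
    exact Nat.mul_le_mul_right _ ih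

end Pool.Agent.Helper91K9.TW
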