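import Pool.Agent.Helper91K9.TW.Stm
import Pool.Agent.Helper91K9.DL.Correct
import Pool.Agent.Helper91K9.DL.Parts

/-!
# The tests on a good sample
-/

namespace Pool.Agent.Helper91K9.TW

open Finset Pool.Agent.Helper91K9.DL

variable {n m : ℕ}

theorem ct_eq (F : List (List (ℕ × Bool))) (Xs : Fin m → Cube n) (ρ : List (ℕ × Bool))
    (hρ : ∀ l ∈ ρ, l.1 < n) :
    (ct (negs (smp F Xs)) ρ : ℝ) = stat Xs (ff n F) (UU n ρ) ∅ := by
  classical
  unfold ct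
  rw [negs_filter, stat_empty]
  congr 2
  ext j
  simp only [mem_filter, mem_univ, true_and]
  rw [termVal_iff ρ hρ, and_comm]

theorem ct_close {F : List (List (ℕ × Bool))} {Xs : Fin m → Cube n} {τ : ℝ}
    (hG : Good Xs (ff n F) τ) (ρ : List (ℕ × Bool)) (hρ : ∀ l ∈ ρ, l.1 < n) :
    |(ct (negs (smp F Xs)) ρ : ℝ) - m * NN (ff n F) (UU n ρ)| ≤ m * τ := by
  rw [ct_eq F Xs ρ hρ]
  have h := hG (UU n ρ) ∅
  rw [coef_empty] at h
  exact h

theorem ct_le (F : List (List (ℕ × Bool))) (Xs : Fin m → Cube n) (ρ : List (ℕ × Bool)) :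
    ct (negs (smp F Xs)) ρ ≤ m := by
  unfold ct
  rw [negs_filter]
  exact (card_le_univ _).trans (by simp)

theorem NN_cons (f : Cube n → Prop) (ρ : List (ℕ × Bool)) (l : Fin n × Bool) :
    NN f (UU n (((l.1 : ℕ), !l.2) :: ρ)) = NL f (UU n ρ) l := by
  unfold NN NL
  refine PP_congr fun x => and_congr_right fun _ => ?_
  unfold satL
  constructor
  · intro h
    refine ⟨fun l' hl' => h l' ((mem_UU _ _).2 (List.mem_cons_of_mem _ ((mem_UU _ _).1 hl'))), ?_⟩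
    exact h (l.1, !l.2) ((mem_UU _ _).2 List.mem_cons_self)
  · rintro ⟨h1, h2⟩ l' hl'
    rcases List.mem_cons.1 ((mem_UU _ _).1 hl') with h | h
    · rw [Prod.mk.injEq] at h
      have h3 : l'.1 = l.1 := Fin.ext h.1
      rw [h3, h.2, h2]
    · exact h1 l' ((mem_UU _ _).2 h)

theorem dif_cast (a b c d : ℕ) : (dif a b c d : ℝ) = |(a : ℝ) * b - c * d| := by
  unfold dif
  rcases le_total (c * d) (a * b) with h | h
  · rw [Nat.sub_eq_zero_of_le h, add_zero, Nat.cast_sub h, abs_of_nonneg]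
    · push_cast; ring
    · rw [sub_nonneg]; exact_mod_cast h
  · rw [Nat.sub_eq_zero_of_le h, zero_add, Nat.cast_sub h, abs_sub_comm, abs_of_nonneg]
    · push_cast; ring
    · rw [sub_nonneg]; exact_mod_cast h

theorem prod_close {x y a b τ : ℝ} (hx : |x - a| ≤ τ) (hy : |y - b| ≤ τ) (hy1 : 0 ≤ y)
    (hy2 : y ≤ 1) (ha1 : 0 ≤ a) (ha2 : a ≤ 1) : |x * y - a * b| ≤ 2 * τ := by
  have h : x * y - a * b = (x - a) * y + a * (y - b) := by ring
  rw [h]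
  refine (abs_add_le _ _).trans ?_
  rw [abs_mul, abs_mul, abs_of_nonneg hy1, abs_of_nonneg ha1]
  have hτ : 0 ≤ τ := (abs_nonneg _).trans hx
  have h1 : |x - a| * y ≤ τ * 1 := mul_le_mul hx hy2 hy1 hτ
  have h2 : a * |y - b| ≤ 1 * τ := mul_le_mul ha2 hy (abs_nonneg _) (by norm_num)
  linarith

/-- One test, in terms of frequencies. -/
theorem test_of {x1 x2 x3 x4 N1 N2 N3 N4 τ err K : ℝ} (h1 : |x1 - N1| ≤ τ) (h2 : |x2 - N2| ≤ τ)
    (h3 : |x3 - N3| ≤ τ) (h4 : |x4 - N4| ≤ τ) (hx3 : 0 ≤ x3) (hx3' : x3 ≤ 1) (hx4 : 0 ≤ x4)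
    (hx4' : x4 ≤ 1) (hN1 : 0 ≤ N1) (hN1' : N1 ≤ 1) (hN2 : 0 ≤ N2) (hN2' : N2 ≤ 1) (hK : 1 ≤ K)
    (hKτ : 16 * K * τ ≤ N3) (hKe : K * err ≤ 1 / 2) (h : |N1 * N4 - N2 * N3| ≤ err * N3) :
    K * |x1 * x4 - x2 * x3| ≤ x3 := by
  have hτ : 0 ≤ τ := (abs_nonneg _).trans h1
  have e1 := prod_close h1 h4 hx4 hx4' hN1 hN1'
  have e2 := prod_close h2 h3 hx3 hx3' hN2 hN2'
  have e3 : |x1 * x4 - x2 * x3| ≤ err * N3 + 4 * τ := by
    have : x1 * x4 - x2 * x3 = (x1 * x4 - N1 * N4) + (N1 * N4 - N2 * N3) -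
      (x2 * x3 - N2 * N3) := by ring
    rw [this]
    refine (abs_sub _ _).trans ?_
    have := abs_add_le (x1 * x4 - N1 * N4) (N1 * N4 - N2 * N3)
    linarith
  have hN3 : 0 ≤ N3 := by nlinarith
  have e4 : K * |x1 * x4 - x2 * x3| ≤ K * (err * N3 + 4 * τ) :=
    mul_le_mul_of_nonneg_left e3 (by linarith)
  have e5 : K * (err * N3) ≤ 1 / 2 * N3 := by
    rw [← mul_assoc]; exact mul_le_mul_of_nonneg_right hKe hN3
  have e6 : τ ≤ K * τ := by nlinarith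
  have e7 := (abs_le.1 h3).1
  nlinarith

/-- One test, conversely. -/
theorem of_test {x1 x2 x3 x4 N1 N2 N3 N4 τ K : ℝ} (h1 : |x1 - N1| ≤ τ) (h2 : |x2 - N2| ≤ τ)
    (h3 : |x3 - N3| ≤ τ) (h4 : |x4 - N4| ≤ τ) (hx3 : 0 ≤ x3) (hx3' : x3 ≤ 1) (hx4 : 0 ≤ x4)
    (hx4' : x4 ≤ 1) (hN1 : 0 ≤ N1) (hN1' : N1 ≤ 1) (hN2 : 0 ≤ N2) (hN2' : N2 ≤ 1) (hK : 1 ≤ K)
    (hKτ : 16 * K * τ ≤ N3) (h : K * |x1 * x4 - x2 * x3| ≤ x3) :
    K * |N1 * N4 - N2 * N3| ≤ 2 * N3 := by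
  have hτ : 0 ≤ τ := (abs_nonneg _).trans h1
  have e1 := prod_close h1 h4 hx4 hx4' hN1 hN1'
  have e2 := prod_close h2 h3 hx3 hx3' hN2 hN2'
  have e3 : |N1 * N4 - N2 * N3| ≤ |x1 * x4 - x2 * x3| + 4 * τ := by
    have : N1 * N4 - N2 * N3 = (x1 * x4 - x2 * x3) - (x1 * x4 - N1 * N4) +
      (x2 * x3 - N2 * N3) := by ring
    rw [this]
    have h5 := abs_sub (x1 * x4 - x2 * x3) (x1 * x4 - N1 * N4)
    have h6 := abs_add_le ((x1 * x4 - x2 * x3) - (x1 * x4 - N1 * N4)) (x2 * x3 - N2 * N3)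
    linarith
  have e4 : K * |N1 * N4 - N2 * N3| ≤ K * (|x1 * x4 - x2 * x3| + 4 * τ) :=
    mul_le_mul_of_nonneg_left e3 (by linarith)
  have e6 : τ ≤ K * τ := by nlinarith
  have e7 := (abs_le.1 h3).2
  nlinarith

theorem nodup_lits (n : ℕ) : (lits n).Nodup := by
  unfold lits
  rw [List.nodup_flatMap]
  refine ⟨fun j _ => by simp, ?_⟩
  refine (List.nodup_range).imp ?_
  intro a b hab
  simp only [Function.onFun]
  intro l hl hl'
  simp only [List.mem_cons, List.not_mem_nil, or_false] at hl hl'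
  rcases hl with rfl | rfl <;> rcases hl' with h | h <;> · rw [Prod.mk.injEq] at h; exact hab h.1

theorem length_eq_card (C : List (ℕ × Bool)) (hC : C.Nodup) (hv : ∀ l ∈ C, l.1 < n) :
    C.length = (UU n C).card := by
  classical
  rw [← List.toFinset_card_of_nodup hC]
  symm
  refine card_bij (fun l _ => ((l.1 : ℕ), l.2)) ?_ ?_ ?_
  · intro l hl
    rw [List.mem_toFinset]
    exact (mem_UU _ _).1 hl
  · intro l _ l' _ h
    rw [Prod.mk.injEq] at h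
    exact Prod.ext (Fin.ext h.1) h.2
  · intro l hl
    rw [List.mem_toFinset] at hl
    exact ⟨(⟨l.1, hv l hl⟩, l.2), (mem_UU _ _).2 hl, rfl⟩

theorem found (hD1 : S_DET1) (hD2 : S_DET2) (hSz : S_SIZE) (hSub : S_SUBS)
    {F : List (List (ℕ × Bool))} {Xs : Fin m → Cube n} {τ : ℝ} (hG : Good Xs (ff n F) τ)
    (hm : 0 < m) {r K Q : ℕ} {D : Finset (Fin n)} {g1 g0 P Qp w b hit : Cube n → Prop}
    {r1 r2 r3 r4 : Finset (Fin n × Bool)} {err : ℝ}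
    (hdet : Det (ff n F) D g1 g0 P Qp w b hit r1 r2 r3 r4 err) (hr1 : r1.card ≤ r)
    (hr2 : r2.card ≤ r) (hr3 : r3.card ≤ r) (hr4 : r4.card ≤ r) {p : ℝ} (hp0 : 0 < p)
    (hp1 : p ≤ 1) (hpg : p ≤ PP g0) (hpM : p ^ 3 ≤ PP (fun x => (g1 x ∧ P x) ∧ (b x ∧ hit x)))
    (hK : 1 ≤ K) (hKτ : 16 * (K : ℝ) * τ ≤ NN (ff n F) r3) (hN3 : 0 < NN (ff n F) r3)
    (hKe : (K : ℝ) * err ≤ 1 / 2) (hnK : 64 * (n : ℝ) ≤ K * p ^ 4) (hne : 16 * (n : ℝ) * err ≤ p ^ 3)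
    (hQ : 2 ≤ (Q : ℝ) * p ^ 3) (hQm : Q ≤ m) (S : Finset (Fin n)) (hSD : S ⊆ D) (c : Cube n)
    (hSP : ∀ v ∈ S, ∀ x, P x → x v = c v) :
    ∃ u ∈ pieces r n m K Q (negs (smp F Xs)), ∀ l, l ∈ u ↔ l ∈ litsOf c S := by
  classical
  obtain ⟨ρ1, hl1, hv1, rfl⟩ := exists_list r1
  obtain ⟨ρ2, hl2, hv2, rfl⟩ := exists_list r2
  obtain ⟨ρ3, hl3, hv3, rfl⟩ := exists_list r3
  obtain ⟨ρ4, hl4, hv4, rfl⟩ := exists_list r4
  set neg := negs (smp F Xs) with hneg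
  have hm0 : (0 : ℝ) < m := by exact_mod_cast hm
  have hK1 : (1 : ℝ) ≤ K := by exact_mod_cast hK
  -- frequencies
  set fr : List (ℕ × Bool) → ℝ := fun ρ => (ct neg ρ : ℝ) / m with hfr
  have hfr0 : ∀ ρ, 0 ≤ fr ρ := fun ρ => by positivity
  have hfr1 : ∀ ρ, fr ρ ≤ 1 := fun ρ => by
    rw [hfr]
    simp only
    rw [div_le_one hm0]
    exact_mod_cast ct_le F Xs ρ
  have hfrc : ∀ ρ : List (ℕ × Bool), (∀ l ∈ ρ, l.1 < n) →
      |fr ρ - NN (ff n F) (UU n ρ)| ≤ τ := fun ρ hρ => by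
    have h := ct_close hG ρ hρ
    have h2 : fr ρ - NN (ff n F) (UU n ρ) =
        ((ct neg ρ : ℝ) - m * NN (ff n F) (UU n ρ)) / m := by
      rw [hfr]; field_simp
    rw [h2, abs_div, abs_of_pos hm0, div_le_iff₀ hm0]
    linarith
  have hNN0 : ∀ ρ, 0 ≤ NN (ff n F) (UU n ρ) := fun ρ => PP_nonneg _
  have hNN1 : ∀ ρ, NN (ff n F) (UU n ρ) ≤ 1 := fun ρ => PP_le_one _
  have hcv : ∀ (l : Fin n × Bool) (ρ : List (ℕ × Bool)), (∀ l ∈ ρ, l.1 < n) →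
      ∀ l' ∈ ((l.1 : ℕ), !l.2) :: ρ, l'.1 < n := by
    intro l ρ hρ l' hl'
    rcases List.mem_cons.1 hl' with h | h
    · rw [h]; exact l.1.2
    · exact hρ l' h
  -- a test in terms of frequencies
  have htest : ∀ a1 a4 a2 a3 : List (ℕ × Bool),
      (K * dif (ct neg a1) (ct neg a4) (ct neg a2) (ct neg a3) ≤ m * ct neg a3) ↔
      (K : ℝ) * |fr a1 * fr a4 - fr a2 * fr a3| ≤ fr a3 := by
    intro a1 a4 a2 a3
    have h1 : |fr a1 * fr a4 - fr a2 * fr a3| =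
        (dif (ct neg a1) (ct neg a4) (ct neg a2) (ct neg a3) : ℝ) / (m * m) := by
      rw [dif_cast, hfr]
      simp only
      rw [div_mul_div_comm, div_mul_div_comm, ← sub_div, abs_div,
        abs_of_pos (by positivity : (0 : ℝ) < m * m)]
    rw [h1]
    have h2 : fr a3 = (m : ℝ) * ct neg a3 / (m * m) := by rw [hfr]; field_simp
    rw [h2, ← mul_div_assoc, div_le_div_iff_of_pos_right (by positivity)]
    exact_mod_cast Iff.rfl
  set C := (lits n).filter (forced m K neg ρ1 ρ2 ρ3 ρ4) with hC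
  have hCv : ∀ l ∈ C, l.1 < n := fun l hl => mem_lits.1 (List.mem_filter.1 hl).1
  have hforced : ∀ l : Fin n × Bool, forced m K neg ρ1 ρ2 ρ3 ρ4 ((l.1 : ℕ), l.2) = true ↔
      (K : ℝ) * |fr (((l.1 : ℕ), !l.2) :: ρ1) * fr ρ4 - fr (((l.1 : ℕ), !l.2) :: ρ2) * fr ρ3| ≤
        fr ρ3 ∧
      (K : ℝ) * |fr (((l.1 : ℕ), !l.2) :: ρ3) * fr ρ4 - fr (((l.1 : ℕ), !l.2) :: ρ4) * fr ρ3| ≤
        fr ρ3 := by
    intro l
    unfold forced
    rw [Bool.and_eq_true, decide_eq_true_iff, decide_eq_true_iff, htest, htest]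
  -- the forced literals
  have hsmall : ∀ l ∈ UU n C, 8 * (n : ℝ) *
      PP (fun x => ((g1 x ∧ P x) ∧ (b x ∧ hit x)) ∧ x l.1 = !l.2) ≤
      PP (fun x => (g1 x ∧ P x) ∧ (b x ∧ hit x)) := by
    intro l hl
    have hl' := (mem_UU _ _).1 hl
    rw [hC, List.mem_filter] at hl'
    obtain ⟨t1, t0⟩ := (hforced l).1 hl'.2
    have u1 := of_test (hfrc _ (hcv l ρ1 hv1)) (hfrc _ (hcv l ρ2 hv2)) (hfrc ρ3 hv3)
      (hfrc ρ4 hv4) (hfr0 _) (hfr1 _) (hfr0 _) (hfr1 _) (hNN0 _) (hNN1 _) (hNN0 _) (hNN1 _) hK1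
      hKτ t1
    have u0 := of_test (hfrc _ (hcv l ρ3 hv3)) (hfrc _ (hcv l ρ4 hv4)) (hfrc ρ3 hv3)
      (hfrc ρ4 hv4) (hfr0 _) (hfr1 _) (hfr0 _) (hfr1 _) (hNN0 _) (hNN1 _) (hNN0 _) (hNN1 _) hK1
      hKτ t0
    rw [NN_cons, NN_cons] at u1 u0
    have key := hD2 n _ D g1 g0 P Qp w b hit _ _ _ _ err hdet l
    have e1 : (K : ℝ) * |DD1 (ff n F) (UU n ρ1) (UU n ρ2) (UU n ρ3) (UU n ρ4) l| ≤
        2 * NN (ff n F) (UU n ρ3) := u1
    have e0 : (K : ℝ) * |DD0 (ff n F) (UU n ρ3) (UU n ρ4) l| ≤ 2 * NN (ff n F) (UU n ρ3) := u0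
    set N3 := NN (ff n F) (UU n ρ3) with hN3d
    set d1 := |DD1 (ff n F) (UU n ρ1) (UU n ρ2) (UU n ρ3) (UU n ρ4) l| with hd1
    set d0 := |DD0 (ff n F) (UU n ρ3) (UU n ρ4) l| with hd0
    set G0 := PP g0 with hG0
    have hG01 : G0 ≤ 1 := PP_le_one _
    have hM' : PP (fun x => ((g1 x ∧ P x) ∧ (b x ∧ hit x)) ∧ x l.1 = !l.2) =
        PP (fun x => (g1 x ∧ P x) ∧ (b x ∧ hit x) ∧ x l.1 = !l.2) :=
      PP_congr fun x => and_assoc
    rw [hM']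
    set y := PP (fun x => (g1 x ∧ P x) ∧ (b x ∧ hit x) ∧ x l.1 = !l.2) with hy
    have hG0p : 0 < G0 := lt_of_lt_of_le hp0 hpg
    -- `y ≤ 4 / (K p) + err`
    have f1 : (K : ℝ) * (G0 * N3 * y) ≤ G0 * (2 * N3) + 2 * N3 + G0 * (K * err) * N3 := by
      calc (K : ℝ) * (G0 * N3 * y) ≤ K * (G0 * d1 + d0 + G0 * err * N3) :=
            mul_le_mul_of_nonneg_left key (by linarith)
        _ = G0 * (K * d1) + K * d0 + G0 * (K * err) * N3 := by ring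
        _ ≤ _ := by
            have := mul_le_mul_of_nonneg_left e1 hG0p.le
            linarith
    have f2 : (K : ℝ) * (G0 * y) ≤ 4 + G0 * (K * err) := by
      have h5 : (K : ℝ) * (G0 * y) * N3 ≤ (4 + G0 * (K * err)) * N3 := by nlinarith
      exact le_of_mul_le_mul_right h5 hN3
    have hy0 : 0 ≤ y := PP_nonneg _
    have f3 : (K : ℝ) * (p * y) ≤ 4 + (K * err) * p ∨ True := Or.inr trivial
    have f4 : (K : ℝ) * y * G0 ≤ 4 + K * err * G0 := by nlinarith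
    have f5 : (K : ℝ) * (y - err) * p ≤ 4 := by
      rcases le_total err y with h6 | h6
      · have h7 : (K : ℝ) * (y - err) * G0 ≤ 4 := by nlinarith
        have h8 : (K : ℝ) * (y - err) * p ≤ (K : ℝ) * (y - err) * G0 := by
          refine mul_le_mul_of_nonneg_left hpg (mul_nonneg (by linarith) (by linarith))
        linarith
      · have h7 : (K : ℝ) * (y - err) * p ≤ 0 := by
          refine mul_nonpos_of_nonpos_of_nonneg ?_ hp0.le
          exact mul_nonpos_of_nonneg_of_nonpos (by linarith) (by linarith)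
        linarith
    -- conclusion
    have hn0 : (0 : ℝ) ≤ n := Nat.cast_nonneg n
    have f6 : 16 * (n : ℝ) * (y - err) ≤ p ^ 3 := by
      rcases le_total y err with h6 | h6
      · have : 16 * (n : ℝ) * (y - err) ≤ 0 :=
          mul_nonpos_of_nonneg_of_nonpos (by positivity) (by linarith)
        have : (0 : ℝ) < p ^ 3 := by positivity
        linarith
      · have h7 : 64 * (n : ℝ) * (y - err) ≤ K * p ^ 4 * (y - err) :=
          mul_le_mul_of_nonneg_right hnK (by linarith)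
        have h8 : (K : ℝ) * p ^ 4 * (y - err) = ((K : ℝ) * (y - err) * p) * p ^ 3 := by ring
        have h9 : ((K : ℝ) * (y - err) * p) * p ^ 3 ≤ 4 * p ^ 3 :=
          mul_le_mul_of_nonneg_right f5 (by positivity)
        linarith
    linarith
  have hMpos : 0 < PP (fun x => (g1 x ∧ P x) ∧ (b x ∧ hit x)) :=
    lt_of_lt_of_le (by positivity) hpM
  have hsz := hSz n _ (UU n C) hMpos hsmall
  have hCn : C.Nodup := (nodup_lits n).filter _
  rw [← length_eq_card C hCn hCv] at hsz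
  have hCQ : 2 ^ C.length ≤ Q := by
    have h1 : (2 : ℝ) ^ C.length * p ^ 3 ≤ Q * p ^ 3 :=
      (mul_le_mul_of_nonneg_left hpM (by positivity)).trans (hsz.trans hQ)
    have h2 := le_of_mul_le_mul_right h1 (by positivity)
    exact_mod_cast h2
  obtain ⟨u, hu, hu2⟩ := hSub.2.2 m Q C (fun l => decide (l ∈ litsOf c S)) (hCQ.trans hQm) hCQ
  refine ⟨u, ?_, fun l => ?_⟩
  · unfold pieces
    refine List.mem_cons_of_mem _ ?_
    simp only [List.mem_flatMap]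
    exact ⟨ρ1, mem_parts (by omega) hv1, ρ2, mem_parts (by omega) hv2, ρ3,
      mem_parts (by omega) hv3, ρ4, mem_parts (by omega) hv4, hu⟩
  · rw [hu2, decide_eq_true_iff]
    constructor
    · exact fun h => h.2
    · intro h
      refine ⟨?_, h⟩
      obtain ⟨v, hv, rfl⟩ := (mem_litsOf c S l).1 h
      rw [hC, List.mem_filter]
      refine ⟨mem_lits.2 v.2, ?_⟩
      rw [hforced (v, c v)]
      obtain ⟨k1, k0⟩ := hD1 n _ D g1 g0 P Qp w b hit _ _ _ _ err hdet (v, c v) (hSD hv)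
        (fun x hx => hSP v hv x hx)
      have herr : 0 ≤ err := (PP_nonneg _).trans hdet.hQ
      constructor
      · refine test_of (hfrc _ (hcv (v, c v) ρ1 hv1)) (hfrc _ (hcv (v, c v) ρ2 hv2))
          (hfrc ρ3 hv3) (hfrc ρ4 hv4) (hfr0 _) (hfr1 _) (hfr0 _) (hfr1 _) (hNN0 _) (hNN1 _)
          (hNN0 _) (hNN1 _) hK1 hKτ hKe ?_
        rw [NN_cons, NN_cons]
        exact k1
      · refine test_of (hfrc _ (hcv (v, c v) ρ3 hv3)) (hfrc _ (hcv (v, c v) ρ4 hv4))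
          (hfrc ρ3 hv3) (hfrc ρ4 hv4) (hfr0 _) (hfr1 _) (hfr0 _) (hfr1 _) (hNN0 _) (hNN1 _)
          (hNN0 _) (hNN1 _) hK1 hKτ hKe ?_
        rw [NN_cons, NN_cons]
        have k2 : NL (ff n F) (UU n ρ3) (v, c v) * NN (ff n F) (UU n ρ4) -
          NL (ff n F) (UU n ρ4) (v, c v) * NN (ff n F) (UU n ρ3) = 0 := k0
        rw [k2, abs_zero]
        exact mul_nonneg herr (hNN0 _)

end Pool.Agent.Helper91K9.TW
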