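import Pool.Agent.Helper91K9.TW.Find
import Pool.Agent.Helper91K9.TW.Sample

/-!
# Covering a point by an accepted candidate, one scale
-/

namespace Pool.Agent.Helper91K9.TW

open Finset Pool.Agent.Helper91K9.DL

variable {n m : ℕ} {ι : Type}

/-- The conditions on the parameters of a scale. -/
structure Scl (n m r k0 K Qc : ℕ) (θ θ' ϑ τ : ℝ) : Prop where
  θ0 : 0 < θ
  θ1 : θ ≤ 1
  θ'0 : 0 ≤ θ'
  θ'1 : θ' < θ
  ϑ0 : 0 < ϑ
  K1 : 1 ≤ K
  Kerr : (K : ℝ) * (2 ^ k0 * θ') ≤ 1 / 2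
  Kn : 64 * (n : ℝ) ≤ K * (θ / ((n : ℝ) + 1) ^ k0) ^ 4
  nerr : 16 * (n : ℝ) * (2 ^ k0 * θ') ≤ (θ / ((n : ℝ) + 1) ^ k0) ^ 3
  Q1 : 2 ≤ (Qc : ℝ) * (θ / ((n : ℝ) + 1) ^ k0) ^ 3
  Qm : Qc ≤ m
  Kτ : 16 * (K : ℝ) * τ ≤ θ / ((n : ℝ) + 1) ^ k0 * ϑ
  m0 : 0 < m

theorem side (hK : S_KILL) (hD1 : S_DET1) (hD2 : S_DET2) (hSz : S_SIZE) (hSub : S_SUBS)
    {F : List (List (ℕ × Bool))} {Xs : Fin m → Cube n} {τ : ℝ} (hG : Good Xs (ff n F) τ)
    {T : ι → Finset (Fin n)} {a : ι → Cube n} {r k0 K Qc : ℕ} {θ θ' ϑ : ℝ}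
    (hs : Scl n m r k0 K Qc θ θ' ϑ τ)
    {z : Cube n} {W Q D D' : Finset (Fin n)} {X : Finset ι} {G G' G0 : Cube n → Prop}
    (hL : Loc (ff n F) T a z W Q D D' X G G' G0) {kp : ℕ}
    (hP : Pure (ff n F) z D Q G ϑ kp) (hXk : X.card ≤ k0) (hr1 : kp + Q.card + k0 ≤ r)
    (hr2 : W.card + Q.card + 3 * k0 ≤ r)
    (hgap : ∀ S ⊆ X, eD T a z Q D X G S ≤ θ' ∨ θ ≤ eD T a z Q D X G S)
    (hX : θ ≤ eD T a z Q D X G X) {S1 S2 S0 : Finset ι} (hS2 : S2 ⊆ X) (hS0 : S0 ⊆ X)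
    (h1 : θ ≤ eD T a z Q D X G S1) (h2 : θ ≤ eD T a z Q D' X G' S2)
    (h0 : θ ≤ e0 T a z W (D ∪ D' ∪ W) X G0 S0) (hne : ∃ i, i ∈ S2 ∧ i ∈ S0)
    (hdis : ∀ i, i ∈ S2 → i ∈ S0 → i ∉ S1) :
    ∃ i, i ∈ S2 ∧ i ∈ S0 ∧ ∃ u ∈ pieces r n m K Qc (negs (smp F Xs)),
      ∀ l, l ∈ u ↔ l ∈ litsOf (a i) (T i ∩ D) := by
  classical
  obtain ⟨R, hR, hRne, g1, g0, P, Qp, w, b, hit, r1, r2, r3, r4, hdet, hc, hP', hg0, hN3, hM⟩ :=
    find hK hL hs.ϑ0 hP hs.θ0 hs.θ'0 hgap hX hS2 hS0 h1 h2 h0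
      (by obtain ⟨i, hi, hi'⟩ := hne; exact ⟨i, mem_inter.2 ⟨hi, hi'⟩⟩)
      (by
        rw [Finset.disjoint_left]
        intro i hi
        exact hdis i (mem_inter.1 hi).1 (mem_inter.1 hi).2)
  obtain ⟨i, hi⟩ := hRne
  have hi' := mem_inter.1 (hR hi)
  refine ⟨i, hi'.1, hi'.2, ?_⟩
  have hn1 : (1 : ℝ) ≤ (n : ℝ) + 1 := by
    have : (0 : ℝ) ≤ n := Nat.cast_nonneg n
    linarith
  set p : ℝ := θ / ((n : ℝ) + 1) ^ k0 with hp
  have hp0 : 0 < p := div_pos hs.θ0 (by positivity)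
  have hpX : p ≤ θ / ((n : ℝ) + 1) ^ X.card :=
    div_le_div_of_nonneg_left hs.θ0.le (by positivity) (pow_le_pow_right₀ hn1 hXk)
  have hp1 : p ≤ 1 := (div_le_self hs.θ0.le (one_le_pow₀ hn1)).trans hs.θ1
  have herr : (2 : ℝ) ^ X.card * θ' ≤ 2 ^ k0 * θ' :=
    mul_le_mul_of_nonneg_right (pow_le_pow_right₀ (by norm_num) hXk) hs.θ'0
  have hK0 : (0 : ℝ) ≤ K := Nat.cast_nonneg K
  have hn0 : (0 : ℝ) ≤ n := Nat.cast_nonneg n
  have hN3' : p * ϑ ≤ NN (ff n F) r3 :=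
    (mul_le_mul_of_nonneg_right hpX hs.ϑ0.le).trans hN3
  refine found hD1 hD2 hSz hSub hG hs.m0 hdet (by omega) (by omega) (by omega) (by omega) hp0 hp1
    (hpX.trans hg0) ((pow_le_pow_left₀ hp0.le hpX 3).trans hM) hs.K1 (hs.Kτ.trans hN3')
    (lt_of_lt_of_le (mul_pos hp0 hs.ϑ0) hN3') ((mul_le_mul_of_nonneg_left herr hK0).trans hs.Kerr)
    hs.Kn ?_ hs.Q1 hs.Qm (T i ∩ D) inter_subset_right (a i) (fun v hv x hx => hP' i hi v hv x hx)
  exact (mul_le_mul_of_nonneg_left herr (by positivity)).trans hs.nerr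

theorem comb_pad {P : List (List (ℕ × Bool))} (hP : [] ∈ P) {c : ℕ} {U : List (ℕ × Bool)}
    (h : U ∈ comb P c) : ∀ d, U ∈ comb P (c + d) := by
  intro d
  induction d with
  | zero => exact h
  | succ d ih =>
    rw [← Nat.add_assoc, comb]
    exact List.mem_flatMap.2 ⟨U, ih, List.mem_map.2 ⟨[], hP, by simp⟩⟩

theorem comb_append {P : List (List (ℕ × Bool))} {c : ℕ} {U : List (ℕ × Bool)}
    (h : U ∈ comb P c) : ∀ (d : ℕ) (U' : List (ℕ × Bool)), U' ∈ comb P d →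
    U ++ U' ∈ comb P (c + d) := by
  intro d
  induction d with
  | zero =>
    intro U' h'
    simp only [comb, List.mem_cons, List.not_mem_nil, or_false] at h'
    rw [h', List.append_nil]
    exact h
  | succ d ih =>
    intro U' h'
    rw [comb] at h'
    obtain ⟨V, hV, h'⟩ := List.mem_flatMap.1 h'
    obtain ⟨u, hu, rfl⟩ := List.mem_map.1 h'
    rw [← Nat.add_assoc, comb, ← List.append_assoc]
    exact List.mem_flatMap.2 ⟨U ++ V, ih V hV, List.mem_map.2 ⟨u, hu, rfl⟩⟩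

theorem comb_union {P : List (List (ℕ × Bool))} (Y : Finset ι) (u : ι → List (ℕ × Bool))
    (hu : ∀ i ∈ Y, u i ∈ P) : ∃ U ∈ comb P Y.card, ∀ l, l ∈ U ↔ ∃ i ∈ Y, l ∈ u i := by
  classical
  induction Y using Finset.induction_on with
  | empty => exact ⟨[], by simp [comb], by simp⟩
  | insert i Y hi ih =>
    obtain ⟨U, hU, hU'⟩ := ih fun j hj => hu j (mem_insert_of_mem hj)
    refine ⟨U ++ u i, ?_, fun l => ?_⟩
    · rw [card_insert_of_notMem hi, comb]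
      exact List.mem_flatMap.2 ⟨U, hU, List.mem_map.2 ⟨u i, hu i (mem_insert_self i Y), rfl⟩⟩
    · rw [List.mem_append, hU']
      constructor
      · rintro (⟨j, hj, h⟩ | h)
        · exact ⟨j, mem_insert_of_mem hj, h⟩
        · exact ⟨i, mem_insert_self i Y, h⟩
      · rintro ⟨j, hj, h⟩
        rcases mem_insert.1 hj with rfl | hj
        · exact Or.inr h
        · exact Or.inl ⟨j, hj, h⟩

theorem satL_litsOf (z : Cube n) (A : Finset (Fin n)) (y : Cube n) :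
    satL (UU n (litsOf z A)) y ↔ agr A z y := by
  unfold satL agr
  constructor
  · intro h v hv
    exact h (v, z v) ((mem_UU _ _).2 ((mem_litsOf z A _).2 ⟨v, hv, rfl⟩))
  · intro h l hl
    obtain ⟨v, hv, hvl⟩ := (mem_litsOf z A _).1 ((mem_UU _ _).1 hl)
    rw [Prod.mk.injEq] at hvl
    have : v = l.1 := Fin.ext hvl.1
    subst this
    rw [← hvl.2]
    exact h _ hv

theorem litsOf_vars (z : Cube n) (A : Finset (Fin n)) : ∀ l ∈ litsOf z A, l.1 < n := by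
  intro l hl
  obtain ⟨v, _, rfl⟩ := (mem_litsOf z A _).1 hl
  exact v.2

open Classical in
theorem cover_scale (hK : S_KILL) (hD1 : S_DET1) (hD2 : S_DET2) (hSz : S_SIZE) (hSub : S_SUBS)
    {F : List (List (ℕ × Bool))} {Xs : Fin m → Cube n} {τ : ℝ} (hG : Good Xs (ff n F) τ)
    {T : ι → Finset (Fin n)} {a : ι → Cube n} {r c k0 K Qc : ℕ} {θ θ' ϑ : ℝ}
    (hs : Scl n m r k0 K Qc θ θ' ϑ τ)
    {z : Cube n} {W Q D D' : Finset (Fin n)} {X : Finset ι} {G G' G0 : Cube n → Prop}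
    (hL : Loc (ff n F) T a z W Q D D' X G G' G0) {kp : ℕ}
    (hP : Pure (ff n F) z D Q G ϑ kp) (hP' : Pure (ff n F) z D' Q G' ϑ kp)
    (hXk : X.card ≤ k0) (hr1 : kp + Q.card + k0 ≤ r) (hr2 : W.card + Q.card + 3 * k0 ≤ r)
    (hc : 2 * k0 ≤ c)
    (hgap : ∀ S ⊆ X, eD T a z Q D X G S ≤ θ' ∨ θ ≤ eD T a z Q D X G S)
    (hgap' : ∀ S ⊆ X, eD T a z Q D' X G' S ≤ θ' ∨ θ ≤ eD T a z Q D' X G' S)
    (hgap0 : ∀ S ⊆ X, e0 T a z W (D ∪ D' ∪ W) X G0 S ≤ θ' ∨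
      θ ≤ e0 T a z W (D ∪ D' ∪ W) X G0 S)
    (hX : θ ≤ eD T a z Q D X G X) (hX' : θ ≤ eD T a z Q D' X G' X)
    (hempty : e0 T a z W (D ∪ D' ∪ W) X G0 ∅ ≤ θ')
    (hz : ∀ i ∈ X, agr (T i ∩ D) (a i) z ∧ agr (T i ∩ D') (a i) z) :
    ∃ A ∈ cands3 r c n m K Qc (negs (smp F Xs)), (∀ l ∈ A, l.1 < n) ∧ satL (UU n A) z ∧
      NN (ff n F) (UU n A) ≤ 8 ^ k0 * θ' := by
  classical
  set Ps := pieces r n m K Qc (negs (smp F Xs)) with hPs
  set fnd : Finset (Fin n) → ι → Prop := fun E i => ∃ u ∈ Ps, ∀ l, l ∈ u ↔ l ∈ litsOf (a i) (T i ∩ E)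
    with hfnd
  set Y1 := X.filter fun i => fnd D i with hY1
  set Y2 := X.filter fun i => fnd D' i with hY2
  have hnil : [] ∈ Ps := by rw [hPs]; unfold pieces; exact List.mem_cons_self
  have hY : ∀ (Y : Finset ι) (E : Finset (Fin n)), (∀ i ∈ Y, fnd E i) → Y.card ≤ k0 →
      ∃ U ∈ comb Ps k0, ∀ l, l ∈ U ↔ ∃ i ∈ Y, l ∈ litsOf (a i) (T i ∩ E) := by
    intro Y E hYE hYk
    choose! u hu hu' using hYE
    obtain ⟨U, hU, hU'⟩ := comb_union Y u hu
    refine ⟨U, ?_, fun l => ?_⟩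
    · have := comb_pad hnil hU (k0 - Y.card)
      rwa [Nat.add_sub_cancel' hYk] at this
    · rw [hU']
      exact exists_congr fun i => and_congr_right fun hi => hu' i hi l
  obtain ⟨A1, hA1, hA1'⟩ := hY Y1 D (fun i hi => (mem_filter.1 hi).2)
    ((card_le_card (filter_subset _ _)).trans hXk)
  obtain ⟨A2, hA2, hA2'⟩ := hY Y2 D' (fun i hi => (mem_filter.1 hi).2)
    ((card_le_card (filter_subset _ _)).trans hXk)
  set A := litsOf z (W ∪ Q) ++ (A1 ++ A2) with hA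
  have hAv : ∀ l ∈ A, l.1 < n := by
    intro l hl
    rcases List.mem_append.1 hl with hl | hl
    · exact litsOf_vars z _ l hl
    · rcases List.mem_append.1 hl with hl | hl
      · obtain ⟨i, _, hi⟩ := (hA1' l).1 hl
        exact litsOf_vars _ _ l hi
      · obtain ⟨i, _, hi⟩ := (hA2' l).1 hl
        exact litsOf_vars _ _ l hi
  have hAs : ∀ x, satL (UU n A) x ↔ agr (W ∪ Q) z x ∧ (∀ i ∈ Y1, agr (T i ∩ D) (a i) x) ∧
      ∀ i ∈ Y2, agr (T i ∩ D') (a i) x := by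
    intro x
    have happ : ∀ B B' : List (ℕ × Bool), satL (UU n (B ++ B')) x ↔
        satL (UU n B) x ∧ satL (UU n B') x := by
      intro B B'
      rw [← satL_union]
      have : UU n (B ++ B') = UU n B ∪ UU n B' := by
        ext l; simp only [mem_UU, mem_union, List.mem_append]
      rw [this]
    have hone : ∀ (Y : Finset ι) (E : Finset (Fin n)) (U : List (ℕ × Bool)),
        (∀ l, l ∈ U ↔ ∃ i ∈ Y, l ∈ litsOf (a i) (T i ∩ E)) →
        (satL (UU n U) x ↔ ∀ i ∈ Y, agr (T i ∩ E) (a i) x) := by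
      intro Y E U hU
      constructor
      · intro h i hi
        rw [← satL_litsOf]
        exact fun l hl => h l ((mem_UU _ _).2 ((hU _).2 ⟨i, hi, (mem_UU _ _).1 hl⟩))
      · intro h l hl
        obtain ⟨i, hi, hl'⟩ := (hU _).1 ((mem_UU _ _).1 hl)
        exact (satL_litsOf (a i) (T i ∩ E) x).2 (h i hi) l ((mem_UU _ _).2 hl')
    rw [hA, happ, happ, satL_litsOf, hone Y1 D A1 hA1', hone Y2 D' A2 hA2']
  refine ⟨A, ?_, hAv, ?_, ?_⟩
  · unfold cands3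
    refine List.mem_flatMap.2 ⟨litsOf z (W ∪ Q), ?_, List.mem_map.2 ⟨A1 ++ A2, ?_, rfl⟩⟩
    · refine mem_parts ?_ (litsOf_vars z _)
      rw [length_litsOf]
      have := card_union_le W Q
      omega
    · have h3 := comb_append hA1 k0 A2 hA2
      have h4 := comb_pad hnil h3 (c - (k0 + k0))
      rwa [Nat.add_sub_cancel' (by omega)] at h4
  · rw [hAs]
    exact ⟨fun _ _ => rfl, fun i hi => (hz i (mem_filter.1 hi).1).1,
      fun i hi => (hz i (mem_filter.1 hi).1).2⟩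
  · -- the zeros of `f` which satisfy `A`
    by_contra hbig
    push Not at hbig
    set 𝒯 := (X.powerset ×ˢ X.powerset ×ˢ X.powerset).filter fun S =>
      (∀ i ∈ Y1, i ∈ S.1) ∧ (∀ i ∈ Y2, i ∈ S.2.1) ∧ ∀ i ∈ X, ¬ (i ∈ S.1 ∧ i ∈ S.2.1 ∧ i ∈ S.2.2)
      with h𝒯
    set D0 := D ∪ D' ∪ W with hD0
    have hsub : NN (ff n F) (UU n A) ≤ ∑ S ∈ 𝒯, eD T a z Q D X G S.1 *
        (eD T a z Q D' X G' S.2.1 * e0 T a z W D0 X G0 S.2.2) := by
      unfold NN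
      refine le_trans ?_ ((PP_exists_le 𝒯 (fun S x => ((G x ∧ agr (Q ∩ D) z x) ∧
        ∀ i ∈ X, (agr (T i ∩ D) (a i) x ↔ i ∈ S.1)) ∧ (((G' x ∧ agr (Q ∩ D') z x) ∧
        ∀ i ∈ X, (agr (T i ∩ D') (a i) x ↔ i ∈ S.2.1)) ∧ ((agr W z x ∧ G0 x) ∧
        ∀ i ∈ X, (agr (T i \ D0) (a i) x ↔ i ∈ S.2.2))))).trans (le_of_eq ?_))
      · refine PP_mono fun x hx => ?_
        rw [hAs] at hx
        obtain ⟨hfx, hWQ, hx1, hx2⟩ := hx
        have hW : agr W z x := agr_mono subset_union_left hWQ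
        have hQ : agr Q z x := agr_mono subset_union_right hWQ
        obtain ⟨h3, h4, h5, h6⟩ := (hL.split x hW hQ).1 hfx
        refine ⟨(X.filter fun i => agr (T i ∩ D) (a i) x, X.filter fun i => agr (T i ∩ D') (a i) x,
          X.filter fun i => agr (T i \ D0) (a i) x), ?_, ⟨⟨h3, agr_mono inter_subset_left hQ⟩,
          fun i hi => ?_⟩, ⟨⟨h4, agr_mono inter_subset_left hQ⟩, fun i hi => ?_⟩, ⟨hW, h5⟩,
          fun i hi => ?_⟩
        · rw [h𝒯, mem_filter, mem_product, mem_product, mem_powerset, mem_powerset, mem_powerset]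
          refine ⟨⟨filter_subset _ _, filter_subset _ _, filter_subset _ _⟩, fun i hi => ?_,
            fun i hi => ?_, fun i hi h => ?_⟩
          · exact mem_filter.2 ⟨(mem_filter.1 hi).1, hx1 i hi⟩
          · exact mem_filter.2 ⟨(mem_filter.1 hi).1, hx2 i hi⟩
          · exact h6 i hi ⟨(mem_filter.1 h.1).2, (mem_filter.1 h.2.1).2, (mem_filter.1 h.2.2).2⟩
        · simp only [mem_filter]; exact ⟨fun h => ⟨hi, h⟩, fun h => h.2⟩
        · simp only [mem_filter]; exact ⟨fun h => ⟨hi, h⟩, fun h => h.2⟩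
        · simp only [mem_filter]; exact ⟨fun h => ⟨hi, h⟩, fun h => h.2⟩
      · refine sum_congr rfl fun S _ => ?_
        have d1 : Dep D (fun x => (G x ∧ agr (Q ∩ D) z x) ∧
            ∀ i ∈ X, (agr (T i ∩ D) (a i) x ↔ i ∈ S.1)) := by
          refine Dep.and (hL.depG.and ((dep_agr (Q ∩ D) z).mono inter_subset_right)) ?_
          exact fun x y h => forall₂_congr fun i _ => iff_congr
            (((dep_agr (T i ∩ D) (a i)).mono inter_subset_right) x y h) Iff.rfl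
        have d2 : Dep D' (fun x => (G' x ∧ agr (Q ∩ D') z x) ∧
            ∀ i ∈ X, (agr (T i ∩ D') (a i) x ↔ i ∈ S.2.1)) := by
          refine Dep.and (hL.depG'.and ((dep_agr (Q ∩ D') z).mono inter_subset_right)) ?_
          exact fun x y h => forall₂_congr fun i _ => iff_congr
            (((dep_agr (T i ∩ D') (a i)).mono inter_subset_right) x y h) Iff.rfl
        have d3 : ∀ E : Finset (Fin n), E ⊆ D ∪ D' → Disjoint W E →
            DepC E (fun x => (agr W z x ∧ G0 x) ∧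
            ∀ i ∈ X, (agr (T i \ D0) (a i) x ↔ i ∈ S.2.2)) := by
          intro E hE hWE
          refine DepC.and (DepC.and ((dep_agr W z).toC hWE) (hL.depG0.anti hE)) ?_
          refine fun x y h => forall₂_congr fun i _ => iff_congr
            (((dep_agr (T i \ D0) (a i)).toC ?_) x y h) Iff.rfl
          rw [Finset.disjoint_left]
          intro v hv hv'
          exact (mem_sdiff.1 hv).2 (mem_union_left _ (hE hv'))
        rw [indep D _ _ d1 (DepC.and (d2.toC hL.dDD.symm) (d3 D subset_union_left hL.dWD)),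
          indep D' _ _ d2 (d3 D' subset_union_right hL.dWD')]
        rfl
    -- an admissible triple of noticeable patterns
    obtain ⟨S, hS, hSθ⟩ : ∃ S ∈ 𝒯, θ' < eD T a z Q D X G S.1 *
        (eD T a z Q D' X G' S.2.1 * e0 T a z W D0 X G0 S.2.2) := by
      by_contra hcon
      push Not at hcon
      have h3 := hsub.trans (sum_le_card_nsmul _ _ θ' hcon)
      rw [nsmul_eq_mul] at h3
      have h4 : 𝒯.card ≤ 8 ^ k0 := by
        calc 𝒯.card ≤ (X.powerset ×ˢ X.powerset ×ˢ X.powerset).card :=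
              card_le_card (filter_subset _ _)
          _ = 8 ^ X.card := by
              rw [card_product, card_product, card_powerset, ← pow_add, ← pow_add,
                show (8 : ℕ) = 2 ^ 3 by norm_num, ← pow_mul]
              congr 1
              ring
          _ ≤ 8 ^ k0 := Nat.pow_le_pow_right (by norm_num) hXk
      have h5 : (𝒯.card : ℝ) * θ' ≤ 8 ^ k0 * θ' :=
        mul_le_mul_of_nonneg_right (by exact_mod_cast h4) hs.θ'0
      linarith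
    rw [h𝒯, mem_filter, mem_product, mem_product, mem_powerset, mem_powerset, mem_powerset] at hS
    obtain ⟨⟨hS1, hS2, hS0⟩, hy1, hy2, hadm⟩ := hS
    obtain ⟨S1, S2, S0⟩ := S
    simp only at hS1 hS2 hS0 hy1 hy2 hadm hSθ
    have b1 : eD T a z Q D X G S1 ≤ 1 := PP_le_one _
    have b2 : eD T a z Q D' X G' S2 ≤ 1 := PP_le_one _
    have b3 : e0 T a z W D0 X G0 S0 ≤ 1 := PP_le_one _
    have n1 : 0 ≤ eD T a z Q D X G S1 := PP_nonneg _
    have n2 : 0 ≤ eD T a z Q D' X G' S2 := PP_nonneg _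
    have n3 : 0 ≤ e0 T a z W D0 X G0 S0 := PP_nonneg _
    have hθ'0 := hs.θ'0
    have c1 : θ ≤ eD T a z Q D X G S1 := by
      refine (hgap S1 hS1).resolve_left fun h => ?_
      have : eD T a z Q D X G S1 * (eD T a z Q D' X G' S2 * e0 T a z W D0 X G0 S0) ≤ θ' * 1 :=
        mul_le_mul h (mul_le_one₀ b2 n3 b3) (mul_nonneg n2 n3) hθ'0
      linarith
    have c2 : θ ≤ eD T a z Q D' X G' S2 := by
      refine (hgap' S2 hS2).resolve_left fun h => ?_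
      have h3 : eD T a z Q D' X G' S2 * e0 T a z W D0 X G0 S0 ≤ θ' * 1 :=
        mul_le_mul h b3 n3 hθ'0
      have : eD T a z Q D X G S1 * (eD T a z Q D' X G' S2 * e0 T a z W D0 X G0 S0) ≤ 1 * (θ' * 1) :=
        mul_le_mul b1 h3 (mul_nonneg n2 n3) (by norm_num)
      linarith
    have c3 : θ ≤ e0 T a z W D0 X G0 S0 := by
      refine (hgap0 S0 hS0).resolve_left fun h => ?_
      have h3 : eD T a z Q D' X G' S2 * e0 T a z W D0 X G0 S0 ≤ 1 * θ' :=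
        mul_le_mul b2 h n3 (by norm_num)
      have : eD T a z Q D X G S1 * (eD T a z Q D' X G' S2 * e0 T a z W D0 X G0 S0) ≤ 1 * (1 * θ') :=
        mul_le_mul b1 h3 (mul_nonneg n2 n3) (by norm_num)
      linarith
    have hθθ := hs.θ'1
    have hS0ne : S0.Nonempty := by
      rw [nonempty_iff_ne_empty]
      rintro rfl
      linarith
    by_cases hA' : ∃ i, i ∈ S2 ∧ i ∈ S0
    · obtain ⟨i, hi2, hi0, hi⟩ := side hK hD1 hD2 hSz hSub hG hs hL hP hXk hr1 hr2 hgap hX hS2 hS0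
        c1 c2 c3 hA' (fun i h2 h0 h1 => hadm i (hS1 h1) ⟨h1, h2, h0⟩)
      exact hadm i (hS2 hi2) ⟨hy1 i (mem_filter.2 ⟨hS2 hi2, hi⟩), hi2, hi0⟩
    · by_cases hB' : ∃ i, i ∈ S1 ∧ i ∈ S0
      · have e0s : e0 T a z W (D' ∪ D ∪ W) X G0 S0 = e0 T a z W D0 X G0 S0 := by
          rw [hD0, union_comm D' D]
        obtain ⟨i, hi1, hi0, hi⟩ := side hK hD1 hD2 hSz hSub hG hs hL.symm hP' hXk hr1 hr2 hgap'
          hX' hS1 hS0 c2 c1 (by rw [e0s]; exact c3) hB' (fun i h1 h0 h2 =>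
            hadm i (hS1 h1) ⟨h1, h2, h0⟩)
        exact hadm i (hS1 hi1) ⟨hi1, hy2 i (mem_filter.2 ⟨hS1 hi1, hi⟩), hi0⟩
      · obtain ⟨i, hiX, hi0, hi⟩ := side hK hD1 hD2 hSz hSub hG hs hL hP hXk hr1 hr2 hgap hX
          subset_rfl hS0 c1 hX' c3 (by obtain ⟨i, hi⟩ := hS0ne; exact ⟨i, hS0 hi, hi⟩)
          (fun i _ h0 h1 => hB' ⟨i, h1, h0⟩)
        exact hB' ⟨i, hy1 i (mem_filter.2 ⟨hiX, hi⟩), hi0⟩

end Pool.Agent.Helper91K9.TW
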