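import Pool.Agent.Helper91K9.TW.Stm

/-!
# The two tests
-/

namespace Pool.Agent.Helper91K9.TW

open Finset Pool.Agent.NPC Pool.Agent.Helper91K9.DL

namespace DetL

variable {n : ℕ}

theorem PP_add (A C E F : Cube n → Prop) (h1 : ∀ x, A x → E x) (h2 : ∀ x, C x → E x)
    (h3 : ∀ x, A x → C x → F x) : PP A + PP C ≤ PP E + PP F := by
  classical
  have e1 : PP (fun x => A x ∧ ¬ C x) = PP A - PP (fun x => C x ∧ A x) := PP_and_not A C
  have e2 : PP (fun x => E x ∧ ¬ C x) = PP E - PP (fun x => C x ∧ E x) := PP_and_not E C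
  have e3 : PP (fun x => A x ∧ ¬ C x) ≤ PP (fun x => E x ∧ ¬ C x) :=
    PP_mono fun x hx => ⟨h1 x hx.1, hx.2⟩
  have e4 : PP (fun x => C x ∧ A x) ≤ PP F := PP_mono fun x hx => h3 x hx.2 hx.1
  have e5 : PP (fun x => C x ∧ E x) = PP C := PP_congr fun x => ⟨fun h => h.1, fun h => ⟨h, h2 x h⟩⟩
  linarith

theorem Dep.and {S : Finset (Fin n)} {A B : Cube n → Prop} (hA : Dep S A) (hB : Dep S B) :
    Dep S (fun x => A x ∧ B x) := fun x y h => and_congr (hA x y h) (hB x y h)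

theorem DepC.and {S : Finset (Fin n)} {A B : Cube n → Prop} (hA : DepC S A) (hB : DepC S B) :
    DepC S (fun x => A x ∧ B x) := fun x y h => and_congr (hA x y h) (hB x y h)

theorem prod_in {D : Finset (Fin n)} {g w : Cube n → Prop} (hg : Dep D g) (hw : DepC D w)
    {l : Fin n × Bool} (hl : l.1 ∈ D) :
    PP (fun x => g x ∧ w x ∧ x l.1 = !l.2) = PP (fun x => g x ∧ x l.1 = !l.2) * PP w := by
  have h1 : Dep D (fun x : Cube n => x l.1 = !l.2) := fun x y h => by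
    show (x l.1 = !l.2) ↔ (y l.1 = !l.2)
    rw [h l.1 hl]
  rw [← indep D _ _ (Dep.and hg h1) hw]
  exact PP_congr fun x => by tauto

theorem prod_out {D : Finset (Fin n)} {g w : Cube n → Prop} (hg : Dep D g) (hw : DepC D w)
    {l : Fin n × Bool} (hl : l.1 ∉ D) :
    PP (fun x => g x ∧ w x ∧ x l.1 = !l.2) = PP g * PP (fun x => w x ∧ x l.1 = !l.2) := by
  have h1 : DepC D (fun x : Cube n => x l.1 = !l.2) := fun x y h => by
    show (x l.1 = !l.2) ↔ (y l.1 = !l.2)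
    rw [h l.1 hl]
  rw [← indep D _ _ hg (DepC.and hw h1)]

theorem NN_eq {f : Cube n → Prop} {D : Finset (Fin n)} {g w : Cube n → Prop}
    {r : Finset (Fin n × Bool)} (hg : Dep D g) (hw : DepC D w)
    (h : ∀ x, (¬ f x ∧ satL r x) ↔ (g x ∧ w x)) : NN f r = PP g * PP w := by
  unfold NN
  rw [← indep D _ _ hg hw]
  exact PP_congr h

theorem NL_eq {f : Cube n → Prop} {g w : Cube n → Prop}
    {r : Finset (Fin n × Bool)} (h : ∀ x, (¬ f x ∧ satL r x) ↔ (g x ∧ w x)) (l : Fin n × Bool) :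
    NL f r l = PP (fun x => g x ∧ w x ∧ x l.1 = !l.2) := by
  unfold NL
  refine PP_congr fun x => ?_
  have := h x
  tauto

variable {f : Cube n → Prop} {D : Finset (Fin n)} {g1 g0 P Q w b hit : Cube n → Prop}
  {r1 r2 r3 r4 : Finset (Fin n × Bool)} {err : ℝ}

/-- The relation between the two tests. -/
theorem rel (h : Det f D g1 g0 P Q w b hit r1 r2 r3 r4 err) (l : Fin n × Bool) :
    PP g0 * NN f r3 * (PP (fun x => g1 x ∧ b x ∧ x l.1 = !l.2) - NL f r2 l) =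
      PP g0 * DD1 f r1 r2 r3 r4 l - PP g1 * DD0 f r3 r4 l ∧
    (l.1 ∈ D → DD0 f r3 r4 l = 0 ∧
      DD1 f r1 r2 r3 r4 l = NN f r3 * (PP (fun x => g1 x ∧ b x ∧ x l.1 = !l.2) - NL f r2 l)) := by
  unfold DD1 DD0
  rw [NN_eq h.dg0 h.dw h.h3, NN_eq h.dg0 h.db h.h4, NL_eq h.h1, NL_eq h.h3, NL_eq h.h4]
  by_cases hl : l.1 ∈ D
  · rw [prod_in h.dg1 h.dw hl, prod_in h.dg0 h.dw hl, prod_in h.dg0 h.db hl,
      prod_in h.dg1 h.db hl]
    refine ⟨by ring, fun _ => ⟨by ring, by ring⟩⟩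
  · rw [prod_out h.dg1 h.dw hl, prod_out h.dg0 h.dw hl, prod_out h.dg0 h.db hl,
      prod_out h.dg1 h.db hl]
    refine ⟨by ring, fun h => absurd h hl⟩

theorem X_nonneg (h : Det f D g1 g0 P Q w b hit r1 r2 r3 r4 err) (l : Fin n × Bool) :
    0 ≤ PP (fun x => g1 x ∧ b x ∧ x l.1 = !l.2) - NL f r2 l := by
  have : NL f r2 l ≤ PP (fun x => g1 x ∧ b x ∧ x l.1 = !l.2) := by
    refine PP_mono fun x hx => ?_
    have := h.h2 x ⟨hx.1, hx.2.1⟩
    exact ⟨this.1, this.2, hx.2.2⟩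
  linarith

theorem X_le (h : Det f D g1 g0 P Q w b hit r1 r2 r3 r4 err) (l : Fin n × Bool) :
    PP (fun x => g1 x ∧ b x ∧ x l.1 = !l.2) - NL f r2 l ≤
      PP (fun x => (g1 x ∧ P x) ∧ (b x ∧ hit x) ∧ x l.1 = !l.2) + err := by
  have h1 : PP (fun x => g1 x ∧ b x ∧ x l.1 = !l.2) ≤
      PP (fun x => (¬ f x ∧ satL r2 x ∧ x l.1 = !l.2) ∨
        (((g1 x ∧ P x) ∧ (b x ∧ hit x) ∧ x l.1 = !l.2) ∨ (g1 x ∧ Q x))) := by
    refine PP_mono fun x hx => ?_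
    by_cases hQ : Q x
    · exact Or.inr (Or.inr ⟨hx.1, hQ⟩)
    · have h2 := h.h2' x hQ
      tauto
  have h2 := PP_or_le (fun x => (¬ f x ∧ satL r2 x ∧ x l.1 = !l.2))
    (fun x => ((g1 x ∧ P x) ∧ (b x ∧ hit x) ∧ x l.1 = !l.2) ∨ (g1 x ∧ Q x))
  have h3 := PP_or_le (fun x => ((g1 x ∧ P x) ∧ (b x ∧ hit x) ∧ x l.1 = !l.2))
    (fun x => g1 x ∧ Q x)
  have h4 := h.hQ
  unfold NL
  linarith

theorem le_X (h : Det f D g1 g0 P Q w b hit r1 r2 r3 r4 err) (l : Fin n × Bool) :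
    PP (fun x => (g1 x ∧ P x) ∧ (b x ∧ hit x) ∧ x l.1 = !l.2) ≤
      PP (fun x => g1 x ∧ b x ∧ x l.1 = !l.2) - NL f r2 l + err := by
  have h1 := PP_add (fun x => ¬ f x ∧ satL r2 x ∧ x l.1 = !l.2)
    (fun x => (g1 x ∧ P x) ∧ (b x ∧ hit x) ∧ x l.1 = !l.2)
    (fun x => g1 x ∧ b x ∧ x l.1 = !l.2) (fun x => g1 x ∧ Q x)
    (fun x hx => by
      have := h.h2 x ⟨hx.1, hx.2.1⟩
      exact ⟨this.1, this.2, hx.2.2⟩)
    (fun x hx => ⟨hx.1.1, hx.2.1.1, hx.2.2⟩)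
    (fun x hx hy => by
      by_cases hQ : Q x
      · exact ⟨hy.1.1, hQ⟩
      · have h2 := h.h2' x hQ
        tauto)
  have h4 := h.hQ
  unfold NL
  linarith

end DetL

/-- Leaf DETECT, first part. -/
theorem det1 : S_DET1 := by
  intro n f D g1 g0 P Q w b hit r1 r2 r3 r4 err h l hl hP
  obtain ⟨-, h2⟩ := DetL.rel h l
  obtain ⟨h3, h4⟩ := h2 hl
  refine ⟨?_, h3⟩
  have h5 := DetL.X_nonneg h l
  have h6 := DetL.X_le h l
  have h7 : PP (fun x => (g1 x ∧ P x) ∧ (b x ∧ hit x) ∧ x l.1 = !l.2) ≤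
      PP (fun _ : Cube n => False) := by
    refine PP_mono fun x hx => ?_
    have h8 := hP x hx.1.2
    have h9 := hx.2.2
    rw [h8] at h9
    cases hb : l.2 <;> simp [hb] at h9
  have h8 : PP (fun _ : Cube n => False) = 0 := by
    classical
    rw [PP_eq]
    simp
  have h9 : 0 ≤ NN f r3 := PP_nonneg _
  rw [h4, abs_of_nonneg (mul_nonneg h9 h5), mul_comm]
  exact mul_le_mul_of_nonneg_right (by linarith) h9

/-- Leaf DETECT, second part. -/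
theorem det2 : S_DET2 := by
  intro n f D g1 g0 P Q w b hit r1 r2 r3 r4 err h l
  obtain ⟨h1, -⟩ := DetL.rel h l
  have h5 := DetL.le_X h l
  have h9 : 0 ≤ NN f r3 := PP_nonneg _
  have h10 : 0 ≤ PP g0 := PP_nonneg _
  have h11 : 0 ≤ PP g1 := PP_nonneg _
  have h12 : PP g1 ≤ 1 := PP_le_one _
  have h13 : PP g0 * NN f r3 * PP (fun x => (g1 x ∧ P x) ∧ (b x ∧ hit x) ∧ x l.1 = !l.2) ≤
      PP g0 * NN f r3 * (PP (fun x => g1 x ∧ b x ∧ x l.1 = !l.2) - NL f r2 l + err) :=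
    mul_le_mul_of_nonneg_left h5 (mul_nonneg h10 h9)
  have h14 : PP g0 * DD1 f r1 r2 r3 r4 l ≤ PP g0 * |DD1 f r1 r2 r3 r4 l| :=
    mul_le_mul_of_nonneg_left (le_abs_self _) h10
  have h15 : - (PP g1 * DD0 f r3 r4 l) ≤ |DD0 f r3 r4 l| := by
    have h16 : - (PP g1 * DD0 f r3 r4 l) ≤ PP g1 * |DD0 f r3 r4 l| := by
      have := neg_abs_le (DD0 f r3 r4 l)
      nlinarith
    have h17 : PP g1 * |DD0 f r3 r4 l| ≤ 1 * |DD0 f r3 r4 l| :=
      mul_le_mul_of_nonneg_right h12 (abs_nonneg _)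
    linarith
  nlinarith

end Pool.Agent.Helper91K9.TW
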