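import Pool.Agent.Helper91K9.TW.Stm3

/-!
# Leaf EDGE
-/

namespace Pool.Agent.Helper91K9.TW

open Finset Pool.Agent.Helper91K9.DL

/-- In a tree decomposition, if the top node of `i` lies between the top node of `v` and a node
which contains both, then it contains `v`. -/
theorem walk {K : Finset ℕ} {p : ℕ → ℕ} {P Q : ℕ → Prop}
    (hpar : ∀ k ∈ K, ∀ j ∈ K, j < k → p k ∈ K ∧ p k < k ∧ (P j → P k → P (p k)) ∧
      (Q j → Q k → Q (p k))) {a b : ℕ} (ha : a ∈ K) (hb : b ∈ K) (hPa : P a) (hQb : Q b)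
    (hmin : ∀ k ∈ K, Q k → b ≤ k) (hab : a ≤ b) :
    ∀ k ∈ K, P k → Q k → P b := by
  intro k
  induction k using Nat.strong_induction_on with
  | _ k ih =>
    intro hk hPk hQk
    rcases (hmin k hk hQk).eq_or_lt with h | h
    · rw [h]
      exact hPk
    · obtain ⟨h1, h2, h3, h4⟩ := hpar k hk b hb h
      obtain ⟨_, _, h5, _⟩ := hpar k hk a ha (hab.trans_lt h)
      exact ih _ h2 h1 (h5 hPa hPk) (h4 hQb hQk)

theorem edge : S_EDGE := by
  classical
  intro n ι I T t K p V B h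
  let CI : ι → Finset (Fin n) := fun i =>
    if h : ∃ k, k ∈ K ∧ i ∈ B k then V (Nat.find h) else ∅
  let CV : Fin n → Finset ι := fun v =>
    if h : ∃ k, k ∈ K ∧ v ∈ V k then B (Nat.find h) else ∅
  have hCI : ∀ i, (CI i).card ≤ t := by
    intro i
    by_cases hi : ∃ k, k ∈ K ∧ i ∈ B k
    · simp only [CI, dif_pos hi]
      obtain ⟨h1, h2⟩ := Nat.find_spec hi
      have h3 := h.card _ h1
      have h4 : 1 ≤ (B (Nat.find hi)).card := card_pos.2 ⟨i, h2⟩
      omega
    · simp [CI, dif_neg hi]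
  have hCV : ∀ v, (CV v).card ≤ t := by
    intro v
    by_cases hv : ∃ k, k ∈ K ∧ v ∈ V k
    · simp only [CV, dif_pos hv]
      obtain ⟨h1, h2⟩ := Nat.find_spec hv
      have h3 := h.card _ h1
      have h4 : 1 ≤ (V (Nat.find hv)).card := card_pos.2 ⟨v, h2⟩
      omega
    · simp [CV, dif_neg hv]
  have hsub : ∀ i ∈ I, T i ⊆ CI i ∪ univ.filter fun v => i ∈ CV v := by
    intro i hi v hv
    obtain ⟨k, hk, hvk, hik⟩ := h.cov i hi v hv
    have hI : ∃ k, k ∈ K ∧ i ∈ B k := ⟨k, hk, hik⟩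
    have hV : ∃ k, k ∈ K ∧ v ∈ V k := ⟨k, hk, hvk⟩
    rw [mem_union, mem_filter]
    simp only [CI, CV, dif_pos hI, dif_pos hV, mem_univ, true_and]
    obtain ⟨h1, h2⟩ := Nat.find_spec hI
    obtain ⟨h3, h4⟩ := Nat.find_spec hV
    rcases le_total (Nat.find hV) (Nat.find hI) with hle | hle
    · left
      refine walk (p := p) (P := fun k => v ∈ V k) (Q := fun k => i ∈ B k) (fun k hk j hj hjk => ?_)
        h3 h1 h4 h2 (fun k hk hq => Nat.find_min' hI ⟨hk, hq⟩) hle k hk hvk hik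
      obtain ⟨g1, g2, g3, g4⟩ := h.par k hk j hj hjk
      exact ⟨g1, g2, g3 v, g4 i⟩
    · right
      refine walk (p := p) (P := fun k => i ∈ B k) (Q := fun k => v ∈ V k) (fun k hk j hj hjk => ?_)
        h1 h3 h2 h4 (fun k hk hq => Nat.find_min' hV ⟨hk, hq⟩) hle k hk hik hvk
      obtain ⟨g1, g2, g3, g4⟩ := h.par k hk j hj hjk
      exact ⟨g1, g2, g4 i, g3 v⟩
  have h1 : ∀ i ∈ I, (T i).card ≤ t + ∑ v : Fin n, if i ∈ CV v then 1 else 0 := by
    intro i hi
    refine (card_le_card (hsub i hi)).trans ((card_union_le _ _).trans ?_)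
    rw [card_filter]
    exact Nat.add_le_add_right (hCI i) _
  refine (sum_le_sum h1).trans ?_
  rw [sum_add_distrib, sum_const, smul_eq_mul, sum_comm]
  have h2 : ∀ v : Fin n, (∑ i ∈ I, if i ∈ CV v then 1 else 0) ≤ t := by
    intro v
    rw [← card_filter]
    refine (card_le_card ?_).trans (hCV v)
    intro i hi
    exact (mem_filter.1 hi).2
  have h3 : (∑ v : Fin n, ∑ i ∈ I, if i ∈ CV v then 1 else 0) ≤ n * t := by
    refine (sum_le_sum fun v _ => h2 v).trans ?_
    rw [sum_const, smul_eq_mul, card_univ, Fintype.card_fin]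
  calc I.card * t + ∑ v : Fin n, ∑ i ∈ I, (if i ∈ CV v then 1 else 0) ≤ I.card * t + n * t :=
        Nat.add_le_add_left h3 _
    _ = t * (n + I.card) := by ring

end Pool.Agent.Helper91K9.TW
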