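import Pool.Agent.Helper91K9.TW.Main

/-!
# The family of subcubes of a formula of bounded incidence treewidth
-/

namespace Pool.Agent.Helper91K9.TW

open Finset Pool.Agent.NPC Pool.Agent.H424R2.PPAD Pool.Agent.Helper91K9.DL

open Classical in
/-- The positions of the consistent terms. -/
noncomputable def cons3 (n : ℕ) (F : List (List (ℕ × Bool))) : Finset (Fin F.length) :=
  univ.filter fun i => ∀ v : Fin n, ¬ (((v : ℕ), true) ∈ F.get i ∧ ((v : ℕ), false) ∈ F.get i)

theorem ff_iff3 (n : ℕ) (F : List (List (ℕ × Bool))) (hF : ∀ t ∈ F, ∀ l ∈ t, l.1 < n)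
    (x : Cube n) : ff n F x ↔ ∃ i ∈ cons3 n F, agr (TV n (F.get i)) (AV n (F.get i)) x := by
  classical
  unfold ff dnfVal
  rw [List.any_eq_true]
  constructor
  · rintro ⟨t, ht, h⟩
    obtain ⟨i, rfl⟩ := List.get_of_mem ht
    rw [termVal_iff _ (hF _ ht), satL_iff] at h
    exact ⟨i, by simpa [cons3] using h.2, h.1⟩
  · rintro ⟨i, hi, h⟩
    refine ⟨F.get i, List.get_mem _ _, ?_⟩
    rw [termVal_iff _ (hF _ (List.get_mem _ _)), satL_iff]
    exact ⟨h, by simpa [cons3] using hi⟩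

theorem td_of_width (n t : ℕ) (F : List (List (ℕ × Bool))) (hw : TreeWidthLE t F) :
    ∃ (K : Finset ℕ) (p : ℕ → ℕ) (V : ℕ → Finset (Fin n)) (B : ℕ → Finset (Fin F.length)),
      TD (cons3 n F) (fun i => TV n (F.get i)) t K p V B := by
  classical
  obtain ⟨N, p, V, T, h1, h2, h3⟩ := hw
  refine ⟨range N, p, fun k => univ.filter fun v : Fin n => (v : ℕ) ∈ V k,
    fun k => (cons3 n F).filter fun i => (i : ℕ) ∈ T k, ?_, ?_, ?_, ?_⟩
  · intro k hk
    refine le_trans (add_le_add ?_ ?_) (h1 k (mem_range.1 hk))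
    · exact card_le_card_of_injOn (fun v : Fin n => (v : ℕ)) (fun v hv => by
        simpa using hv) (fun v _ w _ h => Fin.ext h)
    · refine card_le_card_of_injOn (fun i : Fin F.length => (i : ℕ)) (fun i hi => ?_)
        (fun v _ w _ h => Fin.ext h)
      rw [mem_coe, mem_filter] at hi
      exact hi.2
  · intro k _
    exact filter_subset _ _
  · intro k hk j hj hjk
    obtain ⟨h4, h5⟩ := h2 k (mem_range.1 hk) (by omega)
    refine ⟨mem_range.2 (lt_trans h4 (mem_range.1 hk)), h4, fun v hv hv' => ?_,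
      fun i hi hi' => ?_⟩
    · simp only [mem_filter, mem_univ, true_and] at hv hv' ⊢
      exact (h5 j hjk).1 (mem_inter.2 ⟨hv, hv'⟩)
    · rw [mem_filter] at hi hi' ⊢
      exact ⟨hi.1, (h5 j hjk).2 (mem_inter.2 ⟨hi.2, hi'.2⟩)⟩
  · intro i hi v hv
    obtain ⟨s, hs⟩ := (mem_TV _ v).1 hv
    obtain ⟨k, hk, h4, h5⟩ := h3 i (F.get i) (by simp) _ hs
    exact ⟨k, mem_range.2 hk, by simpa using h4, mem_filter.2 ⟨hi, h5⟩⟩

/-- DNF formulas of bounded incidence treewidth are learnable from uniform random examples. -/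
theorem tw_learn_of (hK : S_KILL) (hD1 : S_DET1) (hD2 : S_DET2) (hSz : S_SIZE) (hSub : S_SUBS)
    (hGap : S_GAP) (hCls : S_CLASS) (hSmall : S_SMALL) (hLen : S_LEN) (hT1 : S_TREE1)
    (hT2 : S_TREE2) (hNum : S_NUM) (hPoly : S_POLY3) (t : ℕ) :
    ∃ A : ℕ × List (List Bool × Bool) → List (List (ℕ × Bool)), PTime A ∧ ∃ e : ℕ,
      ∀ (n s a b : ℕ) (F : List (List (ℕ × Bool))), 1 ≤ a → 1 ≤ b → F.length ≤ s →
        (∀ u ∈ F, ∀ l ∈ u, l.1 < n) → TreeWidthLE t F → ∀ m, (n + s + a + b) ^ e ≤ m →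
        Succeeds (fun S => A (s + a, S)) n m F (1 / a) (1 / b) := by
  classical
  obtain ⟨bb, kk, Qe, dd, K', e, hnum⟩ := hNum (t + 1) (by omega)
  refine ⟨learn3 (9 * (t + 1)) (2 * (t + 1))
    ((List.range (3 * 2 ^ (t + 1) + 1)).map fun j => (kk j, Qe j, dd j)),
    PTime.of_poly (hPoly _ _ _), e, fun n s a b F ha hb hFs hFv hw m hm => ?_⟩
  have hal : 1 ≤ s + a := by omega
  obtain ⟨n1, n2, n3, n4, n5, n6⟩ := hnum n (s + a) b m hal hb (by
    have : n + (s + a) + b = n + s + a + b := by ring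
    rw [this]; exact hm)
  have hm0 : 0 < m := (n1 0 (by omega)).m0
  have hq0 : (0 : ℝ) < ((n + (s + a) + 2 : ℕ) : ℝ) := by exact_mod_cast (by omega)
  have hs := samp n m b (ff n F) _ hb (by positivity) n6
  unfold Succeeds
  refine hs.trans (Nat.cast_le.2 (card_le_card fun X hX => ?_))
  · rw [mem_filter] at hX ⊢
    refine ⟨mem_univ _, ?_⟩
    rw [err_eq]
    obtain ⟨K, p, V, B, hTD⟩ := td_of_width n t F hw
    have hI : (cons3 n F).card ≤ s + a := by
      have := card_le_univ (cons3 n F)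
      rw [Fintype.card_fin] at this
      omega
    refine (correct3 hK hD1 hD2 hSz hSub hGap hCls hSmall hLen hT1 hT2 hal hm0 (ff_iff3 n F hFv)
      hI rfl hTD n1 n2 n3 n4 n5 X hX.2).trans ?_
    refine one_div_le_one_div_of_le (by exact_mod_cast ha) ?_
    push_cast
    have : (0 : ℝ) ≤ s := Nat.cast_nonneg s
    linarith

end Pool.Agent.Helper91K9.TW
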