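import Pool.Agent.Helper91K9.TW.Loc

/-!
# Two worlds which differ by a piece of a term
-/

namespace Pool.Agent.Helper91K9.TW

open Finset Pool.Agent.Helper91K9.DL

variable {n : ℕ} {ι : Type}

/-- The mass of the pattern `S` on the side `D`. -/
noncomputable def eD (T : ι → Finset (Fin n)) (a : ι → Cube n) (z : Cube n)
    (Q D : Finset (Fin n)) (X : Finset ι) (G : Cube n → Prop) (S : Finset ι) : ℝ :=
  PP (fun x => (G x ∧ agr (Q ∩ D) z x) ∧ ∀ i ∈ X, (agr (T i ∩ D) (a i) x ↔ i ∈ S))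

/-- The mass of the pattern `S` outside, `D` is the union of the sides and the boundary `W`. -/
noncomputable def e0 (T : ι → Finset (Fin n)) (a : ι → Cube n) (z : Cube n)
    (W D : Finset (Fin n)) (X : Finset ι) (G : Cube n → Prop) (S : Finset ι) : ℝ :=
  PP (fun x => (agr W z x ∧ G x) ∧ ∀ i ∈ X, (agr (T i \ D) (a i) x ↔ i ∈ S))

/-- The literals of `z` on `S`. -/
def lz (z : Cube n) (S : Finset (Fin n)) : Finset (Fin n × Bool) := S.image fun v => (v, z v)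

theorem satL_lz (z : Cube n) (S : Finset (Fin n)) (x : Cube n) : satL (lz z S) x ↔ agr S z x := by
  unfold satL lz agr
  simp

theorem satL_union (E E' : Finset (Fin n × Bool)) (x : Cube n) :
    satL (E ∪ E') x ↔ satL E x ∧ satL E' x := by
  unfold satL
  constructor
  · intro h
    exact ⟨fun l hl => h l (mem_union_left _ hl), fun l hl => h l (mem_union_right _ hl)⟩
  · rintro ⟨h1, h2⟩ l hl
    rcases mem_union.1 hl with h | h
    · exact h1 l h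
    · exact h2 l h

theorem card_lz_le (z : Cube n) (S : Finset (Fin n)) : (lz z S).card ≤ S.card := card_image_le

theorem Dep.and {S : Finset (Fin n)} {A B : Cube n → Prop} (hA : Dep S A) (hB : Dep S B) :
    Dep S (fun x => A x ∧ B x) := fun x y h => and_congr (hA x y h) (hB x y h)

theorem DepC.and {S : Finset (Fin n)} {A B : Cube n → Prop} (hA : DepC S A) (hB : DepC S B) :
    DepC S (fun x => A x ∧ B x) := fun x y h => and_congr (hA x y h) (hB x y h)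

theorem Dep.mono {S S' : Finset (Fin n)} {A : Cube n → Prop} (hA : Dep S A) (h : S ⊆ S') :
    Dep S' A := fun x y h' => hA x y fun v hv => h' v (h hv)

theorem DepC.anti {S S' : Finset (Fin n)} {A : Cube n → Prop} (hA : DepC S' A) (h : S ⊆ S') :
    DepC S A := fun x y h' => hA x y fun v hv => h' v fun hc => hv (h hc)

theorem Dep.toC {S S' : Finset (Fin n)} {A : Cube n → Prop} (hA : Dep S A) (h : Disjoint S S') :
    DepC S' A := fun x y h' => hA x y fun v hv => h' v (Finset.disjoint_left.1 h hv)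

theorem dep_agr (S : Finset (Fin n)) (b : Cube n) : Dep S (agr S b) :=
  fun _ _ h => agr_congr h

theorem dep_satL {E : Finset (Fin n × Bool)} {S : Finset (Fin n)} (h : ∀ l ∈ E, l.1 ∈ S) :
    Dep S (satL E) := fun x y h' => by
  unfold satL
  exact forall₂_congr fun l hl => by rw [h' l.1 (h l hl)]

theorem depC_satL {E : Finset (Fin n × Bool)} {S : Finset (Fin n)} (h : ∀ l ∈ E, l.1 ∉ S) :
    DepC S (satL E) := fun x y h' => by
  unfold satL
  exact forall₂_congr fun l hl => by rw [h' l.1 (h l hl)]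

theorem dep_all {S : Finset (Fin n)} (X : Finset ι) {A : ι → Cube n → Prop}
    (h : ∀ i ∈ X, Dep S (A i)) : Dep S (fun x => ∀ i ∈ X, A i x) :=
  fun x y h' => forall₂_congr fun i hi => h i hi x y h'

theorem depC_ex {S : Finset (Fin n)} (X : Finset ι) {A : ι → Cube n → Prop}
    (h : ∀ i ∈ X, DepC S (A i)) : DepC S (fun x => ∃ i ∈ X, A i x) :=
  fun x y h' => exists_congr fun i => and_congr_right fun hi => h i hi x y h'

/-- A pattern is killed. -/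
theorem kill_pattern (hK : S_KILL) (P : ι → Finset (Fin n)) (a : ι → Cube n) (X S H : Finset ι)
    (hH : H ⊆ X) (hHS : Disjoint H S) (G : Cube n → Prop) (θ : ℝ) (hθ : 0 < θ)
    (h : θ ≤ PP (fun x => G x ∧ ∀ i ∈ X, (agr (P i) (a i) x ↔ i ∈ S))) :
    ∃ E : Finset (Fin n × Bool), E.card ≤ X.card ∧ (∀ i ∈ H, ∃ v ∈ P i, (v, !(a i v)) ∈ E) ∧
    (∀ l ∈ E, ∃ i ∈ H, l.1 ∈ P i) ∧ θ / ((n : ℝ) + 1) ^ X.card ≤
      PP (fun x => (G x ∧ ∀ i ∈ X, (agr (P i) (a i) x ↔ i ∈ S)) ∧ satL E x) := by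
  refine kill' hK H P a _ θ hθ X.card (card_le_card hH) (h.trans (PP_mono fun x hx => ⟨hx, ?_⟩))
  intro i hi hag
  exact Finset.disjoint_left.1 hHS hi ((hx.2 i (hH hi)).1 hag)

open Classical in
theorem find (hK : S_KILL) {f : Cube n → Prop} {T : ι → Finset (Fin n)} {a : ι → Cube n}
    {z : Cube n} {W Q D D' : Finset (Fin n)} {X : Finset ι} {G G' G0 : Cube n → Prop}
    (hL : Loc f T a z W Q D D' X G G' G0) {ϑ : ℝ} (hϑ : 0 < ϑ) {kp : ℕ}
    (hP : Pure f z D Q G ϑ kp) {θ θ' : ℝ} (hθ : 0 < θ) (hθ' : 0 ≤ θ')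
    (hgap : ∀ S ⊆ X, eD T a z Q D X G S ≤ θ' ∨ θ ≤ eD T a z Q D X G S)
    (hX : θ ≤ eD T a z Q D X G X) {S1 S2 S0 : Finset ι} (hS2 : S2 ⊆ X) (hS0 : S0 ⊆ X)
    (h1 : θ ≤ eD T a z Q D X G S1) (h2 : θ ≤ eD T a z Q D' X G' S2)
    (h0 : θ ≤ e0 T a z W (D ∪ D' ∪ W) X G0 S0) (hne : (S2 ∩ S0).Nonempty)
    (hdis : Disjoint (S2 ∩ S0) S1) :
    ∃ R ⊆ S2 ∩ S0, R.Nonempty ∧ ∃ (g1 g0 P Qp w b hit : Cube n → Prop)
      (r1 r2 r3 r4 : Finset (Fin n × Bool)),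
      Det f D g1 g0 P Qp w b hit r1 r2 r3 r4 (2 ^ X.card * θ') ∧
      (r1.card ≤ kp + Q.card + X.card ∧ r2.card ≤ W.card + Q.card + 3 * X.card ∧
        r3.card ≤ kp + Q.card + X.card ∧ r4.card ≤ W.card + Q.card + 3 * X.card) ∧
      (∀ i ∈ R, ∀ v ∈ T i ∩ D, ∀ x, P x → x v = a i v) ∧
      θ / ((n : ℝ) + 1) ^ X.card ≤ PP g0 ∧
      θ / ((n : ℝ) + 1) ^ X.card * ϑ ≤ NN f r3 ∧
      (θ / ((n : ℝ) + 1) ^ X.card) ^ 3 ≤ PP (fun x => (g1 x ∧ P x) ∧ (b x ∧ hit x)) := by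
  classical
  set H := S2 ∩ S0 with hH
  have hHX : H ⊆ X := inter_subset_left.trans hS2
  obtain ⟨V, E, O, hVD, hED, hVE, hO, hpure, hϑO⟩ := hP
  have hn1 : (1 : ℝ) ≤ (n : ℝ) + 1 := by
    have : (0 : ℝ) ≤ n := Nat.cast_nonneg n
    linarith
  set p : ℝ := θ / ((n : ℝ) + 1) ^ X.card with hp
  have hp0 : 0 < p := by positivity
  -- the outer kills
  obtain ⟨E0, hE0c, hE0, hE0l, hE0p⟩ := kill_pattern hK (fun i => T i \ (D ∪ D' ∪ W)) a X S0
    (X \ S0) sdiff_subset sdiff_disjoint _ θ hθ h0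
  -- the kills on the other side
  obtain ⟨E', hE'c, hE', hE'l, hE'p⟩ := kill_pattern hK (fun i => T i ∩ D') a X S2
    (S0 \ S2) (sdiff_subset.trans hS0) sdiff_disjoint _ θ hθ h2
  -- the normalizing kills
  obtain ⟨L0, hL0c, hL0, hL0l, hL0p⟩ := kill_pattern hK (fun i => T i ∩ D) a X S1
    H hHX hdis _ θ hθ h1
  -- the minimal trace
  obtain ⟨Ss, hSs, hmin⟩ := exists_min_image (X.powerset.filter fun S =>
      θ ≤ eD T a z Q D X G S ∧ (S ∩ H).Nonempty) (fun S => (S ∩ H).card)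
    ⟨X, mem_filter.2 ⟨mem_powerset.2 subset_rfl, hX, by
      rw [inter_eq_right.2 hHX]; exact hne⟩⟩
  rw [mem_filter, mem_powerset] at hSs
  obtain ⟨hSsX, hSsθ, hSsne⟩ := hSs
  set R := Ss ∩ H with hR
  have hRH : R ⊆ H := inter_subset_right
  have hRX : R ⊆ X := hRH.trans hHX
  obtain ⟨L1, hL1c, hL1, hL1l, hL1p⟩ := kill_pattern hK (fun i => T i ∩ D) a X Ss
    (H \ R) (sdiff_subset.trans hHX) (by
      rw [Finset.disjoint_left]
      intro i hi hi'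
      rw [mem_sdiff] at hi
      exact hi.2 (mem_inter.2 ⟨hi', hi.1⟩)) _ θ hθ hSsθ
  have hQs : ∀ x, agr Q z x ↔ agr (Q ∩ D) z x ∧ agr (Q ∩ D') z x := by
    intro x
    constructor
    · intro h
      exact ⟨agr_mono inter_subset_left h, agr_mono inter_subset_left h⟩
    · rintro ⟨h3, h4⟩ v hv
      rcases mem_union.1 (hL.QD hv) with h | h
      · exact h3 v (mem_inter.2 ⟨hv, h⟩)
      · exact h4 v (mem_inter.2 ⟨hv, h⟩)
  have hL1D : ∀ l ∈ L1, l.1 ∈ D := fun l hl => by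
    obtain ⟨i, _, hi⟩ := hL1l l hl
    exact (mem_inter.1 hi).2
  have hL0D : ∀ l ∈ L0, l.1 ∈ D := fun l hl => by
    obtain ⟨i, _, hi⟩ := hL0l l hl
    exact (mem_inter.1 hi).2
  have hE'D : ∀ l ∈ E', l.1 ∉ D := fun l hl => by
    obtain ⟨i, _, hi⟩ := hE'l l hl
    exact fun hc => Finset.disjoint_left.1 hL.dDD hc (mem_inter.1 hi).2
  have hE0D : ∀ l ∈ E0, l.1 ∉ D := fun l hl => by
    obtain ⟨i, _, hi⟩ := hE0l l hl
    exact fun hc => (mem_sdiff.1 hi).2 (mem_union_left _ (mem_union_left _ hc))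
  have hgD : Dep D (fun x => G x ∧ agr (Q ∩ D) z x) :=
    hL.depG.and ((dep_agr (Q ∩ D) z).mono inter_subset_right)
  have hsD : ∀ i : ι, Dep D (fun x => agr (T i ∩ D) (a i) x) := fun i =>
    (dep_agr (T i ∩ D) (a i)).mono inter_subset_right
  -- world 2
  have hw2 : ∀ (L : Finset (Fin n × Bool)) (x : Cube n),
      (¬ f x ∧ satL (lz z W ∪ lz z Q ∪ E0 ∪ E' ∪ L) x) ↔
        ((G x ∧ agr (Q ∩ D) z x) ∧ satL L x) ∧
        (((agr W z x ∧ G0 x) ∧ satL E0 x) ∧ ((G' x ∧ agr (Q ∩ D') z x) ∧ satL E' x)) ∧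
        ∀ i ∈ H, ¬ (agr (T i ∩ D) (a i) x ∧ agr (T i ∩ D') (a i) x ∧
          agr (T i \ (D ∪ D' ∪ W)) (a i) x) := by
    intro L x
    rw [satL_union, satL_union, satL_union, satL_union, satL_lz, satL_lz, hQs x]
    constructor
    · rintro ⟨h3, ⟨⟨⟨h4, h5⟩, h6⟩, h7⟩, h8⟩
      obtain ⟨h9, h10, h11, h12⟩ := (hL.split x h4 ((hQs x).2 h5)).1 h3
      exact ⟨⟨⟨h9, h5.1⟩, h8⟩, ⟨⟨⟨h4, h11⟩, h6⟩, ⟨h10, h5.2⟩, h7⟩, fun i hi => h12 i (hHX hi)⟩
    · rintro ⟨⟨⟨h9, h5⟩, h8⟩, ⟨⟨⟨h4, h11⟩, h6⟩, ⟨h10, h5'⟩, h7⟩, h12⟩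
      refine ⟨(hL.split x h4 ((hQs x).2 ⟨h5, h5'⟩)).2 ⟨h9, h10, h11, fun i hi hag => ?_⟩,
        ⟨⟨⟨h4, h5, h5'⟩, h6⟩, h7⟩, h8⟩
      by_cases hi0 : i ∈ S0
      · by_cases hi2 : i ∈ S2
        · exact h12 i (mem_inter.2 ⟨hi2, hi0⟩) hag
        · exact satL_kill h7 (hE' i (mem_sdiff.2 ⟨hi0, hi2⟩)) hag.2.1
      · exact satL_kill h6 (hE0 i (mem_sdiff.2 ⟨hi, hi0⟩)) hag.2.2
  have hw1 : ∀ (L : Finset (Fin n × Bool)) (x : Cube n),
      (¬ f x ∧ satL (lz z V ∪ lz z (Q ∩ D) ∪ E ∪ L) x) ↔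
        ((G x ∧ agr (Q ∩ D) z x) ∧ satL L x) ∧ (agr V z x ∧ satL E x ∧ O x) := by
    intro L x
    rw [satL_union, satL_union, satL_union, satL_lz, satL_lz]
    constructor
    · rintro ⟨h3, ⟨⟨h4, h5⟩, h6⟩, h7⟩
      obtain ⟨h8, h9⟩ := (hpure x h4 h5 h6).1 h3
      exact ⟨⟨⟨h8, h5⟩, h7⟩, h4, h6, h9⟩
    · rintro ⟨⟨⟨h8, h5⟩, h7⟩, h4, h6, h9⟩
      exact ⟨(hpure x h4 h5 h6).2 ⟨h8, h9⟩, ⟨⟨h4, h5⟩, h6⟩, h7⟩
  have hb : DepC D (fun x : Cube n => ((agr W z x ∧ G0 x) ∧ satL E0 x) ∧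
      ((G' x ∧ agr (Q ∩ D') z x) ∧ satL E' x)) := by
    refine DepC.and (DepC.and (DepC.and ?_ ?_) (depC_satL hE0D))
      (DepC.and (DepC.and ?_ ?_) (depC_satL hE'D))
    · exact (dep_agr W z).toC hL.dWD
    · exact hL.depG0.anti subset_union_left
    · exact hL.depG'.toC hL.dDD.symm
    · exact ((dep_agr (Q ∩ D') z).mono inter_subset_right).toC hL.dDD.symm
  have hhit : DepC D (fun x : Cube n => ∃ i ∈ R, agr (T i ∩ D') (a i) x ∧
      agr (T i \ (D ∪ D' ∪ W)) (a i) x) := by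
    refine depC_ex R fun i _ => DepC.and ?_ ?_
    · exact ((dep_agr (T i ∩ D') (a i)).mono inter_subset_right).toC hL.dDD.symm
    · refine (dep_agr (T i \ (D ∪ D' ∪ W)) (a i)).toC ?_
      rw [Finset.disjoint_left]
      intro v hv hv'
      exact (mem_sdiff.1 hv).2 (mem_union_left _ (mem_union_left _ hv'))
  refine ⟨R, hRH, hSsne, fun x => (G x ∧ agr (Q ∩ D) z x) ∧ satL L1 x,
    fun x => (G x ∧ agr (Q ∩ D) z x) ∧ satL L0 x, fun x => ∀ i ∈ R, agr (T i ∩ D) (a i) x,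
    fun x => (∃ i ∈ R, agr (T i ∩ D) (a i) x) ∧ ∃ i ∈ R, ¬ agr (T i ∩ D) (a i) x,
    fun x => agr V z x ∧ satL E x ∧ O x,
    fun x => ((agr W z x ∧ G0 x) ∧ satL E0 x) ∧ ((G' x ∧ agr (Q ∩ D') z x) ∧ satL E' x),
    fun x => ∃ i ∈ R, agr (T i ∩ D') (a i) x ∧ agr (T i \ (D ∪ D' ∪ W)) (a i) x,
    lz z V ∪ lz z (Q ∩ D) ∪ E ∪ L1, lz z W ∪ lz z Q ∪ E0 ∪ E' ∪ L1,
    lz z V ∪ lz z (Q ∩ D) ∪ E ∪ L0, lz z W ∪ lz z Q ∪ E0 ∪ E' ∪ L0, ?_, ?_, ?_, ?_, ?_, ?_⟩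
  · -- the conditions for DETECT
    refine ⟨hgD.and (dep_satL hL1D), hgD.and (dep_satL hL0D), dep_all R fun i _ => hsD i, ?_, ?_,
      hb, hhit, hw1 L1, hw1 L0, ?_, ?_, ?_, ?_⟩
    · intro x y h
      refine and_congr (exists_congr fun i => and_congr_right fun _ => hsD i x y h)
        (exists_congr fun i => and_congr_right fun _ => not_congr (hsD i x y h))
    · exact DepC.and ((dep_agr V z).toC hVD) (DepC.and (depC_satL hED) hO)
    · intro x
      rw [hw2]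
      constructor
      · rintro ⟨h3, h4, _⟩; exact ⟨h3, h4⟩
      · rintro ⟨h3, h4⟩
        exact ⟨h3, h4, fun i hi hag => satL_kill h3.2 (hL0 i hi) hag.1⟩
    · intro x hx
      rw [hw2] at hx
      exact ⟨hx.1, hx.2.1⟩
    · intro x hx
      rw [hw2]
      constructor
      · rintro ⟨h3, h4, h5⟩
        refine ⟨h3, h4, ?_⟩
        rintro ⟨h6, i, hi, h7⟩
        exact h5 i (hRH hi) ⟨h6 i hi, h7⟩
      · rintro ⟨h3, h4, h5⟩
        refine ⟨h3, h4, fun i hi hag => ?_⟩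
        by_cases hiR : i ∈ R
        · refine h5 ⟨fun j hj => ?_, i, hiR, hag.2⟩
          by_contra hc
          exact hx ⟨⟨i, hiR, hag.1⟩, j, hj, hc⟩
        · exact satL_kill h3.2 (hL1 i (mem_sdiff.2 ⟨hi, hiR⟩)) hag.1
    · -- the partial patterns
      set 𝒮 := X.powerset.filter fun S => (S ∩ H).Nonempty ∧ (S ∩ H).card < R.card with h𝒮
      have hsub : PP (fun x => ((G x ∧ agr (Q ∩ D) z x) ∧ satL L1 x) ∧
          ((∃ i ∈ R, agr (T i ∩ D) (a i) x) ∧ ∃ i ∈ R, ¬ agr (T i ∩ D) (a i) x)) ≤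
          PP (fun x => ∃ S ∈ 𝒮, (G x ∧ agr (Q ∩ D) z x) ∧
            ∀ i ∈ X, (agr (T i ∩ D) (a i) x ↔ i ∈ S)) := by
        refine PP_mono fun x hx => ?_
        obtain ⟨⟨h3, h4⟩, ⟨i, hi, h5⟩, j, hj, h6⟩ := hx
        refine ⟨X.filter fun i => agr (T i ∩ D) (a i) x, ?_, h3, fun i hi => ?_⟩
        · rw [h𝒮, mem_filter, mem_powerset]
          refine ⟨filter_subset _ _, ⟨i, mem_inter.2 ⟨mem_filter.2 ⟨hRX hi, h5⟩, hRH hi⟩⟩, ?_⟩
          refine card_lt_card ⟨fun i' hi' => ?_, fun hc => ?_⟩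
          · rw [mem_inter, mem_filter] at hi'
            by_contra hc
            exact satL_kill h4 (hL1 i' (mem_sdiff.2 ⟨hi'.2, hc⟩)) hi'.1.2
          · have := hc hj
            rw [mem_inter, mem_filter] at this
            exact h6 this.1.2
        · rw [mem_filter]
          exact ⟨fun h => ⟨hi, h⟩, fun h => h.2⟩
      refine hsub.trans ((PP_exists_le _ _).trans ?_)
      have h3 : ∀ S ∈ 𝒮, PP (fun x => (G x ∧ agr (Q ∩ D) z x) ∧
          ∀ i ∈ X, (agr (T i ∩ D) (a i) x ↔ i ∈ S)) ≤ θ' := by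
        intro S hS
        rw [h𝒮, mem_filter, mem_powerset] at hS
        rcases hgap S hS.1 with h | h
        · exact h
        · exfalso
          have := hmin S (mem_filter.2 ⟨mem_powerset.2 hS.1, h, hS.2.1⟩)
          omega
      refine (sum_le_card_nsmul _ _ θ' h3).trans ?_
      rw [nsmul_eq_mul]
      refine mul_le_mul_of_nonneg_right ?_ hθ'
      have h5 : 𝒮.card ≤ 2 ^ X.card := by
        rw [← card_powerset]; exact card_le_card (filter_subset _ _)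
      exact_mod_cast h5
  · -- the cardinalities
    have c1 := card_lz_le z V
    have c2 := card_lz_le z (Q ∩ D)
    have c3 := card_lz_le z W
    have c4 := card_lz_le z Q
    have c5 : (Q ∩ D).card ≤ Q.card := card_le_card inter_subset_left
    have c6 : ∀ A B : Finset (Fin n × Bool), (A ∪ B).card ≤ A.card + B.card := card_union_le
    refine ⟨?_, ?_, ?_, ?_⟩
    · have d1 := c6 (lz z V ∪ lz z (Q ∩ D) ∪ E) L1
      have d2 := c6 (lz z V ∪ lz z (Q ∩ D)) E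
      have d3 := c6 (lz z V) (lz z (Q ∩ D))
      omega
    · have d1 := c6 (lz z W ∪ lz z Q ∪ E0 ∪ E') L1
      have d2 := c6 (lz z W ∪ lz z Q ∪ E0) E'
      have d3 := c6 (lz z W ∪ lz z Q) E0
      have d4 := c6 (lz z W) (lz z Q)
      omega
    · have d1 := c6 (lz z V ∪ lz z (Q ∩ D) ∪ E) L0
      have d2 := c6 (lz z V ∪ lz z (Q ∩ D)) E
      have d3 := c6 (lz z V) (lz z (Q ∩ D))
      omega
    · have d1 := c6 (lz z W ∪ lz z Q ∪ E0 ∪ E') L0
      have d2 := c6 (lz z W ∪ lz z Q ∪ E0) E'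
      have d3 := c6 (lz z W ∪ lz z Q) E0
      have d4 := c6 (lz z W) (lz z Q)
      omega
  · intro i hi v hv x hx
    exact hx i hi v hv
  · refine hL0p.trans (PP_mono fun x hx => ⟨hx.1.1, hx.2⟩)
  · unfold NN
    rw [PP_congr (hw1 L0), indep D _ _ (hgD.and (dep_satL hL0D))
      (DepC.and ((dep_agr V z).toC hVD) (DepC.and (depC_satL hED) hO))]
    exact mul_le_mul (hL0p.trans (PP_mono fun x hx => ⟨hx.1.1, hx.2⟩)) hϑO hϑ.le (PP_nonneg _)
  · rw [indep D _ _ ((hgD.and (dep_satL hL1D)).and (dep_all R fun i _ => hsD i))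
      (hb.and hhit)]
    have e1 : p ≤ PP (fun x => ((G x ∧ agr (Q ∩ D) z x) ∧ satL L1 x) ∧
        ∀ i ∈ R, agr (T i ∩ D) (a i) x) := by
      refine hL1p.trans (PP_mono fun x hx => ⟨⟨hx.1.1, hx.2⟩, fun i hi => ?_⟩)
      exact (hx.1.2 i (hRX hi)).2 (mem_inter.1 hi).1
    have e2 : p * p ≤ PP (fun x => (((agr W z x ∧ G0 x) ∧ satL E0 x) ∧
        ((G' x ∧ agr (Q ∩ D') z x) ∧ satL E' x)) ∧
        ∃ i ∈ R, agr (T i ∩ D') (a i) x ∧ agr (T i \ (D ∪ D' ∪ W)) (a i) x) := by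
      have e3 := indep D' (fun x => ((G' x ∧ agr (Q ∩ D') z x) ∧
          ∀ i ∈ X, (agr (T i ∩ D') (a i) x ↔ i ∈ S2)) ∧ satL E' x)
        (fun x => ((agr W z x ∧ G0 x) ∧
          ∀ i ∈ X, (agr (T i \ (D ∪ D' ∪ W)) (a i) x ↔ i ∈ S0)) ∧ satL E0 x)
        (((hL.depG'.and ((dep_agr (Q ∩ D') z).mono inter_subset_right)).and
          (fun x y h => forall₂_congr fun i _ => iff_congr
            (((dep_agr (T i ∩ D') (a i)).mono inter_subset_right) x y h) Iff.rfl :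
            Dep D' fun x => ∀ i ∈ X, (agr (T i ∩ D') (a i) x ↔ i ∈ S2))).and
          (dep_satL fun l hl => by
            obtain ⟨i, _, hi⟩ := hE'l l hl
            exact (mem_inter.1 hi).2))
        (DepC.and (DepC.and (DepC.and ((dep_agr W z).toC hL.dWD')
            (hL.depG0.anti subset_union_right)) (fun x y h => forall₂_congr fun i _ =>
              iff_congr (((dep_agr (T i \ (D ∪ D' ∪ W)) (a i)).toC (by
                rw [Finset.disjoint_left]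
                intro v hv hv'
                exact (mem_sdiff.1 hv).2 (mem_union_left _ (mem_union_right _ hv')))) x y h)
                Iff.rfl)) (depC_satL fun l hl => by
            obtain ⟨i, _, hi⟩ := hE0l l hl
            exact fun hc => (mem_sdiff.1 hi).2 (mem_union_left _ (mem_union_right _ hc))))
      refine (mul_le_mul hE'p hE0p hp0.le (PP_nonneg _)).trans (e3.ge.trans ?_)
      refine PP_mono fun x hx => ?_
      obtain ⟨⟨⟨h3, h4⟩, h5⟩, ⟨h6, h7⟩, h8⟩ := hx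
      refine ⟨⟨⟨h6, h8⟩, h3, h5⟩, ?_⟩
      obtain ⟨i, hi⟩ := hSsne
      have hi' := mem_inter.1 (hRH hi)
      exact ⟨i, hi, (h4 i (hRX hi)).2 hi'.1, (h7 i (hRX hi)).2 hi'.2⟩
    calc p ^ 3 = p * (p * p) := by ring
      _ ≤ _ := mul_le_mul e1 e2 (by positivity) (PP_nonneg _)

end Pool.Agent.Helper91K9.TW
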