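import Pool.Agent.Helper91K9.TW.Stm2

/-!
# Leaf GAP: the pigeonhole principle for the scales
-/

namespace Pool.Agent.Helper91K9.TW

open Finset Pool.Agent.Helper91K9.DL

theorem gap : S_GAP := by
  classical
  intro Vals θ hθ J hJ
  by_contra hcon
  push Not at hcon
  have hanti : Antitone θ := antitone_nat_of_succ_le hθ
  choose! f hf1 hf2 hf3 using hcon
  have h1 : J ≤ Vals.card := by
    have h2 : (range J).card ≤ Vals.card := by
      refine card_le_card_of_injOn f (fun j hj => ?_) ?_
      · exact mem_coe.2 (hf1 j (mem_range.1 (mem_coe.1 hj)))
      · intro i hi j hj hij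
        have hi' := mem_range.1 (mem_coe.1 hi)
        have hj' := mem_range.1 (mem_coe.1 hj)
        rcases lt_trichotomy i j with h | h | h
        · have h3 := hanti (Nat.succ_le_of_lt h)
          have h4 := hf3 j hj'
          have h5 := hf2 i hi'
          rw [hij] at h5
          exact absurd (h4.trans_le h3) (not_lt.2 h5.le)
        · exact h
        · have h3 := hanti (Nat.succ_le_of_lt h)
          have h4 := hf3 i hi'
          have h5 := hf2 j hj'
          rw [← hij] at h5
          exact absurd (h4.trans_le h3) (not_lt.2 h5.le)
    simpa using h2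
  omega

end Pool.Agent.Helper91K9.TW
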