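import Pool.Agent.Helper91K9.TW.Stm

/-!
# Leaf KILL: some choice of killing literals has large probability
-/

namespace Pool.Agent.Helper91K9.TW

open Finset Pool.Agent.NPC Pool.Agent.Helper91K9.DL

theorem kill : S_KILL := by
  classical
  intro n ι H P a G θ hθ h
  induction H using Finset.induction_on generalizing G θ with
  | empty =>
    refine ⟨∅, le_rfl, by simp, by simp, ?_⟩
    rw [card_empty, pow_zero, div_one]
    refine h.trans (PP_mono fun x hx => ⟨hx.1, ?_⟩)
    intro l hl
    simp at hl
  | insert i H hi ih =>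
    set Ev : Fin n → Cube n → Prop := fun v x => (G x ∧ x v = !(a i v)) ∧
      ∀ j ∈ H, ¬ agr (P j) (a j) x with hEv
    have h1 : θ ≤ ∑ v ∈ P i, PP (Ev v) := by
      refine h.trans ((PP_mono ?_).trans (PP_exists_le (P i) Ev))
      rintro x ⟨hG, hx⟩
      have h2 := hx i (mem_insert_self i H)
      unfold agr at h2
      push Not at h2
      obtain ⟨v, hv, hne⟩ := h2
      refine ⟨v, hv, ⟨hG, ?_⟩, fun j hj => hx j (mem_insert_of_mem hj)⟩
      cases h3 : x v <;> cases h4 : a i v <;> simp_all
    have hcard : 0 < (P i).card := by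
      rw [Finset.card_pos]
      by_contra hne
      rw [not_nonempty_iff_eq_empty] at hne
      rw [hne, sum_empty] at h1
      linarith
    have hn : (0 : ℝ) < n := by
      have h2 : (P i).card ≤ n := by
        simpa using card_le_univ (P i)
      exact_mod_cast lt_of_lt_of_le hcard h2
    have h3 : ∃ v ∈ P i, θ / n ≤ PP (Ev v) := by
      by_contra hcon
      push Not at hcon
      have hne : (P i).Nonempty := Finset.card_pos.1 hcard
      have h4 : ∑ v ∈ P i, PP (Ev v) < ∑ v ∈ P i, θ / n := sum_lt_sum_of_nonempty hne hcon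
      rw [sum_const, nsmul_eq_mul] at h4
      have h5 : ((P i).card : ℝ) ≤ n := by
        exact_mod_cast (by simpa using card_le_univ (P i) : (P i).card ≤ n)
      have h6 : ((P i).card : ℝ) * (θ / n) ≤ n * (θ / n) :=
        mul_le_mul_of_nonneg_right h5 (by positivity)
      rw [mul_div_cancel₀ _ hn.ne'] at h6
      linarith
    obtain ⟨v, hv, h4⟩ := h3
    obtain ⟨E, hE1, hE2, hE3, hE4⟩ := ih (G := fun x => G x ∧ x v = !(a i v)) (θ := θ / n)
      (by positivity) h4
    refine ⟨insert (v, !(a i v)) E, ?_, ?_, ?_, ?_⟩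
    · rw [card_insert_of_notMem hi]
      exact (card_insert_le _ _).trans (by omega)
    · intro j hj
      rcases mem_insert.1 hj with rfl | hj
      · exact ⟨v, hv, mem_insert_self _ _⟩
      · obtain ⟨w, hw, hwE⟩ := hE2 j hj
        exact ⟨w, hw, mem_insert_of_mem hwE⟩
    · intro l hl
      rcases mem_insert.1 hl with rfl | hl
      · exact ⟨i, mem_insert_self _ _, hv⟩
      · obtain ⟨j, hj, hjl⟩ := hE3 l hl
        exact ⟨j, mem_insert_of_mem hj, hjl⟩
    · rw [card_insert_of_notMem hi, pow_succ', ← div_div]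
      refine hE4.trans (PP_mono ?_)
      rintro x ⟨⟨hG, hxv⟩, hs⟩
      refine ⟨hG, ?_⟩
      intro l hl
      rcases mem_insert.1 hl with rfl | hl
      · exact hxv
      · exact hs l hl

end Pool.Agent.Helper91K9.TW
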