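import Pool.Agent.Helper91K9.TW.Stm

/-!
# Leaf SUBS: the enumeration of the sublists
-/

namespace Pool.Agent.Helper91K9.TW

open Finset Pool.Agent.NPC Pool.Agent.Helper91K9.DL

namespace Subs

theorem len (M Q : ℕ) (C : List (ℕ × Bool)) (cur : List (List (ℕ × Bool)))
    (h : cur.length ≤ max 1 Q) : (C.foldl (subStep M Q) cur).length ≤ max 1 Q := by
  induction C generalizing cur with
  | nil => exact h
  | cons a C ih =>
    rw [List.foldl_cons]
    refine ih _ ?_
    unfold subStep
    split_ifs with hc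
    · exact h
    · rw [List.length_append, List.length_map]
      omega

theorem mem (M Q : ℕ) (C : List (ℕ × Bool)) (cur : List (List (ℕ × Bool))) (S : ℕ × Bool → Prop)
    (hC : ∀ l ∈ C, S l) (h : ∀ u ∈ cur, ∀ l ∈ u, S l) :
    ∀ u ∈ C.foldl (subStep M Q) cur, ∀ l ∈ u, S l := by
  induction C generalizing cur with
  | nil => exact h
  | cons a C ih =>
    rw [List.foldl_cons]
    refine ih _ (fun l hl => hC l (List.mem_cons_of_mem _ hl)) ?_
    unfold subStep
    split_ifs with hc
    · exact h
    · intro u hu l hl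
      rw [List.mem_append, List.mem_map] at hu
      rcases hu with hu | ⟨u', hu', rfl⟩
      · exact h u hu l hl
      · rcases List.mem_cons.1 hl with rfl | hl
        · exact hC _ List.mem_cons_self
        · exact h u' hu' l hl

theorem ex (M Q : ℕ) (p : ℕ × Bool → Bool) (C : List (ℕ × Bool))
    (cur : List (List (ℕ × Bool))) (hM : cur.length * 2 ^ C.length ≤ M)
    (hQ : cur.length * 2 ^ C.length ≤ Q) (u0 : List (ℕ × Bool)) (hu0 : u0 ∈ cur) :
    ∃ u ∈ C.foldl (subStep M Q) cur, ∀ l, l ∈ u ↔ l ∈ u0 ∨ (l ∈ C ∧ p l = true) := by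
  induction C generalizing cur u0 with
  | nil => exact ⟨u0, hu0, fun l => by simp⟩
  | cons a C ih =>
    rw [List.foldl_cons]
    rw [List.length_cons, pow_succ] at hM hQ
    have h1 : 1 ≤ 2 ^ C.length := Nat.one_le_two_pow
    have h2 : 2 * cur.length ≤ cur.length * (2 ^ C.length * 2) := by nlinarith
    have h3 : subStep M Q cur a = cur ++ cur.map (a :: ·) := by
      unfold subStep
      rw [if_neg]
      push Not
      exact ⟨h2.trans hM, h2.trans hQ⟩
    rw [h3]
    have hlen : (cur ++ cur.map (a :: ·)).length = 2 * cur.length := by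
      rw [List.length_append, List.length_map]
      omega
    have hM' : (cur ++ cur.map (a :: ·)).length * 2 ^ C.length ≤ M := by
      rw [hlen]
      refine le_trans (le_of_eq ?_) hM
      ring
    have hQ' : (cur ++ cur.map (a :: ·)).length * 2 ^ C.length ≤ Q := by
      rw [hlen]
      refine le_trans (le_of_eq ?_) hQ
      ring
    by_cases hp : p a = true
    · obtain ⟨u, hu, hul⟩ := ih _ hM' hQ' (a :: u0) (List.mem_append.2 (Or.inr
        (List.mem_map.2 ⟨u0, hu0, rfl⟩)))
      refine ⟨u, hu, fun l => ?_⟩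
      rw [hul, List.mem_cons, List.mem_cons]
      constructor
      · rintro ((rfl | h) | h)
        · exact Or.inr ⟨Or.inl rfl, hp⟩
        · exact Or.inl h
        · exact Or.inr ⟨Or.inr h.1, h.2⟩
      · rintro (h | ⟨rfl | h, h'⟩)
        · exact Or.inl (Or.inr h)
        · exact Or.inl (Or.inl rfl)
        · exact Or.inr ⟨h, h'⟩
    · obtain ⟨u, hu, hul⟩ := ih _ hM' hQ' u0 (List.mem_append.2 (Or.inl hu0))
      refine ⟨u, hu, fun l => ?_⟩
      rw [hul, List.mem_cons]
      constructor
      · rintro (h | h)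
        · exact Or.inl h
        · exact Or.inr ⟨Or.inr h.1, h.2⟩
      · rintro (h | ⟨rfl | h, h'⟩)
        · exact Or.inl h
        · exact absurd h' hp
        · exact Or.inr ⟨h, h'⟩

end Subs

theorem subs_ok : S_SUBS := by
  refine ⟨fun M Q C => ?_, fun M Q C => ?_, fun M Q C p hM hQ => ?_⟩
  · exact Subs.len M Q C [[]] (by simp)
  · exact Subs.mem M Q C [[]] (fun l => l ∈ C) (fun l hl => hl) (by simp)
  · obtain ⟨u, hu, h⟩ := Subs.ex M Q p C [[]] (by simpa using hM) (by simpa using hQ) []
      (by simp)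
    exact ⟨u, hu, fun l => by rw [h]; simp⟩

end Pool.Agent.Helper91K9.TW
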