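import Pool.Agent.Helper91K9.TW.Stm2
import Pool.Agent.Helper91K9.TW.Subs
import Pool.Agent.Helper91K9.DL.Parts

/-!
# Leaf LEN: the number of candidates and their variables
-/

namespace Pool.Agent.Helper91K9.TW

open Finset Pool.Agent.Helper91K9.DL

namespace LenL

theorem length_flatMap_le {α β : Type} (L : List α) (f : α → List β) {b : ℕ}
    (h : ∀ x ∈ L, (f x).length ≤ b) : (L.flatMap f).length ≤ L.length * b := by
  induction L with
  | nil => simp
  | cons x L ih =>
    rw [List.flatMap_cons, List.length_append, List.length_cons, add_mul, one_mul]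
    have h1 := h x List.mem_cons_self
    have h2 := ih fun y hy => h y (List.mem_cons_of_mem _ hy)
    omega

theorem length_comb (P : List (List (ℕ × Bool))) (c : ℕ) : (comb P c).length ≤ P.length ^ c := by
  induction c with
  | zero => simp [comb]
  | succ c ih =>
    unfold comb
    refine (length_flatMap_le _ _ (b := P.length) fun u _ => ?_).trans ?_
    · rw [List.length_map]
    · rw [pow_succ]
      exact Nat.mul_le_mul_right _ ih

theorem comb_vars {n : ℕ} {P : List (List (ℕ × Bool))} (h : ∀ u ∈ P, ∀ l ∈ u, l.1 < n) (c : ℕ) :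
    ∀ u ∈ comb P c, ∀ l ∈ u, l.1 < n := by
  induction c with
  | zero =>
    intro u hu l hl
    simp only [comb, List.mem_singleton] at hu
    rw [hu] at hl
    simp at hl
  | succ c ih =>
    intro u hu l hl
    unfold comb at hu
    rw [List.mem_flatMap] at hu
    obtain ⟨u1, hu1, hu2⟩ := hu
    rw [List.mem_map] at hu2
    obtain ⟨u2, hu2, rfl⟩ := hu2
    rcases List.mem_append.1 hl with hl | hl
    · exact ih u1 hu1 l hl
    · exact h u2 hu2 l hl

theorem length_pieces (r n m K Q : ℕ) (neg : List (List Bool)) :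
    (pieces r n m K Q neg).length ≤ 1 + (2 * n + 1) ^ (4 * r) * max 1 Q := by
  unfold pieces
  rw [List.length_cons, add_comm]
  refine Nat.add_le_add_left ?_ 1
  have h4 : ∀ r1 r2 r3 : List (ℕ × Bool), ((parts n r).flatMap fun r4 =>
      subs m Q ((lits n).filter (forced m K neg r1 r2 r3 r4))).length ≤
      (2 * n + 1) ^ r * max 1 Q := by
    intro r1 r2 r3
    rw [← length_parts n r]
    exact length_flatMap_le _ _ fun r4 _ => subs_ok.1 _ _ _
  have h3 : ∀ r1 r2 : List (ℕ × Bool), ((parts n r).flatMap fun r3 => (parts n r).flatMap fun r4 =>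
      subs m Q ((lits n).filter (forced m K neg r1 r2 r3 r4))).length ≤
      (2 * n + 1) ^ r * ((2 * n + 1) ^ r * max 1 Q) := by
    intro r1 r2
    refine (length_flatMap_le _ _ fun r3 _ => h4 r1 r2 r3).trans ?_
    rw [length_parts n r]
  have h2 : ∀ r1 : List (ℕ × Bool), ((parts n r).flatMap fun r2 => (parts n r).flatMap fun r3 =>
      (parts n r).flatMap fun r4 =>
      subs m Q ((lits n).filter (forced m K neg r1 r2 r3 r4))).length ≤
      (2 * n + 1) ^ r * ((2 * n + 1) ^ r * ((2 * n + 1) ^ r * max 1 Q)) := by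
    intro r1
    refine (length_flatMap_le _ _ fun r2 _ => h3 r1 r2).trans ?_
    rw [length_parts n r]
  refine (length_flatMap_le _ _ fun r1 _ => h2 r1).trans ?_
  rw [length_parts n r]
  refine le_of_eq ?_
  rw [show 4 * r = r + (r + (r + r)) by ring, pow_add, pow_add, pow_add]
  ring

theorem pieces_vars (r n m K Q : ℕ) (neg : List (List Bool)) :
    ∀ u ∈ pieces r n m K Q neg, ∀ l ∈ u, l.1 < n := by
  intro u hu l hl
  unfold pieces at hu
  rcases List.mem_cons.1 hu with rfl | hu
  · simp at hl
  rw [List.mem_flatMap] at hu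
  obtain ⟨r1, -, hu⟩ := hu
  rw [List.mem_flatMap] at hu
  obtain ⟨r2, -, hu⟩ := hu
  rw [List.mem_flatMap] at hu
  obtain ⟨r3, -, hu⟩ := hu
  rw [List.mem_flatMap] at hu
  obtain ⟨r4, -, hu⟩ := hu
  have h1 := subs_ok.2.1 _ _ _ u hu l hl
  rw [List.mem_filter] at h1
  exact mem_lits.1 h1.1

end LenL

open LenL in
theorem len : S_LEN := by
  intro r c n m K Q neg
  refine ⟨?_, ?_⟩
  · unfold cands3
    rw [← length_parts n r]
    refine length_flatMap_le _ _ fun β _ => ?_
    rw [List.length_map]
    exact (length_comb _ _).trans (Nat.pow_le_pow_left (length_pieces r n m K Q neg) c)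
  · intro A hA l hl
    unfold cands3 at hA
    rw [List.mem_flatMap] at hA
    obtain ⟨β, hβ, hA⟩ := hA
    rw [List.mem_map] at hA
    obtain ⟨u, hu, rfl⟩ := hA
    rcases List.mem_append.1 hl with hl | hl
    · exact parts_vars hβ l hl
    · exact comb_vars (pieces_vars r n m K Q neg) c u hu l hl

end Pool.Agent.Helper91K9.TW
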