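import Pool.Agent.Helper91K9.TW.Stm2

/-!
# The choice of the parameters
-/

namespace Pool.Agent.Helper91K9.TW

open Finset Pool.Agent.Helper91K9.DL

namespace NumL

/-- The exponents of the scales. -/
def bq (k0 : ℕ) : ℕ → ℕ
  | 0 => 11 * k0 + 3
  | j + 1 => (19 * k0 + 5 + 2 * k0 * (72 * k0 + (3 * bq k0 j + 3 * k0 + 1) + 1)) +
      (4 * bq k0 j + 4 * k0 + 5) + 4 * k0 + 8

def kq (k0 j : ℕ) : ℕ := 4 * bq k0 j + 4 * k0 + 5
def qz (k0 j : ℕ) : ℕ := 3 * bq k0 j + 3 * k0 + 1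
def dq (k0 j : ℕ) : ℕ := 19 * k0 + 5 + 2 * k0 * (72 * k0 + qz k0 j + 1)

theorem bq_succ (k0 j : ℕ) : bq k0 (j + 1) = dq k0 j + kq k0 j + 4 * k0 + 8 := rfl

theorem bq_mono (k0 : ℕ) : Monotone (bq k0) := by
  refine monotone_nat_of_le_succ fun j => ?_
  rw [bq_succ, kq]
  omega

section real

variable {x : ℝ}

theorem mul_od_le {p c : ℝ} {b : ℕ} (hx : 0 < x) (h : p ≤ c * x ^ b) : p * (1 / x ^ b) ≤ c := by
  rw [mul_one_div, div_le_iff₀ (by positivity)]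
  exact h

theorem scl {n a m d k0 j J K' e : ℕ} (ha : 1 ≤ a) (hd : 1 ≤ d)
    (hm : (n + a + d) ^ e ≤ m) (hj : j < J) (hK : K' = 3 + 3 * bq k0 J + 3 * k0)
    (he : e = 4 * K' + 6) :
    Scl n m (9 * k0) k0 ((n + a + 2) ^ kq k0 j) ((n + a + 2) ^ qz k0 j)
      (1 / ((n + a + 2 : ℕ) : ℝ) ^ bq k0 j) (1 / ((n + a + 2 : ℕ) : ℝ) ^ bq k0 (j + 1))
      (1 / ((n + a + 2 : ℕ) : ℝ) ^ bq k0 J / (2 * ((n : ℝ) + 1)) ^ k0)
      (1 / ((n + a + 2 : ℕ) : ℝ) ^ K') := by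
  have hbJ : bq k0 (j + 1) ≤ bq k0 J := bq_mono k0 hj
  have hs := bq_succ k0 j
  have hkq : kq k0 j = 4 * bq k0 j + 4 * k0 + 5 := rfl
  have hqq : qz k0 j = 3 * bq k0 j + 3 * k0 + 1 := rfl
  obtain ⟨x, hx⟩ : ∃ x : ℝ, x = ((n + a + 2 : ℕ) : ℝ) := ⟨_, rfl⟩
  have hn0 : (0 : ℝ) ≤ n := Nat.cast_nonneg n
  have ha1 : (1 : ℝ) ≤ a := by exact_mod_cast ha
  have hxe : x = (n : ℝ) + a + 2 := by rw [hx]; push_cast; ring
  have hx3 : 3 ≤ x := by rw [hxe]; linarith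
  have hx0 : 0 < x := by linarith
  have hx1 : 1 ≤ x := by linarith
  have hx2 : 2 ≤ x := by linarith
  have hnx : (n : ℝ) ≤ x := by rw [hxe]; linarith
  have hn1x : (n : ℝ) + 1 ≤ x := by rw [hxe]; linarith
  have hpow : ∀ i j : ℕ, i ≤ j → x ^ i ≤ x ^ j := fun i j h => pow_le_pow_right₀ hx1 h
  have h2k : (2 : ℝ) ^ k0 ≤ x ^ k0 := pow_le_pow_left₀ (by norm_num) hx2 _
  -- y
  obtain ⟨y, hy⟩ : ∃ y : ℝ, y = x ^ bq k0 j * ((n : ℝ) + 1) ^ k0 := ⟨_, rfl⟩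
  have hy0 : 0 < y := by rw [hy]; positivity
  have hyx : y ≤ x ^ (bq k0 j + k0) := by
    rw [hy, pow_add]
    exact mul_le_mul_of_nonneg_left (pow_le_pow_left₀ (by positivity) hn1x _) (by positivity)
  have hyy : 1 / x ^ bq k0 j / ((n : ℝ) + 1) ^ k0 = 1 / y := by
    rw [hy, div_div]
  -- w
  obtain ⟨w, hw⟩ : ∃ w : ℝ, w = x ^ bq k0 J * (2 * ((n : ℝ) + 1)) ^ k0 := ⟨_, rfl⟩
  have hw0 : 0 < w := by rw [hw]; positivity
  have hwx : w ≤ x ^ (bq k0 J + 2 * k0) := by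
    rw [hw, pow_add, pow_mul]
    refine mul_le_mul_of_nonneg_left (pow_le_pow_left₀ (by positivity) ?_ _) (by positivity)
    nlinarith
  have hww : 1 / x ^ bq k0 J / (2 * ((n : ℝ) + 1)) ^ k0 = 1 / w := by
    rw [hw, div_div]
  rw [← hx]
  have hqm : (n + a + 2) ^ qz k0 j ≤ m := by
    have h1 : n + a + 2 ≤ (n + a + d) ^ 2 := by nlinarith
    calc (n + a + 2) ^ qz k0 j ≤ ((n + a + d) ^ 2) ^ qz k0 j := Nat.pow_le_pow_left h1 _
      _ = (n + a + d) ^ (2 * qz k0 j) := by rw [pow_mul]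
      _ ≤ (n + a + d) ^ e := Nat.pow_le_pow_right (by omega) (by rw [he, hK]; omega)
      _ ≤ m := hm
  refine ⟨by positivity, ?_, by positivity, ?_, ?_, Nat.one_le_pow _ _ (by omega), ?_, ?_, ?_, ?_,
    hqm, ?_, ?_⟩
  · rw [div_le_one (by positivity)]
    exact one_le_pow₀ hx1
  · apply one_div_lt_one_div_of_lt (by positivity)
    exact pow_lt_pow_right₀ (by linarith) (by omega)
  · rw [hww]; positivity
  · rw [Nat.cast_pow, ← hx, ← mul_assoc]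
    apply mul_od_le hx0
    have h1 : x ^ kq k0 j * 2 ^ k0 * 2 ≤ x ^ kq k0 j * x ^ k0 * x := by
      have := mul_le_mul (mul_le_mul_of_nonneg_left h2k (by positivity : 0 ≤ x ^ kq k0 j)) hx2
        (by norm_num) (by positivity)
      exact this
    have h2 : x ^ kq k0 j * x ^ k0 * x = x ^ (kq k0 j + k0 + 1) := by ring
    have h3 := hpow (kq k0 j + k0 + 1) (bq k0 (j + 1)) (by omega)
    linarith
  · rw [hyy, Nat.cast_pow, ← hx, one_div, inv_pow, ← div_eq_mul_inv, le_div_iff₀ (by positivity)]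
    have h1 : 64 * (n : ℝ) * y ^ 4 ≤ x ^ 4 * x * (x ^ (bq k0 j + k0)) ^ 4 := by
      have h64 : (64 : ℝ) ≤ x ^ 4 := by
        have : (3 : ℝ) ^ 4 ≤ x ^ 4 := pow_le_pow_left₀ (by norm_num) hx3 _
        norm_num at this
        linarith
      have h2 : y ^ 4 ≤ (x ^ (bq k0 j + k0)) ^ 4 := pow_le_pow_left₀ hy0.le hyx _
      have h3 : 64 * (n : ℝ) ≤ x ^ 4 * x := mul_le_mul h64 hnx hn0 (by positivity)
      exact mul_le_mul h3 h2 (by positivity) (by positivity)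
    have h2 : x ^ 4 * x * (x ^ (bq k0 j + k0)) ^ 4 = x ^ kq k0 j := by
      rw [hkq, ← pow_mul, ← pow_succ, ← pow_add]
      congr 1
      ring
    linarith
  · rw [hyy, ← mul_assoc]
    have e1 : (1 / y) ^ 3 = 1 / y ^ 3 := by rw [one_div, one_div, inv_pow]
    rw [e1]
    apply mul_od_le hx0
    rw [one_div, ← div_eq_inv_mul, le_div_iff₀ (by positivity)]
    have h1 : 16 * (n : ℝ) * 2 ^ k0 * y ^ 3 ≤ x ^ 3 * x * x ^ k0 * (x ^ (bq k0 j + k0)) ^ 3 := by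
      have h64 : (16 : ℝ) ≤ x ^ 3 := by
        have : (3 : ℝ) ^ 3 ≤ x ^ 3 := pow_le_pow_left₀ (by norm_num) hx3 _
        norm_num at this
        linarith
      have h2 : y ^ 3 ≤ (x ^ (bq k0 j + k0)) ^ 3 := pow_le_pow_left₀ hy0.le hyx _
      have h3 : 16 * (n : ℝ) ≤ x ^ 3 * x := mul_le_mul h64 hnx hn0 (by positivity)
      have h4 : 16 * (n : ℝ) * 2 ^ k0 ≤ x ^ 3 * x * x ^ k0 :=
        mul_le_mul h3 h2k (by positivity) (by positivity)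
      exact mul_le_mul h4 h2 (by positivity) (by positivity)
    have h2 : x ^ 3 * x * x ^ k0 * (x ^ (bq k0 j + k0)) ^ 3
        = x ^ (4 + k0 + 3 * (bq k0 j + k0)) := by
      rw [← pow_mul, ← pow_succ, ← pow_add, ← pow_add]
      congr 1
      ring
    have h3 := hpow (4 + k0 + 3 * (bq k0 j + k0)) (bq k0 (j + 1)) (by omega)
    linarith
  · rw [hyy, Nat.cast_pow, ← hx, one_div, inv_pow, ← div_eq_mul_inv, le_div_iff₀ (by positivity)]
    have h2 : y ^ 3 ≤ (x ^ (bq k0 j + k0)) ^ 3 := pow_le_pow_left₀ hy0.le hyx _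
    have h3 : 2 * y ^ 3 ≤ x * (x ^ (bq k0 j + k0)) ^ 3 :=
      mul_le_mul hx2 h2 (by positivity) (by positivity)
    have h4 : x * (x ^ (bq k0 j + k0)) ^ 3 = x ^ qz k0 j := by
      rw [hqq, ← pow_mul, ← pow_succ']
      congr 1
      ring
    linarith
  · rw [hyy, hww, Nat.cast_pow, ← hx]
    apply mul_od_le hx0
    have e1 : 1 / y * (1 / w) * x ^ K' = x ^ K' / (y * w) := by field_simp
    rw [e1, le_div_iff₀ (by positivity)]
    have h16 : (16 : ℝ) ≤ x ^ 3 := by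
      have : (3 : ℝ) ^ 3 ≤ x ^ 3 := pow_le_pow_left₀ (by norm_num) hx3 _
      norm_num at this
      linarith
    have h2 : 16 * x ^ kq k0 j ≤ x ^ 3 * x ^ kq k0 j :=
      mul_le_mul_of_nonneg_right h16 (by positivity)
    have h3 : y * w ≤ x ^ (bq k0 j + k0) * x ^ (bq k0 J + 2 * k0) :=
      mul_le_mul hyx hwx hw0.le (by positivity)
    have h4 : 16 * x ^ kq k0 j * (y * w)
        ≤ x ^ 3 * x ^ kq k0 j * (x ^ (bq k0 j + k0) * x ^ (bq k0 J + 2 * k0)) :=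
      mul_le_mul h2 h3 (by positivity) (by positivity)
    have h5 : x ^ 3 * x ^ kq k0 j * (x ^ (bq k0 j + k0) * x ^ (bq k0 J + 2 * k0))
        = x ^ (3 + kq k0 j + ((bq k0 j + k0) + (bq k0 J + 2 * k0))) := by
      rw [← pow_add, ← pow_add, ← pow_add]
    have h6 := hpow (3 + kq k0 j + ((bq k0 j + k0) + (bq k0 J + 2 * k0))) K'
      (by rw [hK]; omega)
    linarith
  · exact lt_of_lt_of_le (Nat.pow_pos (by omega)) hm

end real

end NumL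

open NumL

/-- Leaf NUM. -/
theorem num : S_NUM := by
  intro k0 hk0
  obtain ⟨J, hJ⟩ : ∃ J : ℕ, J = 3 * 2 ^ k0 + 1 := ⟨_, rfl⟩
  rw [← hJ]
  obtain ⟨K', hK⟩ : ∃ K', K' = 3 + 3 * bq k0 J + 3 * k0 := ⟨_, rfl⟩
  obtain ⟨e, he⟩ : ∃ e, e = 4 * K' + 6 := ⟨_, rfl⟩
  refine ⟨bq k0, kq k0, qz k0, dq k0, K', e, ?_⟩
  intro n a d m ha hd hm
  obtain ⟨x, hx⟩ : ∃ x : ℝ, x = ((n + a + 2 : ℕ) : ℝ) := ⟨_, rfl⟩
  have hn0 : (0 : ℝ) ≤ n := Nat.cast_nonneg n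
  have ha1 : (1 : ℝ) ≤ a := by exact_mod_cast ha
  have hd1 : (1 : ℝ) ≤ d := by exact_mod_cast hd
  have hxe : x = (n : ℝ) + a + 2 := by rw [hx]; push_cast; ring
  have hx3 : 3 ≤ x := by rw [hxe]; linarith
  have hx0 : 0 < x := by linarith
  have hx1 : 1 ≤ x := by linarith
  have hx2 : 2 ≤ x := by linarith
  have hn1x : (n : ℝ) + 1 ≤ x := by rw [hxe]; linarith
  have hax : (a : ℝ) ≤ x := by rw [hxe]; linarith
  have hpow : ∀ i j : ℕ, i ≤ j → x ^ i ≤ x ^ j := fun i j h => pow_le_pow_right₀ hx1 h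
  have h2k : (2 : ℝ) ^ k0 ≤ x ^ k0 := pow_le_pow_left₀ (by norm_num) hx2 _
  have h8k : (8 : ℝ) ^ k0 ≤ x ^ (2 * k0) := by
    rw [pow_mul]
    exact pow_le_pow_left₀ (by norm_num) (by nlinarith) _
  have hbJ : ∀ j, j < J → bq k0 (j + 1) ≤ bq k0 J := fun j hj => bq_mono k0 hj
  refine ⟨fun j hj => scl ha hd hm hj hK he, fun j => bq_mono k0 (Nat.le_succ j), ?_, ?_, ?_, ?_⟩
  · rw [← hx]
    have h1 : ((n : ℝ) + a + 1) * ((n + 1) ^ (4 * k0) * (2 ^ k0 * (2 ^ (6 * k0) *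
        (1 / x ^ bq k0 0)))) = (((n : ℝ) + a + 1) * (n + 1) ^ (4 * k0) * 2 ^ k0 * 2 ^ (6 * k0)) *
        (1 / x ^ bq k0 0) := by ring
    rw [h1]
    apply mul_od_le hx0
    rw [one_div, ← div_eq_inv_mul, le_div_iff₀ (by positivity)]
    have e1 : (n : ℝ) + a + 1 ≤ x := by rw [hxe]; linarith
    have e2 : ((n : ℝ) + 1) ^ (4 * k0) ≤ x ^ (4 * k0) := pow_le_pow_left₀ (by positivity) hn1x _
    have e3 : (2 : ℝ) ^ (6 * k0) ≤ x ^ (6 * k0) := pow_le_pow_left₀ (by norm_num) hx2 _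
    have e4 : 2 * (a : ℝ) ≤ x * x := mul_le_mul hx2 hax (by linarith) hx0.le
    have e5 : ((n : ℝ) + a + 1) * (n + 1) ^ (4 * k0) * 2 ^ k0 * 2 ^ (6 * k0) * (2 * a)
        ≤ x * x ^ (4 * k0) * x ^ k0 * x ^ (6 * k0) * (x * x) := by
      gcongr
    have e6 : x * x ^ (4 * k0) * x ^ k0 * x ^ (6 * k0) * (x * x) = x ^ bq k0 0 := by
      have : bq k0 0 = 1 + 4 * k0 + k0 + 6 * k0 + 2 := by
        show 11 * k0 + 3 = _
        ring
      rw [this]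
      ring
    linarith
  · intro j hj
    rw [← hx]
    have hs := bq_succ k0 j
    have h1 := hbJ j hj
    rw [mul_add, ← mul_assoc]
    have e1 : x ^ dq k0 j * 8 ^ k0 * (1 / x ^ bq k0 (j + 1)) ≤ 1 / 2 := by
      apply mul_od_le hx0
      have h2 : x ^ dq k0 j * 8 ^ k0 * 2 ≤ x ^ dq k0 j * x ^ (2 * k0) * x := by gcongr
      have h3 : x ^ dq k0 j * x ^ (2 * k0) * x = x ^ (dq k0 j + 2 * k0 + 1) := by ring
      have h4 := hpow (dq k0 j + 2 * k0 + 1) (bq k0 (j + 1)) (by omega)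
      linarith
    have e2 : x ^ dq k0 j * (1 / x ^ K') ≤ 1 / 2 := by
      apply mul_od_le hx0
      have h2 : x ^ dq k0 j * 2 ≤ x ^ dq k0 j * x := by gcongr
      have h3 : x ^ dq k0 j * x = x ^ (dq k0 j + 1) := by ring
      have h4 := hpow (dq k0 j + 1) K' (by rw [hK]; omega)
      linarith
    linarith
  · intro j hj
    rw [← hx]
    have hs := bq_succ k0 j
    have h1 := hbJ j hj
    have hdK : dq k0 j ≤ K' := by rw [hK]; omega
    have e1 : 1 / x ^ dq k0 j + 1 / x ^ K' ≤ 2 * (1 / x ^ dq k0 j) := by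
      have : 1 / x ^ K' ≤ 1 / x ^ dq k0 j := one_div_le_one_div_of_le (by positivity)
        (hpow _ _ hdK)
      linarith
    have hq1 : (1 : ℕ) ≤ (n + a + 2) ^ qz k0 j := Nat.one_le_pow _ _ (by omega)
    rw [max_eq_right hq1]
    push_cast
    have hxe' : (n : ℝ) + a + 2 = x := hxe.symm
    rw [hxe']
    have e2 : 2 * (n : ℝ) + 1 ≤ x ^ 2 := by nlinarith
    have e3 : (2 * (n : ℝ) + 1) ^ (9 * k0) ≤ x ^ (18 * k0) := by
      have : x ^ (18 * k0) = (x ^ 2) ^ (9 * k0) := by rw [← pow_mul]; congr 1; ring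
      rw [this]
      exact pow_le_pow_left₀ (by positivity) e2 _
    have e4 : (2 * (n : ℝ) + 1) ^ (4 * (9 * k0)) ≤ x ^ (72 * k0) := by
      have : x ^ (72 * k0) = (x ^ 2) ^ (4 * (9 * k0)) := by rw [← pow_mul]; congr 1; ring
      rw [this]
      exact pow_le_pow_left₀ (by positivity) e2 _
    have e5 : 1 + (2 * (n : ℝ) + 1) ^ (4 * (9 * k0)) * x ^ qz k0 j
        ≤ x ^ (72 * k0 + qz k0 j + 1) := by
      have h2 : (2 * (n : ℝ) + 1) ^ (4 * (9 * k0)) * x ^ qz k0 j ≤ x ^ (72 * k0 + qz k0 j) := by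
        rw [pow_add]
        gcongr
      have h3 : 1 ≤ x ^ (72 * k0 + qz k0 j) := one_le_pow₀ hx1
      have h4 : x ^ (72 * k0 + qz k0 j) * 2 ≤ x ^ (72 * k0 + qz k0 j) * x := by gcongr
      have h5 : x ^ (72 * k0 + qz k0 j + 1) = x ^ (72 * k0 + qz k0 j) * x := pow_succ _ _
      linarith
    have e6 : (1 + (2 * (n : ℝ) + 1) ^ (4 * (9 * k0)) * x ^ qz k0 j) ^ (2 * k0)
        ≤ x ^ (2 * k0 * (72 * k0 + qz k0 j + 1)) := by
      have : x ^ (2 * k0 * (72 * k0 + qz k0 j + 1)) = (x ^ (72 * k0 + qz k0 j + 1)) ^ (2 * k0) := by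
        rw [← pow_mul]; congr 1; ring
      rw [this]
      exact pow_le_pow_left₀ (by positivity) e5 _
    have e7 : ((J : ℕ) : ℝ) ≤ x ^ (k0 + 2) := by
      have h2 : (J : ℝ) ≤ 4 * 2 ^ k0 := by
        rw [hJ]
        push_cast
        have : (1 : ℝ) ≤ 2 ^ k0 := one_le_pow₀ (by norm_num)
        linarith
      have h3 : (4 : ℝ) ≤ x ^ 2 := by nlinarith
      have h4 : (4 : ℝ) * 2 ^ k0 ≤ x ^ 2 * x ^ k0 := by gcongr
      have h5 : x ^ (k0 + 2) = x ^ 2 * x ^ k0 := by rw [add_comm, pow_add]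
      linarith
    have e8 : 2 * (a : ℝ) ≤ x * x := mul_le_mul hx2 hax (by linarith) hx0.le
    have e9 : ((J : ℕ) : ℝ) * ((2 * (n : ℝ) + 1) ^ (9 * k0) *
        (1 + (2 * (n : ℝ) + 1) ^ (4 * (9 * k0)) * x ^ qz k0 j) ^ (2 * k0)) *
        (1 / x ^ dq k0 j + 1 / x ^ K') ≤ ((J : ℕ) : ℝ) * ((2 * (n : ℝ) + 1) ^ (9 * k0) *
        (1 + (2 * (n : ℝ) + 1) ^ (4 * (9 * k0)) * x ^ qz k0 j) ^ (2 * k0)) *
        (2 * (1 / x ^ dq k0 j)) := by gcongr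
    refine e9.trans ?_
    have e10 : ((J : ℕ) : ℝ) * ((2 * (n : ℝ) + 1) ^ (9 * k0) *
        (1 + (2 * (n : ℝ) + 1) ^ (4 * (9 * k0)) * x ^ qz k0 j) ^ (2 * k0)) *
        (2 * (1 / x ^ dq k0 j)) = (((J : ℕ) : ℝ) * ((2 * (n : ℝ) + 1) ^ (9 * k0) *
        (1 + (2 * (n : ℝ) + 1) ^ (4 * (9 * k0)) * x ^ qz k0 j) ^ (2 * k0)) * 2) *
        (1 / x ^ dq k0 j) := by ring
    rw [e10]
    apply mul_od_le hx0
    rw [one_div, ← div_eq_inv_mul, le_div_iff₀ (by positivity)]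
    have e11 : ((J : ℕ) : ℝ) * ((2 * (n : ℝ) + 1) ^ (9 * k0) *
        (1 + (2 * (n : ℝ) + 1) ^ (4 * (9 * k0)) * x ^ qz k0 j) ^ (2 * k0)) * 2 * (2 * a)
        ≤ x ^ (k0 + 2) * (x ^ (18 * k0) * x ^ (2 * k0 * (72 * k0 + qz k0 j + 1))) * x *
          (x * x) := by gcongr
    have e12 : x ^ (k0 + 2) * (x ^ (18 * k0) * x ^ (2 * k0 * (72 * k0 + qz k0 j + 1))) * x *
        (x * x) = x ^ dq k0 j := by
      have h2 : dq k0 j = (k0 + 2) + (18 * k0 + 2 * k0 * (72 * k0 + qz k0 j + 1)) + 1 + 2 := by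
        unfold dq
        ring
      have h3 : x * x = x ^ 2 := by ring
      rw [h2, h3, ← pow_add, ← pow_add, ← pow_succ, ← pow_add]
    linarith
  · rw [← hx]
    have hN : (2 : ℝ) ≤ (n : ℝ) + a + d := by linarith
    have hmr : ((n : ℝ) + a + d) ^ e ≤ m := by exact_mod_cast hm
    obtain ⟨N, hNe⟩ : ∃ N : ℝ, N = (n : ℝ) + a + d := ⟨_, rfl⟩
    rw [← hNe] at hN hmr
    have hxN : x ≤ N ^ 2 := by
      rw [hxe, hNe]
      nlinarith
    have h1 : (8 : ℝ) ≤ N ^ 3 := by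
      have : (2 : ℝ) ^ 3 ≤ N ^ 3 := pow_le_pow_left₀ (by norm_num) hN _
      norm_num at this
      linarith
    have h2 : 3 * (n : ℝ) + 2 * d ≤ N ^ 3 := by
      have h3 : 3 * (n : ℝ) + 2 * d ≤ 3 * N := by rw [hNe]; linarith
      have h4 : 3 * N ≤ N ^ 3 := by nlinarith
      linarith
    have h5 : x ^ (2 * K') ≤ N ^ (4 * K') := by
      have : N ^ (4 * K') = (N ^ 2) ^ (2 * K') := by rw [← pow_mul]; congr 1; ring
      rw [this]
      exact pow_le_pow_left₀ hx0.le hxN _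
    have h6 : (m : ℝ) * (1 / x ^ K') ^ 2 = m / x ^ (2 * K') := by
      rw [one_div, inv_pow, ← pow_mul, mul_comm K' 2, div_eq_mul_inv]
    rw [h6, le_div_iff₀ (by positivity)]
    have h7 : 8 * (3 * (n : ℝ) + 2 * d) * x ^ (2 * K') ≤ N ^ 3 * N ^ 3 * N ^ (4 * K') := by
      gcongr
    have h8 : N ^ 3 * N ^ 3 * N ^ (4 * K') = N ^ e := by
      rw [he, ← pow_add, ← pow_add]
      congr 1
      ring
    linarith

end Pool.Agent.Helper91K9.TW
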