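import Pool.Agent.Helper91K9.TW.Defs
import Pool.Agent.Helper91K9.DL.Indep
import Pool.Agent.Helper91K9.DL.Link
import Pool.Agent.H424R2.PPAD.Defs

/-!
# Statements of the leaves: DNF formulas of bounded incidence treewidth
-/

namespace Pool.Agent.Helper91K9.TW

open Finset Pool.Agent.NPC Pool.Agent.Helper91K9.DL

/-- Leaf POLY3: the algorithm runs in polynomial time (`r`, `c`, `es` are constants). -/
def S_POLY3 : Prop := ∀ (r c : ℕ) (es : List (ℕ × ℕ × ℕ)), Poly (learn3 r c es)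

/-- The event `A` depends only on the coordinates in `S`. -/
def Dep {n : ℕ} (S : Finset (Fin n)) (A : Cube n → Prop) : Prop :=
  ∀ x y, (∀ v ∈ S, x v = y v) → (A x ↔ A y)

/-- The event `A` does not depend on the coordinates in `S`. -/
def DepC {n : ℕ} (S : Finset (Fin n)) (A : Cube n → Prop) : Prop :=
  ∀ x y, (∀ v, v ∉ S → x v = y v) → (A x ↔ A y)

/-- The point which is `z` on `U` and `x` elsewhere. -/
def mix {n : ℕ} (U : Finset (Fin n)) (z x : Cube n) : Cube n := fun v => if v ∈ U then z v else x v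

/-- Leaf KILL: some choice of killing literals has large probability. -/
def S_KILL : Prop := ∀ (n : ℕ) (ι : Type) (H : Finset ι) (P : ι → Finset (Fin n))
  (a : ι → Cube n) (G : Cube n → Prop) (θ : ℝ), 0 < θ →
  θ ≤ PP (fun x => G x ∧ ∀ i ∈ H, ¬ agr (P i) (a i) x) →
  ∃ E : Finset (Fin n × Bool), E.card ≤ H.card ∧ (∀ i ∈ H, ∃ v ∈ P i, (v, !(a i v)) ∈ E) ∧
    (∀ l ∈ E, ∃ i ∈ H, l.1 ∈ P i) ∧ θ / (n : ℝ) ^ H.card ≤ PP (fun x => G x ∧ satL E x)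

/-- The mass of the zeros of `f` in the world `r`. -/
noncomputable def NN {n : ℕ} (f : Cube n → Prop) (r : Finset (Fin n × Bool)) : ℝ :=
  PP (fun x => ¬ f x ∧ satL r x)

/-- The mass of the zeros of `f` in the world `r` which falsify the literal `l`. -/
noncomputable def NL {n : ℕ} (f : Cube n → Prop) (r : Finset (Fin n × Bool)) (l : Fin n × Bool) :
    ℝ := PP (fun x => ¬ f x ∧ satL r x ∧ x l.1 = !l.2)

/-- The hypotheses of DETECT: `D` is the side, `g1` and `g0` are the zeros of the inner terms in the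
two worlds of the side, `P` is the piece, the rest is `w` in the pure world and `b` in the other
one, where `hit` says that the piece is critical. -/
structure Det {n : ℕ} (f : Cube n → Prop) (D : Finset (Fin n))
    (g1 g0 P Q w b hit : Cube n → Prop) (r1 r2 r3 r4 : Finset (Fin n × Bool)) (err : ℝ) : Prop where
  dg1 : Dep D g1
  dg0 : Dep D g0
  dP : Dep D P
  dQ : Dep D Q
  dw : DepC D w
  db : DepC D b
  dhit : DepC D hit
  h1 : ∀ x, (¬ f x ∧ satL r1 x) ↔ (g1 x ∧ w x)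
  h3 : ∀ x, (¬ f x ∧ satL r3 x) ↔ (g0 x ∧ w x)
  h4 : ∀ x, (¬ f x ∧ satL r4 x) ↔ (g0 x ∧ b x)
  h2 : ∀ x, ¬ f x ∧ satL r2 x → g1 x ∧ b x
  h2' : ∀ x, ¬ Q x → ((¬ f x ∧ satL r2 x) ↔ (g1 x ∧ b x ∧ ¬ (P x ∧ hit x)))
  hQ : PP (fun x => g1 x ∧ Q x) ≤ err

/-- The first test. -/
noncomputable def DD1 {n : ℕ} (f : Cube n → Prop) (r1 r2 r3 r4 : Finset (Fin n × Bool))
    (l : Fin n × Bool) : ℝ := NL f r1 l * NN f r4 - NL f r2 l * NN f r3

/-- The second test. -/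
noncomputable def DD0 {n : ℕ} (f : Cube n → Prop) (r3 r4 : Finset (Fin n × Bool))
    (l : Fin n × Bool) : ℝ := NL f r3 l * NN f r4 - NL f r4 l * NN f r3

/-- Leaf DETECT, first part: the literals of the piece pass the tests. -/
def S_DET1 : Prop := ∀ (n : ℕ) (f : Cube n → Prop) (D : Finset (Fin n))
  (g1 g0 P Q w b hit : Cube n → Prop) (r1 r2 r3 r4 : Finset (Fin n × Bool)) (err : ℝ),
  Det f D g1 g0 P Q w b hit r1 r2 r3 r4 err → ∀ l : Fin n × Bool, l.1 ∈ D →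
  (∀ x, P x → x l.1 = l.2) →
  |DD1 f r1 r2 r3 r4 l| ≤ err * NN f r3 ∧ DD0 f r3 r4 l = 0

/-- Leaf DETECT, second part: a literal which passes the tests is almost forced. -/
def S_DET2 : Prop := ∀ (n : ℕ) (f : Cube n → Prop) (D : Finset (Fin n))
  (g1 g0 P Q w b hit : Cube n → Prop) (r1 r2 r3 r4 : Finset (Fin n × Bool)) (err : ℝ),
  Det f D g1 g0 P Q w b hit r1 r2 r3 r4 err → ∀ l : Fin n × Bool,
  PP g0 * NN f r3 * PP (fun x => (g1 x ∧ P x) ∧ (b x ∧ hit x) ∧ x l.1 = !l.2) ≤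
    PP g0 * |DD1 f r1 r2 r3 r4 l| + |DD0 f r3 r4 l| + PP g0 * err * NN f r3

/-- Leaf SIZE: few literals are almost forced. -/
def S_SIZE : Prop := ∀ (n : ℕ) (M : Cube n → Prop) (C : Finset (Fin n × Bool)), 0 < PP M →
  (∀ l ∈ C, 8 * (n : ℝ) * PP (fun x => M x ∧ x l.1 = !l.2) ≤ PP M) →
  (2 : ℝ) ^ C.card * PP M ≤ 2

/-- Leaf SUBS: the enumeration of the sublists. -/
def S_SUBS : Prop := (∀ (M Q : ℕ) (C : List (ℕ × Bool)), (subs M Q C).length ≤ max 1 Q) ∧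
  (∀ (M Q : ℕ) (C : List (ℕ × Bool)), ∀ u ∈ subs M Q C, ∀ l ∈ u, l ∈ C) ∧
  ∀ (M Q : ℕ) (C : List (ℕ × Bool)) (p : ℕ × Bool → Bool), 2 ^ C.length ≤ M → 2 ^ C.length ≤ Q →
    ∃ u ∈ subs M Q C, ∀ l, l ∈ u ↔ l ∈ C ∧ p l = true

/-- The separation properties at a node and one of its children. -/
structure Sep {n : ℕ} {ι : Type} (I : Finset ι) (T : ι → Finset (Fin n)) (t : ℕ)
    (U1 V1 : Finset (Fin n)) (B1 : Finset ι) (U2 V2 : Finset (Fin n)) (B2 : Finset ι) : Prop where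
  sub1 : V1 ⊆ U1
  sub2 : V2 ⊆ U2
  inter : U1 ∩ U2 ⊆ V1 ∩ V2
  card1 : V1.card + B1.card ≤ t + 1
  card2 : V2.card + B2.card ≤ t + 1
  subB1 : B1 ⊆ I
  subB2 : B2 ⊆ I
  t1 : ∀ i ∈ I, i ∉ B1 → T i ⊆ U1 ∨ Disjoint (T i) (U1 \ V1)
  t2 : ∀ i ∈ I, i ∉ B2 → T i ⊆ U2 ∨ Disjoint (T i) (U2 \ V2)
  b21 : ∀ i ∈ B2, i ∉ B1 → T i ⊆ U2
  b12 : ∀ i ∈ B1, i ∉ B2 → Disjoint (T i) (U2 \ V2)

/-- The family `T i`, `i ∈ I`, of terms has a tree decomposition with nodes in `K`. -/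
structure TD {n : ℕ} {ι : Type} (I : Finset ι) (T : ι → Finset (Fin n)) (t : ℕ)
    (K : Finset ℕ) (p : ℕ → ℕ) (V : ℕ → Finset (Fin n)) (B : ℕ → Finset ι) : Prop where
  card : ∀ k ∈ K, (V k).card + (B k).card ≤ t + 1
  subB : ∀ k ∈ K, B k ⊆ I
  par : ∀ k ∈ K, ∀ j ∈ K, j < k → p k ∈ K ∧ p k < k ∧ (∀ v, v ∈ V j → v ∈ V k → v ∈ V (p k)) ∧
    ∀ i, i ∈ B j → i ∈ B k → i ∈ B (p k)
  cov : ∀ i ∈ I, ∀ v ∈ T i, ∃ k ∈ K, v ∈ V k ∧ i ∈ B k

/-- Leaf TREE, first part: few nodes suffice. -/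
def S_TREE1 : Prop := ∀ (n : ℕ) (ι : Type) (I : Finset ι) (T : ι → Finset (Fin n)) (t : ℕ)
  (K : Finset ℕ) (p : ℕ → ℕ) (V : ℕ → Finset (Fin n)) (B : ℕ → Finset ι), TD I T t K p V B →
  ∃ K' p', K'.card ≤ n + I.card + 1 ∧ TD I T t K' p' V B

/-- Leaf TREE, second part: the sets of variables which are obtained from the bags by merging. -/
def S_TREE2 : Prop := ∀ (n : ℕ) (ι : Type) (I : Finset ι) (T : ι → Finset (Fin n)) (t : ℕ)
  (K : Finset ℕ) (p : ℕ → ℕ) (V : ℕ → Finset (Fin n)) (B : ℕ → Finset ι), TD I T t K p V B →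
  ∃ (U1 V1 : ℕ → Finset (Fin n)) (B1 : ℕ → Finset ι) (U2 V2 : ℕ → Finset (Fin n))
    (B2 : ℕ → Finset ι) (U : Finset (Fin n)),
    (∀ k ∈ K, Sep I T t (U1 k) (V1 k) (B1 k) (U2 k) (V2 k) (B2 k)) ∧ (∀ i ∈ I, T i ⊆ U) ∧
    ∀ good : Finset (Fin n) → Prop, (∀ W : Finset (Fin n), W.card ≤ t + 1 → good W) →
      (∀ k ∈ K, good (U1 k) → good (U2 k) → good (U1 k ∪ U2 k)) → good U

end Pool.Agent.Helper91K9.TW
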