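import Pool.Agent.Helper91K9.DL.Poly2
import Pool.Agent.Helper91K9.TW.Stm

/-!
# The learning algorithm for bounded treewidth runs in polynomial time
-/

namespace Pool.Agent.Helper91K9.TW

open Pool.Agent.NPC Pool.Agent.Helper91K9.DL

section

variable {α : Type} [TEnc α]

theorem ct_poly {neg : α → List (List Bool)} {ρ : α → List (ℕ × Bool)} (hneg : Poly neg)
    (hρ : Poly ρ) : Poly (fun a => ct (neg a) (ρ a)) :=
  NPC.Poly.length (NPC.Poly.filter (p := fun a x => termVal (ρ a) x) hneg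
    (termVal_poly (hρ.comp (NPC.Poly.fst NPC.Poly.id)) (NPC.Poly.snd NPC.Poly.id)))

theorem dif_poly {f g h k : α → ℕ} (hf : Poly f) (hg : Poly g) (hh : Poly h) (hk : Poly k) :
    Poly (fun a => dif (f a) (g a) (h a) (k a)) := by
  have h1 := NPC.Poly.mul hf hg
  have h2 := NPC.Poly.mul hh hk
  exact NPC.Poly.add (NPC.Poly.sub h1 h2) (NPC.Poly.sub h2 h1)

theorem consNot_poly {l : α → ℕ × Bool} {r : α → List (ℕ × Bool)} (hl : Poly l) (hr : Poly r) :
    Poly (fun a => ((l a).1, !(l a).2) :: r a) :=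
  NPC.Poly.cons (NPC.Poly.pair (NPC.Poly.fst hl) (NPC.Poly.not (NPC.Poly.snd hl))) hr

theorem forced_poly {m K : α → ℕ} {neg : α → List (List Bool)}
    {r1 r2 r3 r4 : α → List (ℕ × Bool)} {l : α → ℕ × Bool} (hm : Poly m) (hK : Poly K)
    (hneg : Poly neg) (h1 : Poly r1) (h2 : Poly r2) (h3 : Poly r3) (h4 : Poly r4) (hl : Poly l) :
    Poly (fun a => forced (m a) (K a) (neg a) (r1 a) (r2 a) (r3 a) (r4 a) (l a)) := by
  have c3 := ct_poly hneg h3
  have c4 := ct_poly hneg h4
  have d1 := ct_poly hneg (consNot_poly hl h1)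
  have d2 := ct_poly hneg (consNot_poly hl h2)
  have d3 := ct_poly hneg (consNot_poly hl h3)
  have d4 := ct_poly hneg (consNot_poly hl h4)
  exact NPC.Poly.and
    (NPC.Poly.decide_le (NPC.Poly.mul hK (dif_poly d1 c4 d2 c3)) (NPC.Poly.mul hm c3))
    (NPC.Poly.decide_le (NPC.Poly.mul hK (dif_poly d3 c4 d4 c3)) (NPC.Poly.mul hm c3))

theorem subStep_poly {M Q : α → ℕ} {cur : α → List (List (ℕ × Bool))} {l : α → ℕ × Bool}
    (hM : Poly M) (hQ : Poly Q) (hcur : Poly cur) (hl : Poly l) :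
    Poly (fun a => subStep (M a) (Q a) (cur a) (l a)) := by
  have h1 := NPC.Poly.mul (NPC.Poly.const 2) (NPC.Poly.length hcur)
  have h2 : Poly (fun a => (cur a).map (l a :: ·)) :=
    NPC.Poly.map (F := fun a S => l a :: S) hcur
      (NPC.Poly.cons (hl.comp (NPC.Poly.fst NPC.Poly.id)) (NPC.Poly.snd NPC.Poly.id))
  exact NPC.Poly.ite (NPC.Poly.decide_or (NPC.Poly.decide_lt hM h1) (NPC.Poly.decide_lt hQ h1))
    hcur (NPC.Poly.append hcur h2)

end

/-- The lists during the enumeration. -/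
theorem subs_inv (M Q B : ℕ) : ∀ (C : List (ℕ × Bool)), (∀ l ∈ C, sz l ≤ B) →
    ∀ (cur : List (List (ℕ × Bool))) (c : ℕ), cur.length ≤ max 1 M →
    (∀ S ∈ cur, S.length ≤ c ∧ ∀ l ∈ S, sz l ≤ B) →
    (C.foldl (subStep M Q) cur).length ≤ max 1 M ∧
      ∀ S ∈ C.foldl (subStep M Q) cur, S.length ≤ c + C.length ∧ ∀ l ∈ S, sz l ≤ B := by
  intro C
  induction C with
  | nil =>
    intro _ cur c h1 h2
    exact ⟨h1, fun S hS => ⟨by simpa using (h2 S hS).1, (h2 S hS).2⟩⟩
  | cons j L ih =>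
    intro hL cur c h1 h2
    rw [List.foldl_cons]
    have hj : sz j ≤ B := hL j (by simp)
    have key : (subStep M Q cur j).length ≤ max 1 M ∧
        ∀ S ∈ subStep M Q cur j, S.length ≤ c + 1 ∧ ∀ l ∈ S, sz l ≤ B := by
      have h3 : ∀ S ∈ cur, S.length ≤ c + 1 ∧ ∀ l ∈ S, sz l ≤ B :=
        fun S hS => ⟨(h2 S hS).1.trans (by omega), (h2 S hS).2⟩
      unfold subStep
      split_ifs with hm
      · exact ⟨h1, h3⟩
      · push Not at hm
        refine ⟨?_, fun S hS => ?_⟩
        · rw [List.length_append, List.length_map]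
          have := hm.1
          exact le_trans (by omega) (le_max_right _ _)
        · rcases List.mem_append.1 hS with hS | hS
          · exact h3 S hS
          · obtain ⟨S', hS', rfl⟩ := List.mem_map.1 hS
            have h4 := h2 S' hS'
            refine ⟨by simpa using h4.1, fun j' hj' => ?_⟩
            rcases List.mem_cons.1 hj' with rfl | hj'
            · exact hj
            · exact h4.2 j' hj'
    obtain ⟨h5, h6⟩ := ih (fun j' hj' => hL j' (List.mem_cons_of_mem _ hj')) _ (c + 1) key.1 key.2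
    refine ⟨h5, fun S hS => ⟨(h6 S hS).1.trans ?_, (h6 S hS).2⟩⟩
    simp only [List.length_cons]
    omega

section

variable {α : Type} [TEnc α]

theorem subs_poly {M Q : α → ℕ} {C : α → List (ℕ × Bool)} (hM : UPoly M) (hQ : Poly Q)
    (hC : Poly C) : Poly (fun a => subs (M a) (Q a) (C a)) := by
  obtain ⟨r, hr⟩ := UPoly.sz_le hM
  obtain ⟨t, ht⟩ := hC.sz_le
  have h1 : Poly (fun p : α × List (List (ℕ × Bool)) × (ℕ × Bool) => p.1) :=
    NPC.Poly.fst NPC.Poly.id
  refine NPC.Poly.foldl (F := fun a => subStep (M a) (Q a)) hC (NPC.Poly.const [[]])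
    (subStep_poly (hM.toPoly.comp h1) (hQ.comp h1) (NPC.Poly.fst (NPC.Poly.snd NPC.Poly.id))
      (NPC.Poly.snd (NPC.Poly.snd NPC.Poly.id)))
    ((r + 1) * (t * (t + 1) + Polynomial.C 2) + Polynomial.C 1) ?_
  intro a k _
  have h0 : ∀ l ∈ (C a).take k, sz l ≤ t.eval (sz a) := by
    intro l hl
    have h2 := sz_le_of_mem (List.mem_of_mem_take hl)
    have h3 := ht a
    omega
  obtain ⟨h2, h3⟩ := subs_inv (M a) (Q a) (t.eval (sz a)) _ h0 [[]] 0 (by simp) (by simp)
  have hk : ((C a).take k).length ≤ t.eval (sz a) := by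
    have h4 := length_lt_sz (C a)
    have h5 := ht a
    rw [List.length_take]
    omega
  have h4 := sz_le_length_mul (((C a).take k).foldl (subStep (M a) (Q a)) [[]])
    (t.eval (sz a) * (t.eval (sz a) + 1) + 1) (by
      intro S hS
      obtain ⟨h5, h6⟩ := h3 S hS
      refine (sz_le_length_mul S (t.eval (sz a)) h6).trans ?_
      have h7 : S.length ≤ t.eval (sz a) := by omega
      exact Nat.add_le_add_right (Nat.mul_le_mul_right _ h7) 1)
  refine h4.trans ?_
  have e1 := hr a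
  simp only [Polynomial.eval_add, Polynomial.eval_mul, Polynomial.eval_C, Polynomial.eval_one]
  refine Nat.add_le_add_right ?_ 1
  refine Nat.mul_le_mul ?_ (by omega)
  exact h2.trans (max_le (by omega) (by omega))

theorem plvl0 {n m K Q : α → ℕ} {neg : α → List (List Bool)}
    {r1 r2 r3 r4 : α → List (ℕ × Bool)} (hn : UPoly n) (hm : UPoly m) (hK : Poly K) (hQ : Poly Q)
    (hneg : Poly neg) (h1 : Poly r1) (h2 : Poly r2) (h3 : Poly r3) (h4 : Poly r4) :
    Poly (fun a => subs (m a) (Q a)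
      ((lits (n a)).filter (forced (m a) (K a) (neg a) (r1 a) (r2 a) (r3 a) (r4 a)))) := by
  refine subs_poly hm hQ ?_
  have e1 : Poly (fun p : α × (ℕ × Bool) => p.1) := NPC.Poly.fst NPC.Poly.id
  have e2 : Poly (fun p : α × (ℕ × Bool) => p.2) := NPC.Poly.snd NPC.Poly.id
  exact NPC.Poly.filter
    (p := fun a l => forced (m a) (K a) (neg a) (r1 a) (r2 a) (r3 a) (r4 a) l)
    (lits_poly hn) (forced_poly (hm.toPoly.comp e1) (hK.comp e1) (hneg.comp e1) (h1.comp e1)
      (h2.comp e1) (h3.comp e1) (h4.comp e1) e2)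

theorem plvl1 (r : ℕ) {n m K Q : α → ℕ} {neg : α → List (List Bool)}
    {r1 r2 r3 : α → List (ℕ × Bool)} (hn : UPoly n) (hm : UPoly m) (hK : Poly K) (hQ : Poly Q)
    (hneg : Poly neg) (h1 : Poly r1) (h2 : Poly r2) (h3 : Poly r3) :
    Poly (fun a => (parts (n a) r).flatMap fun r4 => subs (m a) (Q a)
      ((lits (n a)).filter (forced (m a) (K a) (neg a) (r1 a) (r2 a) (r3 a) r4))) := by
  have e1 : Poly (fun p : α × List (ℕ × Bool) => p.1) := NPC.Poly.fst NPC.Poly.id
  have e2 : Poly (fun p : α × List (ℕ × Bool) => p.2) := NPC.Poly.snd NPC.Poly.id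
  have e3 := plvl0 (α := α × List (ℕ × Bool)) (n := fun p => n p.1) (m := fun p => m p.1)
    (K := fun p => K p.1) (Q := fun p => Q p.1) (neg := fun p => neg p.1) (r1 := fun p => r1 p.1)
    (r2 := fun p => r2 p.1) (r3 := fun p => r3 p.1) (r4 := fun p => p.2) (UPoly.comp hn e1)
    (UPoly.comp hm e1) (hK.comp e1) (hQ.comp e1) (hneg.comp e1) (h1.comp e1) (h2.comp e1)
    (h3.comp e1) e2
  refine NPC.Poly.flatMap (parts_poly hn r) ?_
  exact e3

theorem plvl2 (r : ℕ) {n m K Q : α → ℕ} {neg : α → List (List Bool)}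
    {r1 r2 : α → List (ℕ × Bool)} (hn : UPoly n) (hm : UPoly m) (hK : Poly K) (hQ : Poly Q)
    (hneg : Poly neg) (h1 : Poly r1) (h2 : Poly r2) :
    Poly (fun a => (parts (n a) r).flatMap fun r3 => (parts (n a) r).flatMap fun r4 =>
      subs (m a) (Q a)
      ((lits (n a)).filter (forced (m a) (K a) (neg a) (r1 a) (r2 a) r3 r4))) := by
  have e1 : Poly (fun p : α × List (ℕ × Bool) => p.1) := NPC.Poly.fst NPC.Poly.id
  have e2 : Poly (fun p : α × List (ℕ × Bool) => p.2) := NPC.Poly.snd NPC.Poly.id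
  have e3 := plvl1 (α := α × List (ℕ × Bool)) r (n := fun p => n p.1) (m := fun p => m p.1)
    (K := fun p => K p.1) (Q := fun p => Q p.1) (neg := fun p => neg p.1) (r1 := fun p => r1 p.1)
    (r2 := fun p => r2 p.1) (r3 := fun p => p.2) (UPoly.comp hn e1)
    (UPoly.comp hm e1) (hK.comp e1) (hQ.comp e1) (hneg.comp e1) (h1.comp e1) (h2.comp e1) e2
  refine NPC.Poly.flatMap (parts_poly hn r) ?_
  exact e3

theorem plvl3 (r : ℕ) {n m K Q : α → ℕ} {neg : α → List (List Bool)}
    {r1 : α → List (ℕ × Bool)} (hn : UPoly n) (hm : UPoly m) (hK : Poly K) (hQ : Poly Q)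
    (hneg : Poly neg) (h1 : Poly r1) :
    Poly (fun a => (parts (n a) r).flatMap fun r2 => (parts (n a) r).flatMap fun r3 =>
      (parts (n a) r).flatMap fun r4 => subs (m a) (Q a)
      ((lits (n a)).filter (forced (m a) (K a) (neg a) (r1 a) r2 r3 r4))) := by
  have e1 : Poly (fun p : α × List (ℕ × Bool) => p.1) := NPC.Poly.fst NPC.Poly.id
  have e2 : Poly (fun p : α × List (ℕ × Bool) => p.2) := NPC.Poly.snd NPC.Poly.id
  have e3 := plvl2 (α := α × List (ℕ × Bool)) r (n := fun p => n p.1) (m := fun p => m p.1)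
    (K := fun p => K p.1) (Q := fun p => Q p.1) (neg := fun p => neg p.1) (r1 := fun p => r1 p.1)
    (r2 := fun p => p.2) (UPoly.comp hn e1)
    (UPoly.comp hm e1) (hK.comp e1) (hQ.comp e1) (hneg.comp e1) (h1.comp e1) e2
  refine NPC.Poly.flatMap (parts_poly hn r) ?_
  exact e3

theorem pieces_poly (r : ℕ) {n m K Q : α → ℕ} {neg : α → List (List Bool)}
    (hn : UPoly n) (hm : UPoly m) (hK : Poly K) (hQ : Poly Q) (hneg : Poly neg) :
    Poly (fun a => pieces r (n a) (m a) (K a) (Q a) (neg a)) := by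
  have e1 : Poly (fun p : α × List (ℕ × Bool) => p.1) := NPC.Poly.fst NPC.Poly.id
  have e2 : Poly (fun p : α × List (ℕ × Bool) => p.2) := NPC.Poly.snd NPC.Poly.id
  have e3 := plvl3 (α := α × List (ℕ × Bool)) r (n := fun p => n p.1) (m := fun p => m p.1)
    (K := fun p => K p.1) (Q := fun p => Q p.1) (neg := fun p => neg p.1) (r1 := fun p => p.2)
    (UPoly.comp hn e1) (UPoly.comp hm e1) (hK.comp e1) (hQ.comp e1) (hneg.comp e1) e2
  have e4 : Poly (fun a => (parts (n a) r).flatMap fun r1 => (parts (n a) r).flatMap fun r2 =>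
      (parts (n a) r).flatMap fun r3 => (parts (n a) r).flatMap fun r4 => subs (m a) (Q a)
      ((lits (n a)).filter (forced (m a) (K a) (neg a) r1 r2 r3 r4))) := by
    refine NPC.Poly.flatMap (parts_poly hn r) ?_
    exact e3
  refine (NPC.Poly.cons (NPC.Poly.const ([] : List (ℕ × Bool))) e4).congr fun a => ?_
  rw [pieces]

theorem mapApp_poly {u : α → List (ℕ × Bool)} {P : α → List (List (ℕ × Bool))} (hu : Poly u)
    (hP : Poly P) : Poly (fun a => (P a).map (u a ++ ·)) :=
  NPC.Poly.map (F := fun a S => u a ++ S) hP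
    (NPC.Poly.append (hu.comp (NPC.Poly.fst NPC.Poly.id)) (NPC.Poly.snd NPC.Poly.id))

theorem comb_poly (c : ℕ) {P : α → List (List (ℕ × Bool))} (hP : Poly P) :
    Poly (fun a => comb (P a) c) := by
  induction c with
  | zero => exact NPC.Poly.const [[]]
  | succ c ih =>
    refine NPC.Poly.flatMap (F := fun a u => (P a).map (u ++ ·)) ih ?_
    exact mapApp_poly (NPC.Poly.snd NPC.Poly.id) (hP.comp (NPC.Poly.fst NPC.Poly.id))

theorem cands3_poly (r c : ℕ) {n m K Q : α → ℕ} {neg : α → List (List Bool)}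
    (hn : UPoly n) (hm : UPoly m) (hK : Poly K) (hQ : Poly Q) (hneg : Poly neg) :
    Poly (fun a => cands3 r c (n a) (m a) (K a) (Q a) (neg a)) := by
  have h1 := comb_poly c (pieces_poly r hn hm hK hQ hneg)
  refine NPC.Poly.flatMap
    (F := fun a β => (comb (pieces r (n a) (m a) (K a) (Q a) (neg a)) c).map (β ++ ·))
    (parts_poly hn r) ?_
  exact mapApp_poly (NPC.Poly.snd NPC.Poly.id) (h1.comp (NPC.Poly.fst NPC.Poly.id))

theorem level_poly (r c : ℕ) {n m K Q D : α → ℕ} {neg : α → List (List Bool)}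
    (hn : UPoly n) (hm : UPoly m) (hK : Poly K) (hQ : Poly Q) (hD : Poly D) (hneg : Poly neg) :
    Poly (fun a => level r c (n a) (m a) (K a) (Q a) (D a) (neg a)) := by
  have e1 : Poly (fun p : α × List (ℕ × Bool) => p.1) := NPC.Poly.fst NPC.Poly.id
  have e2 : Poly (fun p : α × List (ℕ × Bool) => p.2) := NPC.Poly.snd NPC.Poly.id
  exact NPC.Poly.filter (p := fun a t => decide (D a * ct (neg a) t ≤ m a))
    (cands3_poly r c hn hm hK hQ hneg)
    (NPC.Poly.decide_le (NPC.Poly.mul (hD.comp e1) (ct_poly (hneg.comp e1) e2))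
      (hm.toPoly.comp e1))

end

/-- Leaf POLY3. -/
theorem poly3 : S_POLY3 := by
  intro r c es
  have h1 : Poly (fun p : ℕ × List (List Bool × Bool) => p.2) := NPC.Poly.snd NPC.Poly.id
  have h0 : Poly (fun p : ℕ × List (List Bool × Bool) => p.1) := NPC.Poly.fst NPC.Poly.id
  have h2 : Poly (fun p : ℕ × List (List Bool × Bool) => negs p.2) := negs_poly.comp h1
  have h3 : UPoly (fun p : ℕ × List (List Bool × Bool) => nvars p.2) := nvars_upoly.comp h1
  have h4 : UPoly (fun p : ℕ × List (List Bool × Bool) => p.2.length) := UPoly.length h1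
  induction es with
  | nil => exact (NPC.Poly.const ([] : List (List (ℕ × Bool)))).congr fun a => rfl
  | cons e es ih =>
    refine (NPC.Poly.append (level_poly r c h3 h4 (thr_poly e.1 h3.toPoly h0)
      (thr_poly e.2.1 h3.toPoly h0) (thr_poly e.2.2 h3.toPoly h0) h2) ih).congr fun a => ?_
    rw [learn3, learn3, List.flatMap_cons]

end Pool.Agent.Helper91K9.TW
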