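import Pool.Agent.Helper91K9.TW.Stm

/-!
# Leaf SIZE: few literals are almost forced
-/

namespace Pool.Agent.Helper91K9.TW

open Finset Pool.Agent.NPC Pool.Agent.Helper91K9.DL

theorem size : S_SIZE := by
  classical
  intro n M C hM hC
  rcases Nat.eq_zero_or_pos n with h0 | hn
  · subst h0
    have hC0 : C = ∅ := by
      rw [eq_empty_iff_forall_notMem]
      intro l _
      exact l.1.elim0
    rw [hC0, card_empty, pow_zero, one_mul]
    linarith [PP_le_one M]
  have hn' : (0 : ℝ) < n := by exact_mod_cast hn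
  -- almost every point of `M` satisfies `C`
  have h1 : PP M ≤ PP (fun x => (M x ∧ satL C x) ∨ ∃ l ∈ C, M x ∧ x l.1 = !l.2) := by
    refine PP_mono fun x hx => ?_
    by_cases hs : satL C x
    · exact Or.inl ⟨hx, hs⟩
    · right
      unfold satL at hs
      push Not at hs
      obtain ⟨l, hl, hne⟩ := hs
      refine ⟨l, hl, hx, ?_⟩
      cases h3 : x l.1 <;> cases h4 : l.2 <;> simp_all
  have h2 : ∑ l ∈ C, PP (fun x => M x ∧ x l.1 = !l.2) ≤ PP M / 4 := by
    have h3 : ∀ l ∈ C, PP (fun x => M x ∧ x l.1 = !l.2) ≤ PP M / (8 * n) := by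
      intro l hl
      rw [le_div_iff₀ (by positivity)]
      linarith [hC l hl]
    refine (sum_le_sum h3).trans ?_
    rw [sum_const, nsmul_eq_mul]
    have h4 : (C.card : ℝ) ≤ n * 2 := by
      have : C.card ≤ n * 2 := by
        simpa using card_le_univ C
      exact_mod_cast this
    calc (C.card : ℝ) * (PP M / (8 * n)) ≤ n * 2 * (PP M / (8 * n)) :=
          mul_le_mul_of_nonneg_right h4 (by positivity)
      _ = PP M / 4 := by
          field_simp
          ring
  have h5 := h1.trans (PP_or_le _ _)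
  have h6 := PP_exists_le C fun l x => M x ∧ x l.1 = !l.2
  have h7 : 3 / 4 * PP M ≤ PP (fun x => M x ∧ satL C x) := by linarith
  -- there is a point
  have hex : ∃ x, M x ∧ satL C x := by
    by_contra hcon
    push Not at hcon
    have : PP (fun x => M x ∧ satL C x) = 0 := by
      rw [PP_eq]
      have : (univ.filter fun x => M x ∧ satL C x) = ∅ := by
        rw [filter_eq_empty_iff]
        intro x _ hx
        exact hcon x hx.1 hx.2
      rw [this]
      simp
    rw [this] at h7
    linarith
  obtain ⟨x0, -, hx0⟩ := hex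
  have hinj : Set.InjOn Prod.fst (C : Set (Fin n × Bool)) := by
    intro l hl l' hl' he
    have h8 := hx0 l (mem_coe.1 hl)
    have h9 := hx0 l' (mem_coe.1 hl')
    refine Prod.ext he ?_
    rw [← h8, ← h9, he]
  have h10 : PP (fun x => M x ∧ satL C x) ≤ (1 / 2) ^ C.card := by
    rw [← card_image_of_injOn hinj, ← PP_agr _ x0]
    refine PP_mono ?_
    rintro x ⟨-, hx⟩ v hv
    obtain ⟨l, hl, rfl⟩ := mem_image.1 hv
    rw [hx l hl, hx0 l hl]
  have h11 : 3 / 4 * PP M ≤ (1 / 2) ^ C.card := h7.trans h10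
  have h12 : (2 : ℝ) ^ C.card * (1 / 2) ^ C.card = 1 := by
    rw [← mul_pow]
    norm_num
  have h13 : (0 : ℝ) < 2 ^ C.card := by positivity
  nlinarith [mul_le_mul_of_nonneg_left h11 h13.le]

end Pool.Agent.Helper91K9.TW
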