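import Pool.Agent.Helper91K9.TW.Stm

/-!
# Leaf TREE1: few nodes suffice
-/

namespace Pool.Agent.Helper91K9.TW

open Finset Pool.Agent.NPC Pool.Agent.Helper91K9.DL

theorem Tree1.own_card {α : Type} {K A : Finset ℕ} {S : Finset α} {W : ℕ → Finset α} (hA : A ⊆ K)
    (hW : ∀ k ∈ A, W k ⊆ S) (h : ∀ k ∈ A, ∃ v ∈ W k, ∀ j ∈ K, j < k → v ∉ W j) :
    A.card ≤ S.card := by
  classical
  rcases A.eq_empty_or_nonempty with h0 | ⟨k0, hk0⟩
  · rw [h0, card_empty]
    omega
  obtain ⟨v0, -⟩ := h k0 hk0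
  have : Nonempty α := ⟨v0⟩
  choose! f hf using h
  refine card_le_card_of_injOn f (fun k hk => mem_coe.2 (hW k (mem_coe.1 hk) (hf k (mem_coe.1 hk)).1))
    ?_
  intro k hk l hl hkl
  have hk' := mem_coe.1 hk
  have hl' := mem_coe.1 hl
  rcases lt_trichotomy k l with h | h | h
  · exact absurd (by rw [← hkl]; exact (hf k hk').1) ((hf l hl').2 k (hA hk') h)
  · exact h
  · exact absurd (by rw [hkl]; exact (hf l hl').1) ((hf k hk').2 l (hA hl') h)

theorem tree1 : S_TREE1 := by
  classical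
  intro n ι I T t K p V B hTD
  have hex : ∃ c, ∃ K' p', K'.card = c ∧ TD I T t K' p' V B := ⟨K.card, K, p, rfl, hTD⟩
  obtain ⟨K', p', hc, hT⟩ := Nat.find_spec hex
  have hmin : ∀ K'' p'', TD I T t K'' p'' V B → K'.card ≤ K''.card := by
    intro K'' p'' h
    rw [hc]
    exact Nat.find_min' hex ⟨K'', p'', rfl, h⟩
  refine ⟨K', p', ?_, hT⟩
  rcases K'.eq_empty_or_nonempty with h0 | hne
  · rw [h0, card_empty]
    omega
  set m0 := K'.min' hne with hm0
  have hm0K : m0 ∈ K' := min'_mem _ _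
  have hlt : ∀ k ∈ K'.erase m0, m0 < k := by
    intro k hk
    rw [mem_erase] at hk
    exact lt_of_le_of_ne (min'_le _ _ hk.2) (Ne.symm hk.1)
  -- every node owns something
  have hown : ∀ k ∈ K'.erase m0, (∃ v ∈ V k, ∀ j ∈ K', j < k → v ∉ V j) ∨
      (∃ i ∈ B k, ∀ j ∈ K', j < k → i ∉ B j) := by
    intro k hk
    by_contra hcon
    push Not at hcon
    obtain ⟨hc1, hc2⟩ := hcon
    have hkK : k ∈ K' := (mem_erase.1 hk).2
    have hmk := hlt k hk
    obtain ⟨hp1, hp2, -, -⟩ := hT.par k hkK m0 hm0K hmk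
    have hV : V k ⊆ V (p' k) := by
      intro v hv
      obtain ⟨j, hj, hjk, hvj⟩ := hc1 v hv
      exact (hT.par k hkK j hj hjk).2.2.1 v hvj hv
    have hB : B k ⊆ B (p' k) := by
      intro i hi
      obtain ⟨j, hj, hjk, hij⟩ := hc2 i hi
      exact (hT.par k hkK j hj hjk).2.2.2 i hij hi
    have hnew : TD I T t (K'.erase k) (fun m => if p' m = k then p' k else p' m) V B := by
      refine ⟨fun m hm => hT.card m (mem_erase.1 hm).2, fun m hm => hT.subB m (mem_erase.1 hm).2,
        ?_, ?_⟩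
      · intro m hm j hj hjm
        obtain ⟨h1, h2, h3, h4⟩ := hT.par m (mem_erase.1 hm).2 j (mem_erase.1 hj).2 hjm
        split_ifs with hmk'
        · refine ⟨mem_erase.2 ⟨hp2.ne, hp1⟩, by omega, ?_, ?_⟩
          · intro v hvj hvm
            have := h3 v hvj hvm
            rw [hmk'] at this
            exact hV this
          · intro i hij him
            have := h4 i hij him
            rw [hmk'] at this
            exact hB this
        · exact ⟨mem_erase.2 ⟨hmk', h1⟩, h2, h3, h4⟩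
      · intro i hi v hv
        obtain ⟨m, hm, hvm, him⟩ := hT.cov i hi v hv
        by_cases hmk' : m = k
        · rw [hmk'] at hvm him
          exact ⟨p' k, mem_erase.2 ⟨hp2.ne, hp1⟩, hV hvm, hB him⟩
        · exact ⟨m, mem_erase.2 ⟨hmk', hm⟩, hvm, him⟩
    have h5 := hmin _ _ hnew
    rw [card_erase_of_mem hkK] at h5
    have := Finset.card_pos.2 ⟨k, hkK⟩
    omega
  -- counting
  set A := (K'.erase m0).filter (fun k => ∃ v ∈ V k, ∀ j ∈ K', j < k → v ∉ V j) with hA
  set D := (K'.erase m0).filter (fun k => ∃ i ∈ B k, ∀ j ∈ K', j < k → i ∉ B j) with hD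
  have hAD : K'.erase m0 ⊆ A ∪ D := by
    intro k hk
    rw [mem_union, hA, hD, mem_filter, mem_filter]
    rcases hown k hk with h | h
    · exact Or.inl ⟨hk, h⟩
    · exact Or.inr ⟨hk, h⟩
  have hAc : A.card ≤ n := by
    have h1 : A.card ≤ (univ : Finset (Fin n)).card := Tree1.own_card (K := K') (W := V)
      (fun k hk => (mem_erase.1 (mem_filter.1 hk).1).2) (fun k _ => subset_univ _)
      (fun k hk => (mem_filter.1 hk).2)
    simpa using h1
  have hDc : D.card ≤ I.card := Tree1.own_card (K := K') (W := B)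
    (fun k hk => (mem_erase.1 (mem_filter.1 hk).1).2)
    (fun k hk => hT.subB k (mem_erase.1 (mem_filter.1 hk).1).2)
    (fun k hk => (mem_filter.1 hk).2)
  have h6 : (K'.erase m0).card ≤ n + I.card :=
    (card_le_card hAD).trans ((card_union_le _ _).trans (add_le_add hAc hDc))
  rw [card_erase_of_mem hm0K] at h6
  omega

end Pool.Agent.Helper91K9.TW
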