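import Pool.Agent.Helper91K9.TW.Stm

/-!
# Leaf TREE2: the sets of variables which are obtained from the bags by merging

Nodes are merged into their parents in decreasing order: `anc N p d j` is the node into which `j`
has been merged after the nodes `N, N - 1, …, N - d + 1` have been merged into their parents.
-/

namespace Pool.Agent.Helper91K9.TW

open Finset Pool.Agent.NPC Pool.Agent.Helper91K9.DL

namespace Tree2

/-- the node into which `j` has been merged -/
def anc (N : ℕ) (p : ℕ → ℕ) : ℕ → ℕ → ℕ
  | 0, j => j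
  | d + 1, j => if anc N p d j = N - d then p (N - d) else anc N p d j

variable {n : ℕ} {ι : Type} {I : Finset ι} {T : ι → Finset (Fin n)} {t : ℕ}
  {K : Finset ℕ} {p : ℕ → ℕ} {V : ℕ → Finset (Fin n)} {B : ℕ → Finset ι}

theorem anc_inv (h : TD I T t K p V B) {N m0 : ℕ} (hN : ∀ k ∈ K, k ≤ N) (hm : m0 ∈ K) :
    ∀ d, d + m0 ≤ N → (∀ j ∈ K, anc N p d j ∈ K ∧ anc N p d j ≤ N - d) ∧
      (∀ b, b ≤ N - d → anc N p d b = b) ∧
      (∀ j ∈ K, ∀ j' ∈ K, anc N p d j ≠ anc N p d j' →
        (∀ v, v ∈ V j → v ∈ V j' → v ∈ V (anc N p d j) ∧ v ∈ V (anc N p d j')) ∧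
        (∀ i, i ∈ B j → i ∈ B j' → i ∈ B (anc N p d j) ∧ i ∈ B (anc N p d j'))) := by
  intro d
  induction d with
  | zero =>
    intro _
    refine ⟨fun j hj => ⟨hj, (hN j hj : j ≤ N)⟩, fun _ _ => rfl, fun j _ j' _ _ => ?_⟩
    exact ⟨fun v h1 h2 => ⟨h1, h2⟩, fun i h1 h2 => ⟨h1, h2⟩⟩
  | succ d ih =>
    intro hd
    obtain ⟨ih1, ih2, ih3⟩ := ih (by omega)
    have hk : m0 < N - d := by omega
    have hpar : N - d ∈ K → p (N - d) ∈ K ∧ p (N - d) < N - d := fun hK =>
      ⟨(h.par _ hK m0 hm hk).1, (h.par _ hK m0 hm hk).2.1⟩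
    have e : ∀ j, anc N p (d + 1) j =
        if anc N p d j = N - d then p (N - d) else anc N p d j := fun _ => rfl
    refine ⟨?_, ?_, ?_⟩
    · intro j hj
      obtain ⟨h1, h2⟩ := ih1 j hj
      rw [e]
      split_ifs with hc
      · rw [hc] at h1
        obtain ⟨h3, h4⟩ := hpar h1
        exact ⟨h3, by omega⟩
      · exact ⟨h1, by omega⟩
    · intro b hb
      have h1 := ih2 b (by omega)
      rw [e, h1, if_neg (by omega)]
    · intro j hj j' hj' hne
      obtain ⟨h1, h2⟩ := ih1 j hj
      obtain ⟨h1', h2'⟩ := ih1 j' hj'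
      rw [e, e] at hne ⊢
      by_cases hc : anc N p d j = N - d
      · by_cases hc' : anc N p d j' = N - d
        · rw [if_pos hc, if_pos hc'] at hne
          exact absurd rfl hne
        · rw [if_pos hc, if_neg hc'] at hne ⊢
          have h3 := ih3 j hj j' hj' (by rw [hc]; exact Ne.symm hc')
          rw [hc] at h3
          have h4 := h.par (N - d) (by rw [← hc]; exact h1) (anc N p d j') h1' (by omega)
          refine ⟨fun v hv hv' => ?_, fun i hi hi' => ?_⟩
          · obtain ⟨h5, h6⟩ := h3.1 v hv hv'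
            exact ⟨h4.2.2.1 v h6 h5, h6⟩
          · obtain ⟨h5, h6⟩ := h3.2 i hi hi'
            exact ⟨h4.2.2.2 i h6 h5, h6⟩
      · by_cases hc' : anc N p d j' = N - d
        · rw [if_neg hc, if_pos hc'] at hne ⊢
          have h3 := ih3 j hj j' hj' (by rw [hc']; exact hc)
          rw [hc'] at h3
          have h4 := h.par (N - d) (by rw [← hc']; exact h1') (anc N p d j) h1 (by omega)
          refine ⟨fun v hv hv' => ?_, fun i hi hi' => ?_⟩
          · obtain ⟨h5, h6⟩ := h3.1 v hv hv'
            exact ⟨h5, h4.2.2.1 v h5 h6⟩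
          · obtain ⟨h5, h6⟩ := h3.2 i hi hi'
            exact ⟨h5, h4.2.2.2 i h5 h6⟩
        · rw [if_neg hc, if_neg hc'] at hne ⊢
          exact ih3 j hj j' hj' hne

/-- the variables of the cluster of `b` -/
def cl (K : Finset ℕ) (p : ℕ → ℕ) (V : ℕ → Finset (Fin n)) (N d b : ℕ) : Finset (Fin n) :=
  (K.filter fun j => anc N p d j = b).biUnion V

theorem mem_cl {N d b : ℕ} {v : Fin n} : v ∈ cl K p V N d b ↔ ∃ j ∈ K, anc N p d j = b ∧ v ∈ V j := by
  unfold cl
  simp only [mem_biUnion, mem_filter]
  constructor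
  · rintro ⟨j, ⟨h1, h2⟩, h3⟩
    exact ⟨j, h1, h2, h3⟩
  · rintro ⟨j, h1, h2, h3⟩
    exact ⟨j, ⟨h1, h2⟩, h3⟩

end Tree2

open Tree2 in
theorem tree2 : S_TREE2 := by
  classical
  intro n ι I T t K p V B h
  rcases K.eq_empty_or_nonempty with h0 | hne
  · subst h0
    refine ⟨fun _ => ∅, fun _ => ∅, fun _ => ∅, fun _ => ∅, fun _ => ∅, fun _ => ∅, ∅, ?_, ?_, ?_⟩
    · intro k hk
      simp at hk
    · intro i hi v hv
      obtain ⟨k, hk, -⟩ := h.cov i hi v hv
      simp at hk
    · intro good h1 _
      exact h1 ∅ (by simp)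
  set m0 := K.min' hne with hm0
  have hm0K : m0 ∈ K := min'_mem _ _
  set N := K.sup id with hN
  have hNK : ∀ k ∈ K, k ≤ N := fun k hk => le_sup (f := id) hk
  have hm0N : m0 ≤ N := hNK _ hm0K
  have hinv := anc_inv h hNK hm0K
  refine ⟨fun k => if m0 < k then cl K p V N (N - k) (p k) else ∅,
    fun k => if m0 < k then V (p k) else ∅, fun k => if m0 < k then B (p k) else ∅,
    fun k => if m0 < k then cl K p V N (N - k) k else ∅,
    fun k => if m0 < k then V k else ∅, fun k => if m0 < k then B k else ∅, K.biUnion V,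
    ?_, ?_, ?_⟩
  · intro k hk
    by_cases hmk : m0 < k
    swap
    · simp only [if_neg hmk]
      exact ⟨by simp, by simp, by simp, by simp, by simp, by simp, by simp,
        fun i _ _ => Or.inr (by simp), fun i _ _ => Or.inr (by simp),
        fun i hi _ => absurd hi (by simp), fun i hi _ => absurd hi (by simp)⟩
    simp only [if_pos hmk]
    have hkN := hNK k hk
    obtain ⟨i1, i2, i3⟩ := hinv (N - k) (by omega)
    have hNk : N - (N - k) = k := by omega
    rw [hNk] at i1 i2
    obtain ⟨hp1, hp2, -, -⟩ := h.par k hk m0 hm0K hmk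
    have hak : anc N p (N - k) k = k := i2 k le_rfl
    have hap : anc N p (N - k) (p k) = p k := i2 (p k) hp2.le
    -- terms which leave the cluster of `b`
    have hterm : ∀ b ∈ K, anc N p (N - k) b = b → ∀ i ∈ I, i ∉ B b →
        T i ⊆ cl K p V N (N - k) b ∨ Disjoint (T i) (cl K p V N (N - k) b \ V b) := by
      intro b hb hab i hi hib
      by_cases hex : ∃ j ∈ K, i ∈ B j ∧ anc N p (N - k) j = b
      · left
        obtain ⟨j, hj, hij, haj⟩ := hex
        intro v hv
        obtain ⟨l, hl, hvl, hil⟩ := h.cov i hi v hv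
        rw [mem_cl]
        refine ⟨l, hl, ?_, hvl⟩
        by_contra hne'
        have := ((i3 j hj l hl (by rw [haj]; exact Ne.symm hne')).2 i hij hil).1
        rw [haj] at this
        exact hib this
      · right
        push Not at hex
        rw [disjoint_left]
        intro v hv hv'
        rw [mem_sdiff, mem_cl] at hv'
        obtain ⟨⟨j, hj, haj, hvj⟩, hvb⟩ := hv'
        obtain ⟨l, hl, hvl, hil⟩ := h.cov i hi v hv
        have hal := hex l hl hil
        have := ((i3 j hj l hl (by rw [haj]; exact Ne.symm hal)).1 v hvj hvl).1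
        rw [haj] at this
        exact hvb this
    refine ⟨?_, ?_, ?_, h.card _ hp1, h.card _ hk, h.subB _ hp1, h.subB _ hk,
      hterm _ hp1 hap, hterm _ hk hak, ?_, ?_⟩
    · intro v hv
      rw [mem_cl]
      exact ⟨p k, hp1, hap, hv⟩
    · intro v hv
      rw [mem_cl]
      exact ⟨k, hk, hak, hv⟩
    · intro v hv
      rw [mem_inter, mem_cl, mem_cl] at hv
      obtain ⟨⟨j, hj, haj, hvj⟩, j', hj', haj', hvj'⟩ := hv
      have h1 := (i3 j hj j' hj' (by rw [haj, haj']; exact hp2.ne)).1 v hvj hvj'
      rw [haj, haj'] at h1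
      exact mem_inter.2 h1
    · intro i hi hi' v hv
      obtain ⟨l, hl, hvl, hil⟩ := h.cov i (h.subB _ hk hi) v hv
      rw [mem_cl]
      refine ⟨l, hl, ?_, hvl⟩
      by_contra hne'
      have h1 := ((i3 k hk l hl (by rw [hak]; exact Ne.symm hne')).2 i hi hil).2
      have h2 := i1 l hl
      exact hi' ((h.par k hk _ h2.1 (lt_of_le_of_ne h2.2 hne')).2.2.2 i h1 hi)
    · intro i hi hi'
      rw [disjoint_left]
      intro v hv hv'
      rw [mem_sdiff, mem_cl] at hv'
      obtain ⟨⟨j, hj, haj, hvj⟩, hvk⟩ := hv'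
      obtain ⟨l, hl, hvl, hil⟩ := h.cov i (h.subB _ hp1 hi) v hv
      by_cases hal : anc N p (N - k) l = k
      · have h1 := ((i3 (p k) hp1 l hl (by rw [hap, hal]; exact hp2.ne)).2 i hi hil).2
        rw [hal] at h1
        exact hi' h1
      · have h1 := ((i3 j hj l hl (by rw [haj]; exact Ne.symm hal)).1 v hvj hvl).1
        rw [haj] at h1
        exact hvk h1
  · intro i hi v hv
    obtain ⟨k, hk, hvk, -⟩ := h.cov i hi v hv
    exact mem_biUnion.2 ⟨k, hk, hvk⟩
  · intro good g1 g2
    have key : ∀ d, d + m0 ≤ N → ∀ b ∈ K, b ≤ N - d → good (cl K p V N d b) := by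
      intro d
      induction d with
      | zero =>
        intro _ b hb _
        refine g1 _ ?_
        have : cl K p V N 0 b = V b := by
          ext v
          rw [mem_cl]
          constructor
          · rintro ⟨j, _, hj, hv⟩
            have hj' : j = b := hj
            rwa [← hj']
          · intro hv
            exact ⟨b, hb, rfl, hv⟩
        rw [this]
        have := h.card b hb
        omega
      | succ d ih =>
        intro hd b hb hbN
        have ih' := ih (by omega)
        obtain ⟨i1, i2, i3⟩ := hinv d (by omega)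
        have e : ∀ j, anc N p (d + 1) j =
            if anc N p d j = N - d then p (N - d) else anc N p d j := fun _ => rfl
        by_cases hc : N - d ∈ K ∧ p (N - d) = b
        · obtain ⟨hkK, hpk⟩ := hc
          have hmk : m0 < N - d := by omega
          have h1 := g2 (N - d) hkK
          simp only [if_pos hmk] at h1
          have hNd : N - (N - d) = d := by omega
          rw [hNd, hpk] at h1
          have h2 := h1 (ih' b hb (by omega)) (ih' _ hkK le_rfl)
          have h3 : cl K p V N (d + 1) b = cl K p V N d b ∪ cl K p V N d (N - d) := by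
            ext v
            rw [mem_union, mem_cl, mem_cl, mem_cl]
            constructor
            · rintro ⟨j, hj, haj, hv⟩
              rw [e] at haj
              split_ifs at haj with hc
              · exact Or.inr ⟨j, hj, hc, hv⟩
              · exact Or.inl ⟨j, hj, haj, hv⟩
            · rintro (⟨j, hj, haj, hv⟩ | ⟨j, hj, haj, hv⟩)
              · refine ⟨j, hj, ?_, hv⟩
                rw [e, haj, if_neg (by omega)]
              · refine ⟨j, hj, ?_, hv⟩
                rw [e, if_pos haj, hpk]
          rw [h3]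
          exact h2
        · have h3 : cl K p V N (d + 1) b = cl K p V N d b := by
            ext v
            rw [mem_cl, mem_cl]
            constructor
            · rintro ⟨j, hj, haj, hv⟩
              rw [e] at haj
              split_ifs at haj with hc'
              · exact absurd ⟨by rw [← hc']; exact (i1 j hj).1, haj⟩ hc
              · exact ⟨j, hj, haj, hv⟩
            · rintro ⟨j, hj, haj, hv⟩
              refine ⟨j, hj, ?_, hv⟩
              rw [e, haj, if_neg (by omega)]
          rw [h3]
          exact ih' b hb (by omega)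
    have h1 := key (N - m0) (by omega) m0 hm0K (by omega)
    have h2 : cl K p V N (N - m0) m0 = K.biUnion V := by
      obtain ⟨i1, -, -⟩ := hinv (N - m0) (by omega)
      ext v
      rw [mem_cl, mem_biUnion]
      constructor
      · rintro ⟨j, hj, -, hv⟩
        exact ⟨j, hj, hv⟩
      · rintro ⟨j, hj, hv⟩
        refine ⟨j, hj, ?_, hv⟩
        obtain ⟨h3, h4⟩ := i1 j hj
        have h5 : m0 ≤ anc N p (N - m0) j := min'_le _ _ h3
        omega
    rw [h2] at h1
    exact h1

end Pool.Agent.Helper91K9.TW
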