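import Pool.Agent.Helper91K9.TW.Red
import Pool.Agent.Helper91K9.TW.Kill
import Pool.Agent.Helper91K9.TW.Det
import Pool.Agent.Helper91K9.TW.Size
import Pool.Agent.Helper91K9.TW.Subs
import Pool.Agent.Helper91K9.TW.Gap
import Pool.Agent.Helper91K9.TW.Class
import Pool.Agent.Helper91K9.TW.Len
import Pool.Agent.Helper91K9.TW.Tree1
import Pool.Agent.Helper91K9.TW.Tree2
import Pool.Agent.Helper91K9.TW.Num
import Pool.Agent.Helper91K9.TW.Poly3
import Pool.Agent.Helper91K9.TW.Edge
import Pool.Agent.Helper91K9.TW.Rep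

/-!
# DNF formulas of bounded incidence treewidth are learnable from uniform random examples
-/

namespace Pool.Agent.Helper91K9.TW

open Pool.Agent.Helper91K9.DL Pool.Agent.H424R2.PPAD

theorem tw_full (t : ℕ) :
    ∃ A : ℕ × List (List Bool × Bool) → List (List (ℕ × Bool)), PTime A ∧ ∃ e : ℕ,
      ∀ (n a b : ℕ) (F : List (List (ℕ × Bool))), 1 ≤ a → 1 ≤ b →
        (∀ u ∈ F, ∀ l ∈ u, l.1 < n) → TreeWidthLE t F → ∀ m, (n + a + b) ^ e ≤ m →
        Succeeds (fun S => A (a, S)) n m F (1 / a) (1 / b) :=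
  tw_full_of kill det1 det2 size subs_ok gap cls small len tree1 tree2 num poly3 edge rep t

end Pool.Agent.Helper91K9.TW
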