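import Pool.Agent.Helper91K9.TW.Stm

/-!
# The structure of the zeros at a node and one of its children
-/

namespace Pool.Agent.Helper91K9.TW

open Finset Pool.Agent.Helper91K9.DL

variable {n : ℕ} {ι : Type}

theorem mix_mem {U : Finset (Fin n)} {z x : Cube n} {v : Fin n} (h : v ∈ U) :
    mix U z x v = z v := by unfold mix; rw [if_pos h]

theorem mix_not {U : Finset (Fin n)} {z x : Cube n} {v : Fin n} (h : v ∉ U) :
    mix U z x v = x v := by unfold mix; rw [if_neg h]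

theorem mix_eq {U : Finset (Fin n)} {z x : Cube n} (h : agr U z x) : mix U z x = x := by
  funext v
  by_cases hv : v ∈ U
  · rw [mix_mem hv, h v hv]
  · rw [mix_not hv]

theorem mix_self (U : Finset (Fin n)) (z : Cube n) : mix U z z = z := mix_eq fun _ _ => rfl

theorem agr_mono {S S' : Finset (Fin n)} {b x : Cube n} (h : S ⊆ S') (h' : agr S' b x) :
    agr S b x := fun v hv => h' v (h hv)

theorem agr_congr {S : Finset (Fin n)} {b x y : Cube n} (h : ∀ v ∈ S, x v = y v) :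
    agr S b x ↔ agr S b y := by
  unfold agr
  exact forall₂_congr fun v hv => by rw [h v hv]

/-- The inner terms are not satisfied. -/
def Inn (I : Finset ι) (T : ι → Finset (Fin n)) (a : ι → Cube n) (U V : Finset (Fin n))
    (B : Finset ι) (z x : Cube n) : Prop :=
  ∀ i ∈ I, i ∉ B → T i ⊆ U → ¬ agr (T i) (a i) (mix V z x)

/-- The outer terms are not satisfied. -/
def Out (I : Finset ι) (T : ι → Finset (Fin n)) (a : ι → Cube n) (U V : Finset (Fin n))
    (B : Finset ι) (z x : Cube n) : Prop :=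
  ∀ i ∈ I, i ∉ B → Disjoint (T i) (U \ V) → ¬ agr (T i) (a i) (mix V z x)

/-- The terms outside of both sides are not satisfied. -/
def Out2 (I : Finset ι) (T : ι → Finset (Fin n)) (a : ι → Cube n) (D D' W : Finset (Fin n))
    (B B' : Finset ι) (z x : Cube n) : Prop :=
  ∀ i ∈ I, i ∉ B → i ∉ B' → Disjoint (T i) D → Disjoint (T i) D' →
    ¬ agr (T i) (a i) (mix W z x)

theorem dep_inn (I : Finset ι) (T : ι → Finset (Fin n)) (a : ι → Cube n) (U V : Finset (Fin n))
    (B : Finset ι) (z : Cube n) : Dep (U \ V) (Inn I T a U V B z) := by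
  intro x y h
  unfold Inn
  refine forall₂_congr fun i _ => forall₂_congr fun _ hU => not_congr (agr_congr fun v hv => ?_)
  by_cases hvV : v ∈ V
  · rw [mix_mem hvV, mix_mem hvV]
  · rw [mix_not hvV, mix_not hvV]
    exact h v (mem_sdiff.2 ⟨hU hv, hvV⟩)

theorem dep_out (I : Finset ι) (T : ι → Finset (Fin n)) (a : ι → Cube n) (U V : Finset (Fin n))
    (B : Finset ι) (z : Cube n) : DepC U (Out I T a U V B z) := by
  intro x y h
  unfold Out
  refine forall₂_congr fun i _ => forall₂_congr fun _ hU => not_congr (agr_congr fun v hv => ?_)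
  by_cases hvV : v ∈ V
  · rw [mix_mem hvV, mix_mem hvV]
  · rw [mix_not hvV, mix_not hvV]
    refine h v fun hvU => ?_
    exact Finset.disjoint_left.1 hU hv (mem_sdiff.2 ⟨hvU, hvV⟩)

theorem dep_out2 (I : Finset ι) (T : ι → Finset (Fin n)) (a : ι → Cube n)
    (D D' W : Finset (Fin n)) (B B' : Finset ι) (z : Cube n) :
    DepC (D ∪ D') (Out2 I T a D D' W B B' z) := by
  intro x y h
  unfold Out2
  refine forall₂_congr fun i _ => forall₂_congr fun _ _ => forall₂_congr fun hD hD' =>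
    not_congr (agr_congr fun v hv => ?_)
  by_cases hvV : v ∈ W
  · rw [mix_mem hvV, mix_mem hvV]
  · rw [mix_not hvV, mix_not hvV]
    refine h v fun hvU => ?_
    rcases mem_union.1 hvU with h | h
    · exact Finset.disjoint_left.1 hD hv h
    · exact Finset.disjoint_left.1 hD' hv h

/-- The structure of the zeros in terms of two sides `D`, `D'` with the boundary `W`: outside of the
parts `G`, `G'`, `G0` only the terms in `X` matter. -/
structure Loc (f : Cube n → Prop) (T : ι → Finset (Fin n)) (a : ι → Cube n) (z : Cube n)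
    (W Q D D' : Finset (Fin n)) (X : Finset ι) (G G' G0 : Cube n → Prop) : Prop where
  dDD : Disjoint D D'
  dWD : Disjoint W D
  dWD' : Disjoint W D'
  QD : Q ⊆ D ∪ D'
  depG : Dep D G
  depG' : Dep D' G'
  depG0 : DepC (D ∪ D') G0
  split : ∀ x, agr W z x → agr Q z x → (¬ f x ↔ G x ∧ G' x ∧ G0 x ∧ ∀ i ∈ X,
    ¬ (agr (T i ∩ D) (a i) x ∧ agr (T i ∩ D') (a i) x ∧ agr (T i \ (D ∪ D' ∪ W)) (a i) x))

theorem Loc.symm {f : Cube n → Prop} {T : ι → Finset (Fin n)} {a : ι → Cube n} {z : Cube n}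
    {W Q D D' : Finset (Fin n)} {X : Finset ι} {G G' G0 : Cube n → Prop}
    (h : Loc f T a z W Q D D' X G G' G0) : Loc f T a z W Q D' D X G' G G0 where
  dDD := h.dDD.symm
  dWD := h.dWD'
  dWD' := h.dWD
  QD := by rw [union_comm]; exact h.QD
  depG := h.depG'
  depG' := h.depG
  depG0 := by rw [union_comm]; exact h.depG0
  split := fun x h1 h2 => by
    rw [h.split x h1 h2, union_comm D' D]
    constructor
    · rintro ⟨h3, h4, h5, h6⟩
      exact ⟨h4, h3, h5, fun i hi h7 => h6 i hi ⟨h7.2.1, h7.1, h7.2.2⟩⟩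
    · rintro ⟨h3, h4, h5, h6⟩
      exact ⟨h4, h3, h5, fun i hi h7 => h6 i hi ⟨h7.2.1, h7.1, h7.2.2⟩⟩

/-- The set `Q` kills all the terms which are killed by `z` inside `D`. -/
def Kl (T : ι → Finset (Fin n)) (a : ι → Cube n) (z : Cube n) (B : ι → Prop)
    (D Q : Finset (Fin n)) : Prop :=
  ∀ i, B i → ¬ agr (T i ∩ D) (a i) z → ¬ agr (T i ∩ (Q ∩ D)) (a i) z

/-- The probability of a zero given the values of `z` on `U`. -/
noncomputable def qq (f : Cube n → Prop) (U : Finset (Fin n)) (z : Cube n) : ℝ :=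
  PP (fun x => ¬ f (mix U z x))

theorem not_agr_of_qq {f : Cube n → Prop} {I : Finset ι} {T : ι → Finset (Fin n)}
    {a : ι → Cube n} (hf : ∀ x, f x ↔ ∃ i ∈ I, agr (T i) (a i) x) {U : Finset (Fin n)}
    {z : Cube n} (h : 0 < qq f U z) {i : ι} (hi : i ∈ I) (hU : T i ⊆ U) :
    ¬ agr (T i) (a i) z := by
  intro hag
  have h0 : qq f U z ≤ PP (fun _ : Cube n => ¬ True) := by
    refine PP_mono fun x hx => ?_
    exact absurd ((hf _).2 ⟨i, hi, fun v hv => by rw [mix_mem (hU hv)]; exact hag v hv⟩) hx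
  have h1 : PP (fun _ : Cube n => ¬ True) = 0 := by rw [PP_eq]; simp
  linarith

theorem exists_ne {S : Finset (Fin n)} {b x : Cube n} (h : ¬ agr S b x) :
    ∃ v ∈ S, x v ≠ b v := by
  unfold agr at h
  push Not at h
  exact h

theorem locOfSep {I : Finset ι} {T : ι → Finset (Fin n)} {a : ι → Cube n} {f : Cube n → Prop}
    (hf : ∀ x, f x ↔ ∃ i ∈ I, agr (T i) (a i) x) {t : ℕ} {U1 V1 U2 V2 : Finset (Fin n)}
    {B1 B2 : Finset ι} (hS : Sep I T t U1 V1 B1 U2 V2 B2) {z : Cube n} (h1 : 0 < qq f U1 z)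
    (h2 : 0 < qq f U2 z) {Q : Finset (Fin n)} (hQ : Q ⊆ (U1 \ V1) ∪ (U2 \ V2))
    (hQ1 : Kl T a z (fun i => i ∈ B1 ∨ i ∈ B2) (U1 \ V1) Q)
    (hQ2 : Kl T a z (fun i => i ∈ B1 ∨ i ∈ B2) (U2 \ V2) Q)
    {X : Finset ι} (hX : ∀ i, i ∈ X ↔ i ∈ B1 ∧ agr (T i ∩ (U1 ∪ U2)) (a i) z) :
    Loc f T a z (V1 ∪ V2) Q (U1 \ V1) (U2 \ V2) X (Inn I T a U1 V1 B1 z) (Inn I T a U2 V2 B2 z)
      (Out2 I T a (U1 \ V1) (U2 \ V2) (V1 ∪ V2) B1 B2 z) where
  dDD := by
    rw [Finset.disjoint_left]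
    intro v hv hv'
    rw [mem_sdiff] at hv hv'
    exact hv.2 (mem_inter.1 (hS.inter (mem_inter.2 ⟨hv.1, hv'.1⟩))).1
  dWD := by
    rw [Finset.disjoint_left]
    intro v hv hv'
    rw [mem_sdiff] at hv'
    rcases mem_union.1 hv with h | h
    · exact hv'.2 h
    · exact hv'.2 (mem_inter.1 (hS.inter (mem_inter.2 ⟨hv'.1, hS.sub2 h⟩))).1
  dWD' := by
    rw [Finset.disjoint_left]
    intro v hv hv'
    rw [mem_sdiff] at hv'
    rcases mem_union.1 hv with h | h
    · exact hv'.2 (mem_inter.1 (hS.inter (mem_inter.2 ⟨hS.sub1 h, hv'.1⟩))).2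
    · exact hv'.2 h
  QD := hQ
  depG := dep_inn _ _ _ _ _ _ _
  depG' := dep_inn _ _ _ _ _ _ _
  depG0 := dep_out2 _ _ _ _ _ _ _ _ _
  split := by
    intro x hW hQx
    have hV1 : agr V1 z x := agr_mono subset_union_left hW
    have hV2 : agr V2 z x := agr_mono subset_union_right hW
    have hcov : ∀ v, v ∈ U1 ∪ U2 → v ∈ V1 ∪ V2 ∨ v ∈ U1 \ V1 ∨ v ∈ U2 \ V2 := by
      intro v hv
      simp only [mem_union, mem_sdiff] at hv ⊢
      tauto
    -- a term falsified by `z` on `U1 ∪ U2` is falsified by `x`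
    have hkill : ∀ i, (i ∈ B1 ∨ i ∈ B2) → ¬ agr (T i ∩ (U1 ∪ U2)) (a i) z → ¬ agr (T i) (a i) x := by
      intro i hi hz hx
      obtain ⟨v, hv, hne⟩ := exists_ne hz
      rw [mem_inter] at hv
      rcases hcov v hv.2 with h | h | h
      · exact hne (by rw [← hx v hv.1, hW v h])
      · have h3 : ¬ agr (T i ∩ (U1 \ V1)) (a i) z := fun hc => hne (hc v (mem_inter.2 ⟨hv.1, h⟩))
        obtain ⟨w, hw, hwne⟩ := exists_ne (hQ1 i hi h3)
        rw [mem_inter, mem_inter] at hw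
        exact hwne (by rw [← hx w hw.1, hQx w hw.2.1])
      · have h3 : ¬ agr (T i ∩ (U2 \ V2)) (a i) z := fun hc => hne (hc v (mem_inter.2 ⟨hv.1, h⟩))
        obtain ⟨w, hw, hwne⟩ := exists_ne (hQ2 i hi h3)
        rw [mem_inter, mem_inter] at hw
        exact hwne (by rw [← hx w hw.1, hQx w hw.2.1])
    constructor
    · intro hfx
      have hno : ∀ i ∈ I, ¬ agr (T i) (a i) x := fun i hi h => hfx ((hf x).2 ⟨i, hi, h⟩)
      refine ⟨fun i hi _ _ => ?_, fun i hi _ _ => ?_, fun i hi _ _ _ _ => ?_, fun i hi hag => ?_⟩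
      · rw [mix_eq hV1]; exact hno i hi
      · rw [mix_eq hV2]; exact hno i hi
      · rw [mix_eq hW]; exact hno i hi
      · obtain ⟨hiB, hiz⟩ := (hX i).1 hi
        refine hno i (hS.subB1 hiB) fun v hv => ?_
        by_cases h3 : v ∈ (U1 \ V1) ∪ (U2 \ V2) ∪ (V1 ∪ V2)
        · rcases mem_union.1 h3 with h3 | h3
          · rcases mem_union.1 h3 with h3 | h3
            · exact hag.1 v (mem_inter.2 ⟨hv, h3⟩)
            · exact hag.2.1 v (mem_inter.2 ⟨hv, h3⟩)
          · rw [hW v h3]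
            refine hiz v (mem_inter.2 ⟨hv, ?_⟩)
            rcases mem_union.1 h3 with h4 | h4
            · exact mem_union_left _ (hS.sub1 h4)
            · exact mem_union_right _ (hS.sub2 h4)
        · exact hag.2.2 v (mem_sdiff.2 ⟨hv, h3⟩)
    · rintro ⟨h3, h4, h5, h6⟩ hfx
      obtain ⟨i, hi, hag⟩ := (hf x).1 hfx
      by_cases hi1 : i ∈ B1
      · by_cases hiX : i ∈ X
        · exact h6 i hiX ⟨agr_mono inter_subset_left hag, agr_mono inter_subset_left hag,
            agr_mono sdiff_subset hag⟩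
        · have h7 : ¬ agr (T i ∩ (U1 ∪ U2)) (a i) z := fun hc => hiX ((hX i).2 ⟨hi1, hc⟩)
          exact hkill i (Or.inl hi1) h7 hag
      · by_cases hi2 : i ∈ B2
        · have h7 := not_agr_of_qq hf h2 hi (hS.b21 i hi2 hi1)
          refine hkill i (Or.inr hi2) (fun hc => h7 fun v hv => ?_) hag
          exact hc v (mem_inter.2 ⟨hv, mem_union_right _ (hS.b21 i hi2 hi1 hv)⟩)
        · rcases hS.t1 i hi hi1 with h7 | h7
          · exact h3 i hi hi1 h7 (by rw [mix_eq hV1]; exact hag)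
          · rcases hS.t2 i hi hi2 with h8 | h8
            · exact h4 i hi hi2 h8 (by rw [mix_eq hV2]; exact hag)
            · exact h5 i hi hi1 hi2 h7 h8 (by rw [mix_eq hW]; exact hag)

/-- The pure world of the side `D`. -/
def Pure (f : Cube n → Prop) (z : Cube n) (D Q : Finset (Fin n)) (G : Cube n → Prop) (ϑ : ℝ)
    (k : ℕ) : Prop :=
  ∃ (V : Finset (Fin n)) (E : Finset (Fin n × Bool)) (O : Cube n → Prop), Disjoint V D ∧
    (∀ l ∈ E, l.1 ∉ D) ∧ V.card + E.card ≤ k ∧ DepC D O ∧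
    (∀ x, agr V z x → agr (Q ∩ D) z x → satL E x → (¬ f x ↔ G x ∧ O x)) ∧
    ϑ ≤ PP (fun x => agr V z x ∧ satL E x ∧ O x)

theorem kill' (hK : S_KILL) (H : Finset ι) (P : ι → Finset (Fin n)) (a : ι → Cube n)
    (G : Cube n → Prop) (θ : ℝ) (hθ : 0 < θ) (k : ℕ) (hk : H.card ≤ k)
    (h : θ ≤ PP (fun x => G x ∧ ∀ i ∈ H, ¬ agr (P i) (a i) x)) :
    ∃ E : Finset (Fin n × Bool), E.card ≤ k ∧ (∀ i ∈ H, ∃ v ∈ P i, (v, !(a i v)) ∈ E) ∧
    (∀ l ∈ E, ∃ i ∈ H, l.1 ∈ P i) ∧ θ / ((n : ℝ) + 1) ^ k ≤ PP (fun x => G x ∧ satL E x) := by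
  obtain ⟨E, h1, h2, h3, h4⟩ := hK n ι H P a G θ hθ h
  refine ⟨E, h1.trans hk, h2, h3, le_trans ?_ h4⟩
  have hn1 : (1 : ℝ) ≤ (n : ℝ) + 1 := by
    have : (0 : ℝ) ≤ n := Nat.cast_nonneg n
    linarith
  rcases H.eq_empty_or_nonempty with rfl | ⟨i, hi⟩
  · rw [card_empty, pow_zero, div_one]
    exact div_le_self hθ.le (one_le_pow₀ hn1)
  · obtain ⟨v, -, -⟩ := h2 i hi
    have hn : (0 : ℝ) < n := by exact_mod_cast Fin.pos v
    refine div_le_div_of_nonneg_left hθ.le (by positivity) ?_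
    calc (n : ℝ) ^ H.card ≤ ((n : ℝ) + 1) ^ H.card :=
          pow_le_pow_left₀ hn.le (by linarith) _
      _ ≤ ((n : ℝ) + 1) ^ k := pow_le_pow_right₀ hn1 hk

theorem satL_kill {E : Finset (Fin n × Bool)} {x : Cube n} (hx : satL E x) {S : Finset (Fin n)}
    {b : Cube n} (h : ∃ v ∈ S, (v, !(b v)) ∈ E) : ¬ agr S b x := by
  obtain ⟨v, hv, hE⟩ := h
  intro hag
  have h1 := hag v hv
  have h2 := hx _ hE
  simp only at h2
  rw [h1] at h2
  cases hb : b v <;> simp [hb] at h2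

theorem pureOfSide (hK : S_KILL) {I : Finset ι} {T : ι → Finset (Fin n)} {a : ι → Cube n}
    {f : Cube n → Prop} (hf : ∀ x, f x ↔ ∃ i ∈ I, agr (T i) (a i) x) {U V : Finset (Fin n)}
    {B : Finset ι} (hVU : V ⊆ U) (hB : B ⊆ I)
    (ht : ∀ i ∈ I, i ∉ B → T i ⊆ U ∨ Disjoint (T i) (U \ V)) {z : Cube n} {ϑ : ℝ} (hϑ : 0 < ϑ)
    (hq : ϑ ≤ qq f U z) {Q : Finset (Fin n)} (hQ : Kl T a z (fun i => i ∈ B) (U \ V) Q)
    {k : ℕ}
    (hk : V.card + B.card ≤ k) :
    Pure f z (U \ V) Q (Inn I T a U V B z) (ϑ / (2 * ((n : ℝ) + 1)) ^ k) k := by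
  classical
  set X' := B.filter fun i => agr (T i ∩ U) (a i) z with hX'
  have hle : ϑ ≤ PP (fun x => Out I T a U V B z x ∧ ∀ i ∈ X', ¬ agr (T i \ U) (a i) x) := by
    refine hq.trans (PP_mono fun x hx => ?_)
    have hno : ∀ i ∈ I, ¬ agr (T i) (a i) (mix U z x) := fun i hi h => hx ((hf _).2 ⟨i, hi, h⟩)
    refine ⟨fun i hi _ hdis hag => hno i hi ?_, fun i hi hag => ?_⟩
    · refine (agr_congr fun v hv => ?_).1 hag
      by_cases hvV : v ∈ V
      · rw [mix_mem hvV, mix_mem (hVU hvV)]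
      · rw [mix_not hvV, mix_not]
        intro hvU
        exact Finset.disjoint_left.1 hdis hv (mem_sdiff.2 ⟨hvU, hvV⟩)
    · rw [hX', mem_filter] at hi
      refine hno i (hB hi.1) fun v hv => ?_
      by_cases hvU : v ∈ U
      · rw [mix_mem hvU]; exact hi.2 v (mem_inter.2 ⟨hv, hvU⟩)
      · rw [mix_not hvU]; exact hag v (mem_sdiff.2 ⟨hv, hvU⟩)
  obtain ⟨E, hE1, hE2, hE3, hE4⟩ := kill' hK X' (fun i => T i \ U) a _ ϑ hϑ B.card
    (card_le_card (filter_subset _ _)) hle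
  have hEU : ∀ l ∈ E, l.1 ∉ U := by
    intro l hl
    obtain ⟨i, _, hi⟩ := hE3 l hl
    exact (mem_sdiff.1 hi).2
  have hdC : DepC (U \ V) (Out I T a U V B z) := by
    intro x y h
    have h1 : Out I T a U V B z x ↔ Out I T a U V B z (fun v => if v ∈ U then y v else x v) :=
      dep_out I T a U V B z _ _ fun v hv => by simp [hv]
    have h2 : Out I T a U V B z y ↔ Out I T a U V B z (fun v => if v ∈ U then y v else x v) := by
      refine dep_out I T a U V B z _ _ fun v hv => ?_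
      simp only [hv, if_false]
      exact (h v fun hc => hv (mem_sdiff.1 hc).1).symm
    rw [h1, h2]
  refine ⟨V, E, Out I T a U V B z, disjoint_sdiff, fun l hl h => hEU l hl (mem_sdiff.1 h).1,
    by omega, hdC, fun x hV hQx hEx => ?_, ?_⟩
  · constructor
    · intro hfx
      have hno : ∀ i ∈ I, ¬ agr (T i) (a i) x := fun i hi h => hfx ((hf x).2 ⟨i, hi, h⟩)
      refine ⟨fun i hi _ _ => ?_, fun i hi _ _ => ?_⟩
      · rw [mix_eq hV]; exact hno i hi
      · rw [mix_eq hV]; exact hno i hi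
    · rintro ⟨h3, h4⟩ hfx
      obtain ⟨i, hi, hag⟩ := (hf x).1 hfx
      by_cases hiB : i ∈ B
      · by_cases hiX : agr (T i ∩ U) (a i) z
        · exact satL_kill hEx (hE2 i (mem_filter.2 ⟨hiB, hiX⟩)) (agr_mono sdiff_subset hag)
        · obtain ⟨v, hv, hne⟩ := exists_ne hiX
          rw [mem_inter] at hv
          by_cases hvV : v ∈ V
          · exact hne (by rw [← hag v hv.1, hV v hvV])
          · have h5 : ¬ agr (T i ∩ (U \ V)) (a i) z := fun hc =>
              hne (hc v (mem_inter.2 ⟨hv.1, mem_sdiff.2 ⟨hv.2, hvV⟩⟩))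
            obtain ⟨w, hw, hwne⟩ := exists_ne (hQ i hiB h5)
            rw [mem_inter] at hw
            exact hwne (by rw [← hag w hw.1, hQx w hw.2])
      · rcases ht i hi hiB with h7 | h7
        · exact h3 i hi hiB h7 (by rw [mix_eq hV]; exact hag)
        · exact h4 i hi hiB h7 (by rw [mix_eq hV]; exact hag)
  · have hind := indep V (agr V z) (fun x => satL E x ∧ Out I T a U V B z x)
      (fun x y h => agr_congr h) (fun x y h => by
        refine and_congr ?_ (dep_out I T a U V B z x y fun v hv => h v fun hc => hv (hVU hc))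
        unfold satL
        exact forall₂_congr fun l hl => by rw [h l.1 fun hc => hEU l hl (hVU hc)])
    rw [hind, PP_agr]
    have h5 : PP (fun x => satL E x ∧ Out I T a U V B z x) =
        PP (fun x => Out I T a U V B z x ∧ satL E x) := PP_congr fun x => and_comm
    rw [h5]
    have hn1 : (1 : ℝ) ≤ (n : ℝ) + 1 := by
      have : (0 : ℝ) ≤ n := Nat.cast_nonneg n
      linarith
    calc ϑ / (2 * ((n : ℝ) + 1)) ^ k = (1 / 2) ^ k * (ϑ / ((n : ℝ) + 1) ^ k) := by
          rw [mul_pow, one_div, inv_pow, ← div_eq_inv_mul, div_div, mul_comm]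
      _ ≤ (1 / 2) ^ V.card * (ϑ / ((n : ℝ) + 1) ^ B.card) := by
          refine mul_le_mul (pow_le_pow_of_le_one (by norm_num) (by norm_num) (by omega)) ?_
            (by positivity) (by positivity)
          exact div_le_div_of_nonneg_left hϑ.le (by positivity)
            (pow_le_pow_right₀ hn1 (by omega))
      _ ≤ _ := mul_le_mul_of_nonneg_left hE4 (by positivity)

end Pool.Agent.Helper91K9.TW
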