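import Pool.Agent.Helper91K9.TW.Merge
import Pool.Agent.Helper91K9.DL.Main

/-!
# DNF formulas of bounded incidence treewidth: assembly
-/

namespace Pool.Agent.Helper91K9.TW

open Finset Pool.Agent.NPC Pool.Agent.H424R2.PPAD Pool.Agent.Helper91K9.DL

variable {n m : ℕ} {ι : Type}

/-- The point `z` is covered by a candidate which will be accepted. -/
def Cov (k0 J : ℕ) (θ : ℕ → ℝ) (Kf Qf : ℕ → ℕ) (F : List (List (ℕ × Bool)))
    (Xs : Fin m → Cube n) (z : Cube n) : Prop :=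
  ∃ j < J, ∃ A ∈ cands3 (9 * k0) (2 * k0) n m (Kf j) (Qf j) (negs (smp F Xs)),
    (∀ l ∈ A, l.1 < n) ∧ satL (UU n A) z ∧ NN (ff n F) (UU n A) ≤ 8 ^ k0 * θ (j + 1)

theorem cov_all (hK : S_KILL) (hD1 : S_DET1) (hD2 : S_DET2) (hSz : S_SIZE) (hSub : S_SUBS)
    (hGap : S_GAP) {F : List (List (ℕ × Bool))} {Xs : Fin m → Cube n} {τ : ℝ}
    (hG : Good Xs (ff n F) τ) {I : Finset ι} {T : ι → Finset (Fin n)} {a : ι → Cube n}
    (hf : ∀ x, ff n F x ↔ ∃ i ∈ I, agr (T i) (a i) x) {k0 J : ℕ} {θ : ℕ → ℝ}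
    (hθ : ∀ j, θ (j + 1) ≤ θ j) {Kf Qf : ℕ → ℕ}
    (hs : ∀ j < J, Scl n m (9 * k0) k0 (Kf j) (Qf j) (θ j) (θ (j + 1))
      (θ J / (2 * ((n : ℝ) + 1)) ^ k0) τ) (hJ : 3 * 2 ^ k0 < J) (hθJ : 0 < θ J) {t : ℕ}
    (ht : t + 1 = k0) {K : Finset ℕ}
    {U1 V1 : ℕ → Finset (Fin n)} {B1 : ℕ → Finset ι} {U2 V2 : ℕ → Finset (Fin n)}
    {B2 : ℕ → Finset ι} {U : Finset (Fin n)}
    (hSep : ∀ k ∈ K, Sep I T t (U1 k) (V1 k) (B1 k) (U2 k) (V2 k) (B2 k))
    (hU : ∀ i ∈ I, T i ⊆ U)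
    (hgood : ∀ good : Finset (Fin n) → Prop, (∀ W : Finset (Fin n), W.card ≤ t + 1 → good W) →
      (∀ k ∈ K, good (U1 k) → good (U2 k) → good (U1 k ∪ U2 k)) → good U)
    {z : Cube n} (hz : ff n F z)
    (hneg : ∀ k ∈ K, ∀ Q : Finset (Fin n), Q.card ≤ 4 * k0 → ∀ X ⊆ B1 k,
      Evt I T a (U1 k) (V1 k) (B1 k) (U2 k) (V2 k) (B2 k) Q X z z →
        θ 0 < PP (Evt I T a (U1 k) (V1 k) (B1 k) (U2 k) (V2 k) (B2 k) Q X z)) :
    Cov k0 J θ Kf Qf F Xs z := by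
  classical
  by_contra hcov
  have key := hgood (fun W => θ J ≤ qq (ff n F) W z) (fun W hW => by
    by_contra hlt
    push Not at hlt
    refine hcov ⟨J - 1, by omega, litsOf z W, ?_, litsOf_vars z W, ?_, ?_⟩
    · unfold cands3
      refine List.mem_flatMap.2 ⟨litsOf z W, ?_, List.mem_map.2 ⟨[], ?_, by simp⟩⟩
      · exact mem_parts (by rw [length_litsOf]; omega) (litsOf_vars z W)
      · have h3 : ([] : List (ℕ × Bool)) ∈ comb (pieces (9 * k0) n m (Kf (J - 1)) (Qf (J - 1))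
            (negs (smp F Xs))) 0 := by simp [comb]
        have h4 := comb_pad (by unfold pieces; exact List.mem_cons_self) h3 (2 * k0)
        rwa [Nat.zero_add] at h4
    · rw [satL_litsOf]; exact fun _ _ => rfl
    · have h3 : NN (ff n F) (UU n (litsOf z W)) ≤ qq (ff n F) W z := by
        refine PP_mono fun x hx => ?_
        rw [satL_litsOf] at hx
        rw [mix_eq hx.2]
        exact hx.1
      have h4 : J - 1 + 1 = J := by omega
      rw [h4]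
      have h5 : θ J ≤ 8 ^ k0 * θ J := by
        have : (1 : ℝ) ≤ 8 ^ k0 := one_le_pow₀ (by norm_num)
        nlinarith
      linarith) (fun k hk h1 h2 => by
    by_contra hlt
    push Not at hlt
    exact hcov (merge_cov hK hD1 hD2 hSz hSub hGap hG hf hθ hs hJ hθJ ht (hSep k hk) h1 h2 hlt
      (hneg k hk)))
  obtain ⟨i, hi, hag⟩ := (hf z).1 hz
  exact not_agr_of_qq hf (lt_of_lt_of_le hθJ key) hi (hU i hi) hag

theorem ct_le_of (F : List (List (ℕ × Bool))) (Xs : Fin m → Cube n) {τ : ℝ}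
    (hG : Good Xs (ff n F) τ) (A : List (ℕ × Bool)) (hA : ∀ l ∈ A, l.1 < n) {D : ℕ} {x : ℝ}
    (hN : NN (ff n F) (UU n A) ≤ x) (hD : (D : ℝ) * (x + τ) ≤ 1) :
    D * ct (negs (smp F Xs)) A ≤ m := by
  have h1 := (abs_le.1 (ct_close hG A hA)).2
  have hm0 : (0 : ℝ) ≤ m := Nat.cast_nonneg m
  have h2 : (ct (negs (smp F Xs)) A : ℝ) ≤ m * (x + τ) := by nlinarith
  have h3 : (D : ℝ) * ct (negs (smp F Xs)) A ≤ m := by
    calc (D : ℝ) * ct (negs (smp F Xs)) A ≤ D * (m * (x + τ)) :=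
          mul_le_mul_of_nonneg_left h2 (Nat.cast_nonneg D)
      _ = m * (D * (x + τ)) := by ring
      _ ≤ m * 1 := mul_le_mul_of_nonneg_left hD hm0
      _ = m := mul_one _
  exact_mod_cast h3

theorem NN_le_of (F : List (List (ℕ × Bool))) (Xs : Fin m → Cube n) {τ : ℝ} (hm : 0 < m)
    (hG : Good Xs (ff n F) τ) (A : List (ℕ × Bool)) (hA : ∀ l ∈ A, l.1 < n) {D : ℕ} (hD : 0 < D)
    (h : D * ct (negs (smp F Xs)) A ≤ m) : NN (ff n F) (UU n A) ≤ 1 / D + τ := by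
  have h1 := (abs_le.1 (ct_close hG A hA)).1
  have hm0 : (0 : ℝ) < m := by exact_mod_cast hm
  have hD0 : (0 : ℝ) < D := by exact_mod_cast hD
  have h2 : (D : ℝ) * ct (negs (smp F Xs)) A ≤ m := by exact_mod_cast h
  have h3 : (ct (negs (smp F Xs)) A : ℝ) ≤ m * (1 / D) := by
    rw [mul_one_div, le_div_iff₀ hD0]; linarith
  have h4 : (m : ℝ) * NN (ff n F) (UU n A) ≤ m * (1 / D + τ) := by
    rw [mul_add]; linarith
  exact le_of_mul_le_mul_left h4 hm0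

theorem correct3 (hK : S_KILL) (hD1 : S_DET1) (hD2 : S_DET2) (hSz : S_SIZE) (hSub : S_SUBS)
    (hGap : S_GAP) (hCls : S_CLASS) (hSmall : S_SMALL) (hLen : S_LEN) (hT1 : S_TREE1)
    (hT2 : S_TREE2) {k0 : ℕ} {b kk Qe dd : ℕ → ℕ} {K' : ℕ} {al : ℕ} (hal : 1 ≤ al) (hm : 0 < m)
    {F : List (List (ℕ × Bool))} {I : Finset ι} {T : ι → Finset (Fin n)} {a : ι → Cube n}
    (hf : ∀ x, ff n F x ↔ ∃ i ∈ I, agr (T i) (a i) x) (hI : I.card ≤ al) {t : ℕ}
    (ht : t + 1 = k0) {N : Finset ℕ} {p : ℕ → ℕ} {V : ℕ → Finset (Fin n)} {B : ℕ → Finset ι}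
    (hTD : TD I T t N p V B)
    (n1 : ∀ j < 3 * 2 ^ k0 + 1, Scl n m (9 * k0) k0 ((n + al + 2) ^ kk j) ((n + al + 2) ^ Qe j)
      (1 / ((n + al + 2 : ℕ) : ℝ) ^ b j) (1 / ((n + al + 2 : ℕ) : ℝ) ^ b (j + 1))
      (1 / ((n + al + 2 : ℕ) : ℝ) ^ b (3 * 2 ^ k0 + 1) / (2 * ((n : ℝ) + 1)) ^ k0)
      (1 / ((n + al + 2 : ℕ) : ℝ) ^ K'))
    (n2 : ∀ j, b j ≤ b (j + 1))
    (n3 : ((n : ℝ) + al + 1) * ((n + 1) ^ (4 * k0) * (2 ^ k0 * (2 ^ (6 * k0) *
      (1 / ((n + al + 2 : ℕ) : ℝ) ^ b 0)))) ≤ 1 / (2 * al))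
    (n4 : ∀ j < 3 * 2 ^ k0 + 1, ((n + al + 2 : ℕ) : ℝ) ^ dd j *
      (8 ^ k0 * (1 / ((n + al + 2 : ℕ) : ℝ) ^ b (j + 1)) + 1 / ((n + al + 2 : ℕ) : ℝ) ^ K') ≤ 1)
    (n5 : ∀ j < 3 * 2 ^ k0 + 1, ((3 * 2 ^ k0 + 1 : ℕ) : ℝ) * (((2 * n + 1) ^ (9 * k0) *
      (1 + (2 * n + 1) ^ (4 * (9 * k0)) * max 1 ((n + al + 2) ^ Qe j)) ^ (2 * k0) : ℕ) : ℝ) *
      (1 / ((n + al + 2 : ℕ) : ℝ) ^ dd j + 1 / ((n + al + 2 : ℕ) : ℝ) ^ K') ≤ 1 / (2 * al))
    (Xs : Fin m → Cube n) (hG : Good Xs (ff n F) (1 / ((n + al + 2 : ℕ) : ℝ) ^ K')) :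
    PP (fun x : Cube n => dnfVal (learn3 (9 * k0) (2 * k0)
      ((List.range (3 * 2 ^ k0 + 1)).map fun j => (kk j, Qe j, dd j)) (al, smp F Xs))
        (List.ofFn x) ≠ dnfVal F (List.ofFn x)) ≤ 1 / al := by
  classical
  set q : ℕ := n + al + 2 with hq
  set J := 3 * 2 ^ k0 + 1 with hJ
  set θ : ℕ → ℝ := fun j => 1 / (q : ℝ) ^ b j with hθd
  set τ : ℝ := 1 / (q : ℝ) ^ K' with hτ
  have hq0 : (0 : ℝ) < q := by exact_mod_cast (by omega : 0 < q)
  have hq1 : (1 : ℝ) ≤ q := by exact_mod_cast (by omega : 1 ≤ q)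
  have hal0 : (0 : ℝ) < al := by exact_mod_cast hal
  have hθ : ∀ j, θ (j + 1) ≤ θ j := fun j => by
    rw [hθd]
    exact one_div_le_one_div_of_le (by positivity) (pow_le_pow_right₀ hq1 (n2 j))
  have hθ0 : ∀ j, 0 < θ j := fun j => by rw [hθd]; positivity
  have hτ0 : 0 ≤ τ := by rw [hτ]; positivity
  obtain ⟨N', p', hN', hTD'⟩ := hT1 n ι I T t N p V B hTD
  obtain ⟨U1, V1, B1, U2, V2, B2, U, hSep, hU, hgood⟩ := hT2 n ι I T t N' p' V B hTD'
  have hnv : nvars (smp F Xs) = n := by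
    unfold nvars smp
    obtain ⟨m', rfl⟩ : ∃ m', m = m' + 1 := ⟨m - 1, by omega⟩
    simp
  have hlen : (smp F Xs).length = m := by unfold smp; simp
  set H := learn3 (9 * k0) (2 * k0) ((List.range J).map fun j => (kk j, Qe j, dd j))
    (al, smp F Xs) with hH
  have hHmem : ∀ A, A ∈ H ↔ ∃ j < J, A ∈ cands3 (9 * k0) (2 * k0) n m (q ^ kk j) (q ^ Qe j)
      (negs (smp F Xs)) ∧ q ^ dd j * ct (negs (smp F Xs)) A ≤ m := by
    intro A
    rw [hH]
    unfold learn3 level thr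
    simp only [hnv, hlen, List.mem_flatMap, List.mem_map, List.mem_range, List.mem_filter,
      decide_eq_true_iff]
    constructor
    · rintro ⟨e, ⟨j, hj, rfl⟩, h⟩
      exact ⟨j, hj, h⟩
    · rintro ⟨j, hj, h⟩
      exact ⟨_, ⟨j, hj, rfl⟩, h⟩
  -- the negligible points
  set Sm := (univ : Finset (Finset (Fin n))).filter fun Q => Q.card ≤ 4 * k0 with hSm
  set Ngl : Cube n → Prop := fun x => ∃ k ∈ N', ∃ Q ∈ Sm, ∃ X ∈ (B1 k).powerset,
    Evt I T a (U1 k) (V1 k) (B1 k) (U2 k) (V2 k) (B2 k) Q X x x ∧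
      PP (Evt I T a (U1 k) (V1 k) (B1 k) (U2 k) (V2 k) (B2 k) Q X x) ≤ θ 0 with hNgl
  have hNglP : PP Ngl ≤ 1 / (2 * al) := by
    refine le_trans ?_ n3
    refine (PP_exists_le _ _).trans ?_
    have h1 : ∀ k ∈ N', PP (fun x => ∃ Q ∈ Sm, ∃ X ∈ (B1 k).powerset,
        Evt I T a (U1 k) (V1 k) (B1 k) (U2 k) (V2 k) (B2 k) Q X x x ∧
        PP (Evt I T a (U1 k) (V1 k) (B1 k) (U2 k) (V2 k) (B2 k) Q X x) ≤ θ 0) ≤
        ((n : ℝ) + 1) ^ (4 * k0) * (2 ^ k0 * (2 ^ (6 * k0) * θ 0)) := by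
      intro k hk
      have c1 := (hSep k hk).card1
      have c2 := (hSep k hk).card2
      refine (PP_exists_le _ _).trans ?_
      have h2 : ∀ Q ∈ Sm, PP (fun x => ∃ X ∈ (B1 k).powerset,
          Evt I T a (U1 k) (V1 k) (B1 k) (U2 k) (V2 k) (B2 k) Q X x x ∧
          PP (Evt I T a (U1 k) (V1 k) (B1 k) (U2 k) (V2 k) (B2 k) Q X x) ≤ θ 0) ≤
          2 ^ k0 * (2 ^ (6 * k0) * θ 0) := by
        intro Q hQ
        have hQc : Q.card ≤ 4 * k0 := (mem_filter.1 hQ).2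
        refine (PP_exists_le _ _).trans ?_
        have h3 : ∀ X ∈ (B1 k).powerset, PP (fun x =>
            Evt I T a (U1 k) (V1 k) (B1 k) (U2 k) (V2 k) (B2 k) Q X x x ∧
            PP (Evt I T a (U1 k) (V1 k) (B1 k) (U2 k) (V2 k) (B2 k) Q X x) ≤ θ 0) ≤
            2 ^ (6 * k0) * θ 0 := by
          intro X _
          refine (hCls n (V1 k ∪ V2 k ∪ Q) _ (θ 0) (hθ0 0).le
            (Evt_congr I T a (U1 k) (V1 k) (B1 k) (U2 k) (V2 k) (B2 k) Q X)).trans ?_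
          refine mul_le_mul_of_nonneg_right (pow_le_pow_right₀ (by norm_num) ?_) (hθ0 0).le
          have e1 := card_union_le (V1 k ∪ V2 k) Q
          have e2 := card_union_le (V1 k) (V2 k)
          omega
        refine (sum_le_card_nsmul _ _ _ h3).trans ?_
        rw [nsmul_eq_mul, card_powerset]
        refine mul_le_mul_of_nonneg_right ?_ (mul_nonneg (by positivity) (hθ0 0).le)
        push_cast
        exact pow_le_pow_right₀ (by norm_num) (by omega)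
      refine (sum_le_card_nsmul _ _ _ h2).trans ?_
      rw [nsmul_eq_mul]
      refine mul_le_mul_of_nonneg_right ?_
        (mul_nonneg (by positivity) (mul_nonneg (by positivity) (hθ0 0).le))
      exact_mod_cast hSmall n (4 * k0)
    refine (sum_le_card_nsmul _ _ _ h1).trans ?_
    rw [nsmul_eq_mul]
    refine mul_le_mul_of_nonneg_right ?_ (mul_nonneg (by positivity)
      (mul_nonneg (by positivity) (mul_nonneg (by positivity) (hθ0 0).le)))
    have h4 : N'.card ≤ n + al + 1 := hN'.trans (by omega)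
    exact_mod_cast h4
  -- the points which are covered
  have hcovx : ∀ x, ff n F x → ¬ Ngl x → dnfVal H (List.ofFn x) = true := by
    intro x hx hnx
    obtain ⟨j, hj, A, hA, hAv, hAx, hAN⟩ := cov_all (m := m) hK hD1 hD2 hSz hSub hGap hG hf hθ
      (Kf := fun j => q ^ kk j) (Qf := fun j => q ^ Qe j) n1 (by omega) (hθ0 J) ht hSep hU hgood hx
      (fun k hk Q hQ X hX hE => by
        by_contra hcon
        push Not at hcon
        exact hnx ⟨k, hk, Q, mem_filter.2 ⟨mem_univ _, hQ⟩, X, mem_powerset.2 hX, hE, hcon⟩)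
    unfold dnfVal
    rw [List.any_eq_true]
    refine ⟨A, (hHmem A).2 ⟨j, hj, hA, ?_⟩, (termVal_iff A hAv x).2 hAx⟩
    refine ct_le_of F Xs hG A hAv hAN ?_
    have := n4 j hj
    push_cast at this ⊢
    exact this
  -- the false positives
  have hfp : PP (fun x : Cube n => ¬ ff n F x ∧ dnfVal H (List.ofFn x) = true) ≤ 1 / (2 * al) := by
    have h2 : PP (fun x : Cube n => ¬ ff n F x ∧ dnfVal H (List.ofFn x) = true) ≤
        PP (fun x : Cube n => ∃ j ∈ range J, ∃ C ∈ ((cands3 (9 * k0) (2 * k0) n m (q ^ kk j)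
          (q ^ Qe j) (negs (smp F Xs))).filter fun A => decide
            (q ^ dd j * ct (negs (smp F Xs)) A ≤ m)).toFinset,
              ¬ ff n F x ∧ satL (UU n C) x) := by
      refine PP_mono fun x hx => ?_
      obtain ⟨hx1, hx2⟩ := hx
      unfold dnfVal at hx2
      rw [List.any_eq_true] at hx2
      obtain ⟨C, hC, hCx⟩ := hx2
      obtain ⟨j, hj, hC1, hC2⟩ := (hHmem C).1 hC
      refine ⟨j, mem_range.2 hj, C, ?_, hx1, ?_⟩
      · rw [List.mem_toFinset, List.mem_filter, decide_eq_true_iff]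
        exact ⟨hC1, hC2⟩
      · exact (termVal_iff C ((hLen _ _ _ _ _ _ _).2 C hC1) x).1 hCx
    refine h2.trans ((PP_exists_le _ _).trans ?_)
    have hJ0 : (0 : ℝ) < (J : ℝ) := by exact_mod_cast (by omega : 0 < J)
    have h3 : ∀ j ∈ range J, PP (fun x : Cube n => ∃ C ∈ ((cands3 (9 * k0) (2 * k0) n m (q ^ kk j)
          (q ^ Qe j) (negs (smp F Xs))).filter fun A => decide
            (q ^ dd j * ct (negs (smp F Xs)) A ≤ m)).toFinset,
              ¬ ff n F x ∧ satL (UU n C) x) ≤ 1 / (2 * al) / J := by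
      intro j hj
      have hj' := mem_range.1 hj
      refine (PP_exists_le _ _).trans ?_
      have h4 : ∀ C ∈ ((cands3 (9 * k0) (2 * k0) n m (q ^ kk j)
          (q ^ Qe j) (negs (smp F Xs))).filter fun A => decide
            (q ^ dd j * ct (negs (smp F Xs)) A ≤ m)).toFinset,
          PP (fun x : Cube n => ¬ ff n F x ∧ satL (UU n C) x) ≤ 1 / ((q ^ dd j : ℕ) : ℝ) + τ := by
        intro C hC
        rw [List.mem_toFinset, List.mem_filter, decide_eq_true_iff] at hC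
        exact NN_le_of F Xs hm hG C ((hLen _ _ _ _ _ _ _).2 C hC.1)
          (Nat.pow_pos (by omega)) hC.2
      refine (sum_le_card_nsmul _ _ _ h4).trans ?_
      rw [nsmul_eq_mul, le_div_iff₀ hJ0]
      have h5 := n5 j hj'
      have h6 : ((((cands3 (9 * k0) (2 * k0) n m (q ^ kk j)
          (q ^ Qe j) (negs (smp F Xs))).filter fun A => decide
            (q ^ dd j * ct (negs (smp F Xs)) A ≤ m)).toFinset.card : ℕ) : ℝ) ≤
          (((2 * n + 1) ^ (9 * k0) *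
            (1 + (2 * n + 1) ^ (4 * (9 * k0)) * max 1 (q ^ Qe j)) ^ (2 * k0) : ℕ) : ℝ) := by
        exact_mod_cast (List.toFinset_card_le _).trans ((List.length_filter_le _ _).trans
          (hLen _ _ _ _ _ _ _).1)
      have h7 : (0 : ℝ) ≤ 1 / ((q ^ dd j : ℕ) : ℝ) + τ := by positivity
      calc _ ≤ (((2 * n + 1) ^ (9 * k0) *
            (1 + (2 * n + 1) ^ (4 * (9 * k0)) * max 1 (q ^ Qe j)) ^ (2 * k0) : ℕ) : ℝ) *
            (1 / ((q ^ dd j : ℕ) : ℝ) + τ) * J :=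
            mul_le_mul_of_nonneg_right (mul_le_mul_of_nonneg_right h6 h7) hJ0.le
        _ = (J : ℝ) * (((2 * n + 1) ^ (9 * k0) *
            (1 + (2 * n + 1) ^ (4 * (9 * k0)) * max 1 (q ^ Qe j)) ^ (2 * k0) : ℕ) : ℝ) *
            (1 / ((q : ℕ) : ℝ) ^ dd j + τ) := by push_cast; ring
        _ ≤ _ := h5
    refine (sum_le_card_nsmul _ _ _ h3).trans ?_
    rw [nsmul_eq_mul, card_range, mul_div_cancel₀ _ hJ0.ne']
  calc PP (fun x : Cube n => dnfVal H (List.ofFn x) ≠ dnfVal F (List.ofFn x))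
      ≤ PP (fun x : Cube n => Ngl x ∨ (¬ ff n F x ∧ dnfVal H (List.ofFn x) = true)) := by
        refine PP_mono fun x hx => ?_
        by_cases hfx : ff n F x
        · left
          by_contra hnl
          refine hx ?_
          rw [hcovx x hfx hnl]
          exact hfx.symm
        · right
          refine ⟨hfx, ?_⟩
          unfold ff at hfx
          rw [Bool.not_eq_true] at hfx
          rw [hfx] at hx
          simpa using hx
    _ ≤ PP Ngl + PP (fun x : Cube n => ¬ ff n F x ∧ dnfVal H (List.ofFn x) = true) :=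
        PP_or_le _ _
    _ ≤ 1 / (2 * al) + 1 / (2 * al) := add_le_add hNglP hfp
    _ = 1 / al := by field_simp; norm_num

end Pool.Agent.Helper91K9.TW
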