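import Pool.Agent.Helper91K9.TW.Stm2

/-!
# Covering a point at the first critical node
-/

namespace Pool.Agent.Helper91K9.TW

open Finset Pool.Agent.Helper91K9.DL

variable {n m : ℕ} {ι : Type}

/-- The event which belongs to the killing set `Q` and the set `X` of crossing terms. -/
def Evt (I : Finset ι) (T : ι → Finset (Fin n)) (a : ι → Cube n) (U1 V1 : Finset (Fin n))
    (B1 : Finset ι) (U2 V2 : Finset (Fin n)) (B2 : Finset ι) (Q : Finset (Fin n)) (X : Finset ι)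
    (z x : Cube n) : Prop :=
  (agr (V1 ∪ V2 ∪ Q) z x ∧ Inn I T a U1 V1 B1 z x ∧ Inn I T a U2 V2 B2 z x) ∧
    ∀ i ∈ X, agr (T i ∩ (U1 \ V1)) (a i) x ∧ agr (T i ∩ (U2 \ V2)) (a i) x

theorem mix_congr {V : Finset (Fin n)} {z z' : Cube n} (h : agr V z z') (x : Cube n) :
    mix V z x = mix V z' x := by
  funext v
  by_cases hv : v ∈ V
  · rw [mix_mem hv, mix_mem hv, h v hv]
  · rw [mix_not hv, mix_not hv]

theorem Evt_congr (I : Finset ι) (T : ι → Finset (Fin n)) (a : ι → Cube n)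
    (U1 V1 : Finset (Fin n)) (B1 : Finset ι) (U2 V2 : Finset (Fin n)) (B2 : Finset ι)
    (Q : Finset (Fin n)) (X : Finset ι) (z z' : Cube n) (h : agr (V1 ∪ V2 ∪ Q) z z')
    (x : Cube n) : Evt I T a U1 V1 B1 U2 V2 B2 Q X z x ↔ Evt I T a U1 V1 B1 U2 V2 B2 Q X z' x := by
  unfold Evt Inn
  rw [mix_congr (agr_mono (subset_union_left.trans subset_union_left) h),
    mix_congr (agr_mono (subset_union_right.trans subset_union_left) h)]
  refine and_congr_left fun _ => and_congr_left fun _ => ?_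
  unfold agr
  exact forall₂_congr fun v hv => by rw [h v hv]

/-- A killing set for the terms in `B` inside `D`. -/
theorem exists_kl (T : ι → Finset (Fin n)) (a : ι → Cube n) (z : Cube n) (B : Finset ι)
    (D : Finset (Fin n)) : ∃ Q ⊆ D, Q.card ≤ B.card ∧ Kl T a z (fun i => i ∈ B) D Q := by
  classical
  induction B using Finset.induction_on with
  | empty => exact ⟨∅, empty_subset _, by simp, fun i hi => by simp at hi⟩
  | insert i B hi ih =>
    obtain ⟨Q, hQD, hQc, hQ⟩ := ih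
    by_cases h : agr (T i ∩ D) (a i) z
    · refine ⟨Q, hQD, by rw [card_insert_of_notMem hi]; omega, fun j hj hz => ?_⟩
      rcases mem_insert.1 hj with rfl | hj
      · exact absurd h hz
      · exact hQ j hj hz
    · obtain ⟨v, hv, hne⟩ := exists_ne h
      rw [mem_inter] at hv
      refine ⟨insert v Q, insert_subset hv.2 hQD, ?_, fun j hj hz => ?_⟩
      · rw [card_insert_of_notMem hi]
        exact (card_insert_le _ _).trans (by omega)
      · rcases mem_insert.1 hj with rfl | hj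
        · intro hc
          exact hne (hc v (mem_inter.2 ⟨hv.1, mem_inter.2 ⟨mem_insert_self _ _, hv.2⟩⟩))
        · refine fun hc => hQ j hj hz (agr_mono ?_ hc)
          exact inter_subset_inter_left (inter_subset_inter_right (subset_insert _ _))

theorem Kl.mono {T : ι → Finset (Fin n)} {a : ι → Cube n} {z : Cube n} {B : ι → Prop}
    {D Q Q' : Finset (Fin n)} (h : Kl T a z B D Q) (hQ : Q ⊆ Q') : Kl T a z B D Q' :=
  fun i hi hz hc => h i hi hz (agr_mono (inter_subset_inter_left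
    (inter_subset_inter_right hQ)) hc)

theorem qq_mono_e0 {I : Finset ι} {T : ι → Finset (Fin n)} {a : ι → Cube n} {f : Cube n → Prop}
    (hf : ∀ x, f x ↔ ∃ i ∈ I, agr (T i) (a i) x) {t : ℕ} {U1 V1 U2 V2 : Finset (Fin n)}
    {B1 B2 : Finset ι} (hS : Sep I T t U1 V1 B1 U2 V2 B2) {z : Cube n} (h1 : 0 < qq f U1 z)
    (h2 : 0 < qq f U2 z)
    {X : Finset ι} (hX : ∀ i, i ∈ X ↔ i ∈ B1 ∧ agr (T i ∩ (U1 ∪ U2)) (a i) z) :
    e0 T a z (V1 ∪ V2) (U1 \ V1 ∪ U2 \ V2 ∪ (V1 ∪ V2)) X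
      (Out2 I T a (U1 \ V1) (U2 \ V2) (V1 ∪ V2) B1 B2 z) ∅ ≤ qq f (U1 ∪ U2) z := by
  unfold e0 qq
  have hU : ∀ v, v ∈ U1 \ V1 ∪ U2 \ V2 ∪ (V1 ∪ V2) ↔ v ∈ U1 ∪ U2 := by
    intro v
    have s1 := @hS.sub1 v
    have s2 := @hS.sub2 v
    simp only [mem_union, mem_sdiff]
    tauto
  refine PP_mono fun x hx => ?_
  obtain ⟨⟨hW, hO⟩, hpat⟩ := hx
  intro hfx
  obtain ⟨i, hi, hag⟩ := (hf _).1 hfx
  have hz : T i ⊆ U1 ∪ U2 → agr (T i) (a i) z := fun h v hv => by
    have := hag v hv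
    rwa [mix_mem (h hv)] at this
  by_cases hi1 : i ∈ B1
  · by_cases hiX : i ∈ X
    · have h3 := hpat i hiX
      simp only [notMem_empty, iff_false] at h3
      refine h3 fun v hv => ?_
      rw [mem_sdiff, hU] at hv
      have := hag v hv.1
      rwa [mix_not hv.2] at this
    · refine hiX ((hX i).2 ⟨hi1, fun v hv => ?_⟩)
      rw [mem_inter] at hv
      have := hag v hv.1
      rwa [mix_mem hv.2] at this
  · by_cases hi2 : i ∈ B2
    · have h3 := hS.b21 i hi2 hi1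
      exact not_agr_of_qq hf h2 hi h3 (hz (h3.trans subset_union_right))
    · rcases hS.t1 i hi hi1 with h3 | h3
      · exact not_agr_of_qq hf h1 hi h3 (hz (h3.trans subset_union_left))
      · rcases hS.t2 i hi hi2 with h4 | h4
        · exact not_agr_of_qq hf h2 hi h4 (hz (h4.trans subset_union_right))
        · refine hO i hi hi1 hi2 h3 h4 fun v hv => ?_
          have h5 := hag v hv
          have n1 : v ∉ U1 \ V1 := Finset.disjoint_left.1 h3 hv
          have n2 : v ∉ U2 \ V2 := Finset.disjoint_left.1 h4 hv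
          by_cases hvW : v ∈ V1 ∪ V2
          · rw [mix_mem hvW]
            rwa [mix_mem] at h5
            rcases mem_union.1 hvW with h | h
            · exact mem_union_left _ (hS.sub1 h)
            · exact mem_union_right _ (hS.sub2 h)
          · rw [mix_not hvW]
            rwa [mix_not] at h5
            rw [← hU]
            intro hc
            rcases mem_union.1 hc with hc | hc
            · rcases mem_union.1 hc with hc | hc
              · exact n1 hc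
              · exact n2 hc
            · exact hvW hc

theorem merge_cov (hK : S_KILL) (hD1 : S_DET1) (hD2 : S_DET2) (hSz : S_SIZE) (hSub : S_SUBS)
    (hGap : S_GAP) {F : List (List (ℕ × Bool))} {Xs : Fin m → Cube n} {τ : ℝ}
    (hG : Good Xs (ff n F) τ) {I : Finset ι} {T : ι → Finset (Fin n)} {a : ι → Cube n}
    (hf : ∀ x, ff n F x ↔ ∃ i ∈ I, agr (T i) (a i) x) {k0 J : ℕ} {θ : ℕ → ℝ}
    (hθ : ∀ j, θ (j + 1) ≤ θ j) {Kf Qf : ℕ → ℕ}
    (hs : ∀ j < J, Scl n m (9 * k0) k0 (Kf j) (Qf j) (θ j) (θ (j + 1))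
      (θ J / (2 * ((n : ℝ) + 1)) ^ k0) τ) (hJ : 3 * 2 ^ k0 < J) (hθJ : 0 < θ J) {t : ℕ}
    (ht : t + 1 = k0) {U1 V1 U2 V2 : Finset (Fin n)} {B1 B2 : Finset ι}
    (hS : Sep I T t U1 V1 B1 U2 V2 B2) {z : Cube n} (h1 : θ J ≤ qq (ff n F) U1 z)
    (h2 : θ J ≤ qq (ff n F) U2 z) (hU : qq (ff n F) (U1 ∪ U2) z < θ J)
    (hneg : ∀ Q : Finset (Fin n), Q.card ≤ 4 * k0 → ∀ X ⊆ B1,
      Evt I T a U1 V1 B1 U2 V2 B2 Q X z z → θ 0 < PP (Evt I T a U1 V1 B1 U2 V2 B2 Q X z)) :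
    ∃ j < J, ∃ A ∈ cands3 (9 * k0) (2 * k0) n m (Kf j) (Qf j) (negs (smp F Xs)),
      (∀ l ∈ A, l.1 < n) ∧ satL (UU n A) z ∧ NN (ff n F) (UU n A) ≤ 8 ^ k0 * θ (j + 1) := by
  classical
  have p1 : 0 < qq (ff n F) U1 z := lt_of_lt_of_le hθJ h1
  have p2 : 0 < qq (ff n F) U2 z := lt_of_lt_of_le hθJ h2
  obtain ⟨Q1, hQ1D, hQ1c, hQ1⟩ := exists_kl T a z B1 (U1 \ V1)
  obtain ⟨Q2, hQ2D, hQ2c, hQ2⟩ := exists_kl T a z B2 (U1 \ V1)
  obtain ⟨Q3, hQ3D, hQ3c, hQ3⟩ := exists_kl T a z B1 (U2 \ V2)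
  obtain ⟨Q4, hQ4D, hQ4c, hQ4⟩ := exists_kl T a z B2 (U2 \ V2)
  set Q := (Q1 ∪ Q2) ∪ (Q3 ∪ Q4) with hQ
  have c1 := hS.card1
  have c2 := hS.card2
  have hQc : Q.card ≤ 4 * k0 := by
    have e1 := card_union_le (Q1 ∪ Q2) (Q3 ∪ Q4)
    have e2 := card_union_le Q1 Q2
    have e3 := card_union_le Q3 Q4
    rw [hQ]
    omega
  have hQD : Q ⊆ (U1 \ V1) ∪ (U2 \ V2) :=
    union_subset ((union_subset hQ1D hQ2D).trans subset_union_left)
      ((union_subset hQ3D hQ4D).trans subset_union_right)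
  have s1 : Q1 ⊆ Q := subset_union_left.trans subset_union_left
  have s2 : Q2 ⊆ Q := subset_union_right.trans subset_union_left
  have s3 : Q3 ⊆ Q := subset_union_left.trans subset_union_right
  have s4 : Q4 ⊆ Q := subset_union_right.trans subset_union_right
  have k1 : Kl T a z (fun i => i ∈ B1 ∨ i ∈ B2) (U1 \ V1) Q := fun i hi hz =>
    hi.elim (fun h => (hQ1.mono s1) i h hz) fun h => (hQ2.mono s2) i h hz
  have k2 : Kl T a z (fun i => i ∈ B1 ∨ i ∈ B2) (U2 \ V2) Q := fun i hi hz =>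
    hi.elim (fun h => (hQ3.mono s3) i h hz) fun h => (hQ4.mono s4) i h hz
  set X := B1.filter fun i => agr (T i ∩ (U1 ∪ U2)) (a i) z with hXd
  have hX : ∀ i, i ∈ X ↔ i ∈ B1 ∧ agr (T i ∩ (U1 ∪ U2)) (a i) z := fun i => by
    rw [hXd, mem_filter]
  have hXc : X.card ≤ k0 := (card_le_card (filter_subset _ _)).trans (by omega)
  have hL := locOfSep hf hS p1 p2 hQD k1 k2 hX
  have hP1 := pureOfSide hK hf hS.sub1 hS.subB1 hS.t1 hθJ h1 (Q := Q)
    (fun i hi hz => k1 i (Or.inl hi) hz) (k := k0) (by omega)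
  have hP2 := pureOfSide hK hf hS.sub2 hS.subB2 hS.t2 hθJ h2 (Q := Q)
    (fun i hi hz => k2 i (Or.inr hi) hz) (k := k0) (by omega)
  have hzX : ∀ i ∈ X, agr (T i ∩ (U1 \ V1)) (a i) z ∧ agr (T i ∩ (U2 \ V2)) (a i) z := by
    intro i hi
    have h3 := ((hX i).1 hi).2
    exact ⟨agr_mono (inter_subset_inter_left (sdiff_subset.trans subset_union_left)) h3,
      agr_mono (inter_subset_inter_left (sdiff_subset.trans subset_union_right)) h3⟩
  -- the type of `z` is noticeable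
  have hEvt : Evt I T a U1 V1 B1 U2 V2 B2 Q X z z := by
    refine ⟨⟨fun _ _ => rfl, fun i hi hiB hiU => ?_, fun i hi hiB hiU => ?_⟩, hzX⟩
    · rw [mix_self]; exact not_agr_of_qq hf p1 hi hiU
    · rw [mix_self]; exact not_agr_of_qq hf p2 hi hiU
  have hnot := hneg Q hQc X (filter_subset _ _) hEvt
  have hanti : ∀ j, θ j ≤ θ 0 := fun j => by
    induction j with
    | zero => exact le_rfl
    | succ j ih => exact (hθ j).trans ih
  have hanti2 : ∀ i j, i ≤ j → θ j ≤ θ i := fun i j h => by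
    induction j, h using Nat.le_induction with
    | base => exact le_rfl
    | succ j _ ih => exact (hθ j).trans ih
  have hX1 : θ 0 ≤ eD T a z Q (U1 \ V1) X (Inn I T a U1 V1 B1 z) X := by
    refine hnot.le.trans (PP_mono fun x hx => ?_)
    obtain ⟨⟨h3, h4, h5⟩, h6⟩ := hx
    exact ⟨⟨h4, agr_mono (inter_subset_left.trans subset_union_right) h3⟩,
      fun i hi => ⟨fun _ => hi, fun _ => (h6 i hi).1⟩⟩
  have hX2 : θ 0 ≤ eD T a z Q (U2 \ V2) X (Inn I T a U2 V2 B2 z) X := by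
    refine hnot.le.trans (PP_mono fun x hx => ?_)
    obtain ⟨⟨h3, h4, h5⟩, h6⟩ := hx
    exact ⟨⟨h5, agr_mono (inter_subset_left.trans subset_union_right) h3⟩,
      fun i hi => ⟨fun _ => hi, fun _ => (h6 i hi).2⟩⟩
  -- the scale
  set Vals : Finset ℝ := (X.powerset.image fun S =>
      eD T a z Q (U1 \ V1) X (Inn I T a U1 V1 B1 z) S) ∪ (X.powerset.image fun S =>
      eD T a z Q (U2 \ V2) X (Inn I T a U2 V2 B2 z) S) ∪ (X.powerset.image fun S =>
      e0 T a z (V1 ∪ V2) (U1 \ V1 ∪ U2 \ V2 ∪ (V1 ∪ V2)) X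
        (Out2 I T a (U1 \ V1) (U2 \ V2) (V1 ∪ V2) B1 B2 z) S) with hVals
  have hVc : Vals.card < J := by
    refine lt_of_le_of_lt ?_ hJ
    have e1 : ∀ g : Finset ι → ℝ, (X.powerset.image g).card ≤ 2 ^ k0 := fun g =>
      card_image_le.trans (by
        rw [card_powerset]; exact Nat.pow_le_pow_right (by norm_num) hXc)
    rw [hVals]
    refine (card_union_le _ _).trans ?_
    refine (add_le_add (card_union_le _ _) le_rfl).trans ?_
    have := e1 (fun S => eD T a z Q (U1 \ V1) X (Inn I T a U1 V1 B1 z) S)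
    have := e1 (fun S => eD T a z Q (U2 \ V2) X (Inn I T a U2 V2 B2 z) S)
    have := e1 (fun S => e0 T a z (V1 ∪ V2) (U1 \ V1 ∪ U2 \ V2 ∪ (V1 ∪ V2)) X
        (Out2 I T a (U1 \ V1) (U2 \ V2) (V1 ∪ V2) B1 B2 z) S)
    omega
  obtain ⟨j, hj, hgap⟩ := hGap Vals θ hθ J hVc
  have hW : (V1 ∪ V2).card ≤ 2 * k0 := (card_union_le _ _).trans (by omega)
  refine ⟨j, hj, cover_scale hK hD1 hD2 hSz hSub hG (hs j hj) hL hP1 hP2 hXc (by omega)
    (by omega) le_rfl ?_ ?_ ?_ ((hanti j).trans hX1) ((hanti j).trans hX2) ?_ hzX⟩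
  · intro S hS'
    exact hgap _ (mem_union_left _ (mem_union_left _ (mem_image.2 ⟨S, mem_powerset.2 hS', rfl⟩)))
  · intro S hS'
    exact hgap _ (mem_union_left _ (mem_union_right _ (mem_image.2 ⟨S, mem_powerset.2 hS', rfl⟩)))
  · intro S hS'
    exact hgap _ (mem_union_right _ (mem_image.2 ⟨S, mem_powerset.2 hS', rfl⟩))
  · exact (qq_mono_e0 hf hS p1 p2 hX).trans (hU.le.trans (hanti2 (j + 1) J (by omega)))

end Pool.Agent.Helper91K9.TW
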