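import Pool.Agent.Helper91K9.TW.Stm3
import Pool.Agent.Helper91K9.TW.Fam3

/-!
# Few terms suffice
-/

namespace Pool.Agent.Helper91K9.TW

open Finset Pool.Agent.NPC Pool.Agent.H424R2.PPAD Pool.Agent.Helper91K9.DL

open Classical in
theorem TD.restrict {n : ℕ} {ι : Type} {I : Finset ι} {T : ι → Finset (Fin n)} {t : ℕ}
    {K : Finset ℕ} {p : ℕ → ℕ} {V : ℕ → Finset (Fin n)} {B : ℕ → Finset ι}
    (h : TD I T t K p V B) {J : Finset ι} (hJ : J ⊆ I) :
    TD J T t K p V (fun k => B k ∩ J) where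
  card := fun k hk => (Nat.add_le_add_left (card_le_card inter_subset_left) _).trans (h.card k hk)
  subB := fun _ _ => inter_subset_right
  par := fun k hk j hj hjk => by
    obtain ⟨h1, h2, h3, h4⟩ := h.par k hk j hj hjk
    refine ⟨h1, h2, h3, fun i hi hi' => ?_⟩
    rw [mem_inter] at hi hi' ⊢
    exact ⟨h4 i hi.1 hi'.1, hi.2⟩
  cov := fun i hi v hv => by
    obtain ⟨k, hk, h1, h2⟩ := h.cov i (hJ hi) v hv
    exact ⟨k, hk, h1, mem_inter.2 ⟨h2, hi⟩⟩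

theorem reduce (hE : S_EDGE) (hR : S_REP) {n : ℕ} {ι : Type} {I : Finset ι}
    {T : ι → Finset (Fin n)} (a : ι → Cube n) {t : ℕ}
    {K : Finset ℕ} {p : ℕ → ℕ} {V : ℕ → Finset (Fin n)} {B : ℕ → Finset ι}
    (h : TD I T t K p V B) : ∃ I' : Finset ι, I'.card ≤ t * n + (2 * n + 1) ^ t ∧
      (∀ x, (∃ i ∈ I, agr (T i) (a i) x) ↔ ∃ i ∈ I', agr (T i) (a i) x) ∧
      ∃ B', TD I' T t K p V B' := by
  classical
  obtain ⟨I', hI', hc, hrep⟩ := hR n ι (I.filter fun i => (T i).card ≤ t) T a t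
    (fun i hi => (mem_filter.1 hi).2)
  set Iw := I.filter fun i => ¬ (T i).card ≤ t with hIw
  have hw : Iw.card ≤ t * n := by
    have h1 := hE n ι Iw T t K p V _ (h.restrict (filter_subset _ _))
    have h2 : Iw.card * (t + 1) ≤ ∑ i ∈ Iw, (T i).card := by
      rw [← smul_eq_mul]
      exact card_nsmul_le_sum _ _ _ fun i hi => by
        have := (mem_filter.1 hi).2
        omega
    have h3 : Iw.card * (t + 1) ≤ t * (n + Iw.card) := h2.trans h1
    nlinarith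
  have hsub : Iw ∪ I' ⊆ I :=
    union_subset (filter_subset _ _) (hI'.trans (filter_subset _ _))
  refine ⟨Iw ∪ I', (card_union_le _ _).trans (add_le_add hw hc), fun x => ?_, _,
    h.restrict hsub⟩
  constructor
  · rintro ⟨i, hi, hx⟩
    by_cases hit : (T i).card ≤ t
    · obtain ⟨j, hj, hjx⟩ := hrep x ⟨i, mem_filter.2 ⟨hi, hit⟩, hx⟩
      exact ⟨j, mem_union_right _ hj, hjx⟩
    · exact ⟨i, mem_union_left _ (mem_filter.2 ⟨hi, hit⟩), hx⟩
  · rintro ⟨i, hi, hx⟩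
    exact ⟨i, hsub hi, hx⟩

theorem num_al (t n a : ℕ) : t * n + (2 * n + 1) ^ t ≤ (n + a + 2) ^ (2 * t + 2) ∧
    a ≤ (n + a + 2) ^ (2 * t + 2) := by
  set q := n + a + 2 with hq
  have hq2 : 2 ≤ q := by omega
  have h1 : t * n ≤ q ^ (2 * t + 1) := by
    have h2 : t ≤ q ^ (2 * t) := by
      calc t ≤ 2 ^ t := Nat.lt_two_pow_self.le
        _ ≤ q ^ t := Nat.pow_le_pow_left hq2 t
        _ ≤ q ^ (2 * t) := Nat.pow_le_pow_right (by omega) (by omega)
    calc t * n ≤ q ^ (2 * t) * q := Nat.mul_le_mul h2 (by omega)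
      _ = q ^ (2 * t + 1) := by rw [pow_succ]
  have h3 : (2 * n + 1) ^ t ≤ q ^ (2 * t + 1) := by
    calc (2 * n + 1) ^ t ≤ (q ^ 2) ^ t := Nat.pow_le_pow_left (by nlinarith) t
      _ = q ^ (2 * t) := by rw [← pow_mul]
      _ ≤ _ := Nat.pow_le_pow_right (by omega) (by omega)
  constructor
  · calc t * n + (2 * n + 1) ^ t ≤ q ^ (2 * t + 1) + q ^ (2 * t + 1) := add_le_add h1 h3
      _ = q ^ (2 * t + 1) * 2 := by ring
      _ ≤ q ^ (2 * t + 1) * q := Nat.mul_le_mul_left _ hq2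
      _ = q ^ (2 * t + 2) := by rw [← pow_succ]
  · calc a ≤ q := by omega
      _ = q ^ 1 := (pow_one q).symm
      _ ≤ _ := Nat.pow_le_pow_right (by omega) (by omega)

theorem num_m3 (t e n a b : ℕ) (ha : 1 ≤ a) (hb : 1 ≤ b) :
    (n + (n + a + 2) ^ (2 * t + 2) + b) ^ e ≤ (n + a + b) ^ ((4 * t + 5) * e) := by
  rw [pow_mul]
  refine Nat.pow_le_pow_left ?_ e
  set Q := n + a + b with hQ
  have hQ2 : 2 ≤ Q := by omega
  have h1 : n + a + 2 ≤ Q ^ 2 := by nlinarith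
  have h2 : (n + a + 2) ^ (2 * t + 2) ≤ Q ^ (4 * t + 4) := by
    calc (n + a + 2) ^ (2 * t + 2) ≤ (Q ^ 2) ^ (2 * t + 2) := Nat.pow_le_pow_left h1 _
      _ = Q ^ (4 * t + 4) := by rw [← pow_mul]; congr 1; ring
  have h3 : Q ≤ Q ^ (4 * t + 4) := by
    calc Q = Q ^ 1 := (pow_one Q).symm
      _ ≤ _ := Nat.pow_le_pow_right (by omega) (by omega)
  calc n + (n + a + 2) ^ (2 * t + 2) + b ≤ Q ^ (4 * t + 4) + Q ^ (4 * t + 4) := by omega
    _ = Q ^ (4 * t + 4) * 2 := by ring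
    _ ≤ Q ^ (4 * t + 4) * Q := Nat.mul_le_mul_left _ hQ2
    _ = Q ^ (4 * t + 5) := by rw [← pow_succ]

/-- DNF formulas of bounded incidence treewidth are learnable from uniform random examples. -/
theorem tw_full_of (hK : S_KILL) (hD1 : S_DET1) (hD2 : S_DET2) (hSz : S_SIZE) (hSub : S_SUBS)
    (hGap : S_GAP) (hCls : S_CLASS) (hSmall : S_SMALL) (hLen : S_LEN) (hT1 : S_TREE1)
    (hT2 : S_TREE2) (hNum : S_NUM) (hPoly : S_POLY3) (hE : S_EDGE) (hR : S_REP) (t : ℕ) :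
    ∃ A : ℕ × List (List Bool × Bool) → List (List (ℕ × Bool)), PTime A ∧ ∃ e : ℕ,
      ∀ (n a b : ℕ) (F : List (List (ℕ × Bool))), 1 ≤ a → 1 ≤ b →
        (∀ u ∈ F, ∀ l ∈ u, l.1 < n) → TreeWidthLE t F → ∀ m, (n + a + b) ^ e ≤ m →
        Succeeds (fun S => A (a, S)) n m F (1 / a) (1 / b) := by
  classical
  obtain ⟨bb, kk, Qe, dd, K', e, hnum⟩ := hNum (t + 1) (by omega)
  have h1 : Poly (fun p : ℕ × List (List Bool × Bool) => p.2) := NPC.Poly.snd NPC.Poly.id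
  have h3 : UPoly (fun p : ℕ × List (List Bool × Bool) => nvars p.2) := nvars_upoly.comp h1
  refine ⟨fun p => learn3 (9 * (t + 1)) (2 * (t + 1))
    ((List.range (3 * 2 ^ (t + 1) + 1)).map fun j => (kk j, Qe j, dd j))
    (thr (2 * t + 2) (nvars p.2) p.1, p.2), PTime.of_poly ((hPoly _ _ _).comp
      (NPC.Poly.pair (thr_poly (2 * t + 2) h3.toPoly (NPC.Poly.fst NPC.Poly.id)) h1)),
    (4 * t + 5) * e, fun n a b F ha hb hFv hw m hm => ?_⟩
  set al := (n + a + 2) ^ (2 * t + 2) with hal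
  obtain ⟨e1, e2⟩ := num_al t n a
  rw [← hal] at e1 e2
  have hal1 : 1 ≤ al := by omega
  obtain ⟨n1, n2, n3, n4, n5, n6⟩ := hnum n al b m hal1 hb ((num_m3 t e n a b ha hb).trans hm)
  have hm0 : 0 < m := (n1 0 (by omega)).m0
  have hq0 : (0 : ℝ) < ((n + al + 2 : ℕ) : ℝ) := by exact_mod_cast (by omega)
  have hs := samp n m b (ff n F) _ hb (by positivity) n6
  unfold Succeeds
  refine hs.trans (Nat.cast_le.2 (card_le_card fun X hX => ?_))
  rw [mem_filter] at hX ⊢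
  refine ⟨mem_univ _, ?_⟩
  rw [err_eq]
  have hnv : nvars (examples F X) = n := by
    unfold nvars examples
    obtain ⟨m', rfl⟩ : ∃ m', m = m' + 1 := ⟨m - 1, by omega⟩
    simp
  simp only [hnv]
  have hthr : thr (2 * t + 2) n a = al := rfl
  rw [hthr]
  obtain ⟨K, p, V, B, hTD⟩ := td_of_width n t F hw
  obtain ⟨I', hI', hiff, B', hTD'⟩ := reduce hE hR (fun i => AV n (F.get i)) hTD
  refine (correct3 hK hD1 hD2 hSz hSub hGap hCls hSmall hLen hT1 hT2 hal1 hm0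
    (fun x => (ff_iff3 n F hFv x).trans (hiff x))
    (hI'.trans e1) rfl hTD' n1 n2 n3 n4 n5 X hX.2).trans ?_
  exact one_div_le_one_div_of_le (by exact_mod_cast ha) (by exact_mod_cast e2)

end Pool.Agent.Helper91K9.TW
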