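import Pool.Agent.Helper91K9.TW.Stm3

/-!
# Leaf REP
-/

namespace Pool.Agent.Helper91K9.TW

open Finset Pool.Agent.Helper91K9.DL

theorem card_small (α : Type) [Fintype α] [DecidableEq α] (c : ℕ) :
    ((univ : Finset (Finset α)).filter fun Q => Q.card ≤ c).card ≤ (Fintype.card α + 1) ^ c := by
  induction c with
  | zero =>
    rw [pow_zero]
    refine (card_le_card (t := {∅}) ?_).trans (by simp)
    intro Q hQ
    have := (mem_filter.1 hQ).2
    rw [Nat.le_zero, card_eq_zero] at this
    rw [this]
    exact mem_singleton_self _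
  | succ c ih =>
    let F : Option α × Finset α → Finset α := fun p =>
      match p.1 with
      | none => p.2
      | some a => insert a p.2
    have h1 : ((univ : Finset (Finset α)).filter fun Q => Q.card ≤ c + 1) ⊆
        ((univ : Finset (Option α)) ×ˢ
          ((univ : Finset (Finset α)).filter fun Q => Q.card ≤ c)).image F := by
      intro Q hQ
      have hc := (mem_filter.1 hQ).2
      rw [mem_image]
      rcases Q.eq_empty_or_nonempty with h0 | ⟨a, ha⟩
      · refine ⟨(none, ∅), mem_product.2 ⟨mem_univ _, mem_filter.2 ⟨mem_univ _, by simp⟩⟩, ?_⟩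
        rw [h0]
      · refine ⟨(some a, Q.erase a), mem_product.2 ⟨mem_univ _, mem_filter.2 ⟨mem_univ _, ?_⟩⟩,
          insert_erase ha⟩
        rw [card_erase_of_mem ha]
        omega
    refine (card_le_card h1).trans (card_image_le.trans ?_)
    rw [card_product, card_univ, Fintype.card_option, pow_succ, mul_comm]
    exact Nat.mul_le_mul_right _ ih

theorem rep : S_REP := by
  classical
  intro n ι I T a t hT
  let L : ι → Finset (Fin n × Bool) := fun i => (T i).image fun v => (v, a i v)
  have hagr : ∀ i x, agr (T i) (a i) x ↔ ∀ l ∈ L i, x l.1 = l.2 := by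
    intro i x
    simp only [L, mem_image]
    constructor
    · rintro h l ⟨v, hv, rfl⟩
      exact h v hv
    · intro h v hv
      exact h _ ⟨v, hv, rfl⟩
  rcases I.eq_empty_or_nonempty with h0 | ⟨i0, hi0⟩
  · refine ⟨∅, empty_subset _, by simp, fun x => ?_⟩
    rintro ⟨i, hi, -⟩
    rw [h0] at hi
    exact absurd hi (notMem_empty _)
  have : Nonempty ι := ⟨i0⟩
  have hex : ∀ M ∈ I.image L, ∃ i ∈ I, L i = M := fun M hM => mem_image.1 hM
  choose! c hc1 hc2 using hex
  refine ⟨(I.image L).image c, ?_, ?_, ?_⟩
  · intro i hi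
    obtain ⟨M, hM, rfl⟩ := mem_image.1 hi
    exact hc1 M hM
  · refine card_image_le.trans ?_
    have h1 : I.image L ⊆ (univ : Finset (Finset (Fin n × Bool))).filter fun Q => Q.card ≤ t := by
      intro M hM
      obtain ⟨i, hi, rfl⟩ := mem_image.1 hM
      exact mem_filter.2 ⟨mem_univ _, card_image_le.trans (hT i hi)⟩
    refine (card_le_card h1).trans ((card_small _ t).trans ?_)
    rw [Fintype.card_prod, Fintype.card_fin, Fintype.card_bool, mul_comm n 2]
  · rintro x ⟨i, hi, hx⟩
    have hM : L i ∈ I.image L := mem_image_of_mem _ hi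
    refine ⟨c (L i), mem_image_of_mem _ hM, ?_⟩
    rw [hagr, hc2 _ hM, ← hagr]
    exact hx

end Pool.Agent.Helper91K9.TW
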