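import Pool.Agent.Helper91K9.TW.Cover

/-!
# Statements of the last leaves
-/

namespace Pool.Agent.Helper91K9.TW

open Finset Pool.Agent.Helper91K9.DL

/-- Leaf GAP. -/
def S_GAP : Prop := ∀ (Vals : Finset ℝ) (θ : ℕ → ℝ), (∀ j, θ (j + 1) ≤ θ j) → ∀ J : ℕ,
  Vals.card < J → ∃ j < J, ∀ v ∈ Vals, v ≤ θ (j + 1) ∨ θ j ≤ v

/-- Leaf CLASS: the union bound over the classes of points. -/
def S_CLASS : Prop := ∀ (n : ℕ) (S : Finset (Fin n)) (Ev : Cube n → Cube n → Prop) (η : ℝ), 0 ≤ η →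
  (∀ z z', agr S z z' → ∀ x, (Ev z x ↔ Ev z' x)) →
  PP (fun x => Ev x x ∧ PP (Ev x) ≤ η) ≤ 2 ^ S.card * η

/-- Leaf SMALL: the number of small sets. -/
def S_SMALL : Prop := ∀ n c : ℕ,
  ((univ : Finset (Finset (Fin n))).filter fun Q => Q.card ≤ c).card ≤ (n + 1) ^ c

/-- Leaf LEN: the number of candidates and their variables. -/
def S_LEN : Prop := ∀ (r c n m K Q : ℕ) (neg : List (List Bool)),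
  (cands3 r c n m K Q neg).length ≤
    (2 * n + 1) ^ r * (1 + (2 * n + 1) ^ (4 * r) * max 1 Q) ^ c ∧
  ∀ A ∈ cands3 r c n m K Q neg, ∀ l ∈ A, l.1 < n

/-- Leaf NUM: the choice of the parameters; `k0 = t + 1`, `r = 9 k0`, `c = 2 k0`,
`J = 3 * 2 ^ k0 + 1`, `q = n + a + 2`, where `a` bounds the number of terms and `1 / ε`; the
exponents of the scale `j` are `kk j`, `Qe j`, `dd j`, and `θ j = 1 / q ^ b j`. -/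
def S_NUM : Prop := ∀ k0 : ℕ, 1 ≤ k0 → ∃ (b kk Qe dd : ℕ → ℕ) (K' e : ℕ),
  ∀ (n a d m : ℕ), 1 ≤ a → 1 ≤ d → (n + a + d) ^ e ≤ m →
    (∀ j < 3 * 2 ^ k0 + 1, Scl n m (9 * k0) k0 ((n + a + 2) ^ kk j) ((n + a + 2) ^ Qe j)
      (1 / ((n + a + 2 : ℕ) : ℝ) ^ b j) (1 / ((n + a + 2 : ℕ) : ℝ) ^ b (j + 1))
      (1 / ((n + a + 2 : ℕ) : ℝ) ^ b (3 * 2 ^ k0 + 1) / (2 * ((n : ℝ) + 1)) ^ k0)
      (1 / ((n + a + 2 : ℕ) : ℝ) ^ K')) ∧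
    (∀ j, b j ≤ b (j + 1)) ∧
    ((n : ℝ) + a + 1) * ((n + 1) ^ (4 * k0) * (2 ^ k0 * (2 ^ (6 * k0) *
      (1 / ((n + a + 2 : ℕ) : ℝ) ^ b 0)))) ≤ 1 / (2 * a) ∧
    (∀ j < 3 * 2 ^ k0 + 1, ((n + a + 2 : ℕ) : ℝ) ^ dd j *
      (8 ^ k0 * (1 / ((n + a + 2 : ℕ) : ℝ) ^ b (j + 1)) + 1 / ((n + a + 2 : ℕ) : ℝ) ^ K') ≤ 1) ∧
    (∀ j < 3 * 2 ^ k0 + 1, ((3 * 2 ^ k0 + 1 : ℕ) : ℝ) * (((2 * n + 1) ^ (9 * k0) *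
      (1 + (2 * n + 1) ^ (4 * (9 * k0)) * max 1 ((n + a + 2) ^ Qe j)) ^ (2 * k0) : ℕ) : ℝ) *
      (1 / ((n + a + 2 : ℕ) : ℝ) ^ dd j + 1 / ((n + a + 2 : ℕ) : ℝ) ^ K') ≤ 1 / (2 * a)) ∧
    8 * (3 * (n : ℝ) + 2 * d) ≤ m * (1 / ((n + a + 2 : ℕ) : ℝ) ^ K') ^ 2

end Pool.Agent.Helper91K9.TW
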