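import Pool.Agent.Helper91K9.TW.Stm

/-!
# Statements of the leaves for the reduction of the number of terms
-/

namespace Pool.Agent.Helper91K9.TW

open Finset Pool.Agent.Helper91K9.DL

/-- Leaf EDGE: a graph of treewidth `t` has at most `t` times as many edges as vertices.
(For an edge `(i, v)` the smaller one of the top nodes of `i` and `v`, the least nodes whose bags
contain them: `v ∈ V (top i)` or `i ∈ B (top v)`.) -/
def S_EDGE : Prop := ∀ (n : ℕ) (ι : Type) (I : Finset ι) (T : ι → Finset (Fin n)) (t : ℕ)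
  (K : Finset ℕ) (p : ℕ → ℕ) (V : ℕ → Finset (Fin n)) (B : ℕ → Finset ι), TD I T t K p V B →
  ∑ i ∈ I, (T i).card ≤ t * (n + I.card)

/-- Leaf REP: representatives of the short terms. -/
def S_REP : Prop := ∀ (n : ℕ) (ι : Type) (I : Finset ι) (T : ι → Finset (Fin n))
  (a : ι → Cube n) (t : ℕ), (∀ i ∈ I, (T i).card ≤ t) →
  ∃ I' ⊆ I, I'.card ≤ (2 * n + 1) ^ t ∧
    ∀ x, (∃ i ∈ I, agr (T i) (a i) x) → ∃ i ∈ I', agr (T i) (a i) x

end Pool.Agent.Helper91K9.TW
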